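import Pool.Agent.H12.FO.Blq

/-!
PROJECT FO, Mid: the bad primes `2 ^ (J / d) ≤ q < 2 ^ (J - J / d)`.
-/

set_option autoImplicit false

namespace Pool.Agent.H12.FO.Mid

open Finset Filter Topology
open Pool.Agent.H37.PPC (pr mem_pr)
open Pool.Agent.H12.FO.BlqP

private theorem mid_div (J m : ℕ) (hm : 1 ≤ m) (hJ : m ≤ J) :
    (J : ℝ) / (2 * m) ≤ ((J / m : ℕ) : ℝ) := by
  have hmR : (1 : ℝ) ≤ m := by exact_mod_cast hm
  rw [div_le_iff₀ (by positivity)]
  have h6 : J ≤ (J / m) * (2 * m) := by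
    have h7 : J < (J / m + 1) * m := by
      rw [mul_comm]
      exact Nat.lt_mul_div_succ _ (by omega)
    have h8 : 1 ≤ J / m := (Nat.le_div_iff_mul_le (by omega)).2 (by omega)
    nlinarith
  exact_mod_cast h6

private theorem mid_log : Tendsto (fun J : ℕ => Real.log J / (J : ℝ)) atTop (𝓝 0) := by
  have h1 := Real.isLittleO_log_id_atTop.tendsto_div_nhds_zero
  have h2 := h1.comp (tendsto_natCast_atTop_atTop (R := ℝ))
  exact h2.congr fun J => rfl

private theorem mid_ratio (J m : ℕ) (hm : 1 ≤ m) (hJ : m ≤ J) (hJ3 : 3 ≤ J) :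
    Real.log ((J ^ 2 + 3 : ℕ) : ℝ) / Real.log ((2 ^ (J / m) : ℕ) : ℝ) ≤
      12 * m * (Real.log J / J) := by
  have hmR : (1 : ℝ) ≤ m := by exact_mod_cast hm
  have hJR : (3 : ℝ) ≤ J := by exact_mod_cast hJ3
  have hlJ : 0 < Real.log J := Real.log_pos (by linarith)
  have h1 : Real.log ((J ^ 2 + 3 : ℕ) : ℝ) ≤ 3 * Real.log J := by
    have h2 : J ^ 2 + 3 ≤ J ^ 3 := by nlinarith [sq_nonneg J]
    calc Real.log ((J ^ 2 + 3 : ℕ) : ℝ) ≤ Real.log ((J : ℝ) ^ 3) := by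
          apply Real.log_le_log
          · positivity
          · exact_mod_cast h2
      _ = 3 * Real.log J := by rw [Real.log_pow]; norm_num
  have h2 : (J : ℝ) / (4 * m) ≤ Real.log ((2 ^ (J / m) : ℕ) : ℝ) := by
    rw [Nat.cast_pow, Real.log_pow]
    have h5 := mid_div J m hm hJ
    have h6 : (1 / 2 : ℝ) ≤ Real.log ((2 : ℕ) : ℝ) := by
      have := Real.log_two_gt_d9
      push_cast
      linarith
    calc (J : ℝ) / (4 * m) = (J : ℝ) / (2 * m) * (1 / 2) := by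
          field_simp
          norm_num
      _ ≤ ((J / m : ℕ) : ℝ) * Real.log ((2 : ℕ) : ℝ) :=
          mul_le_mul h5 h6 (by norm_num) (by positivity)
  calc Real.log ((J ^ 2 + 3 : ℕ) : ℝ) / Real.log ((2 ^ (J / m) : ℕ) : ℝ)
      ≤ (3 * Real.log J) / ((J : ℝ) / (4 * m)) :=
        div_le_div₀ (by positivity) h1 (by positivity) h2
    _ = 12 * m * (Real.log J / J) := by
      field_simp
      norm_num

theorem mid : ∀ d : ℕ, 1 ≤ d → ∀ ε : ℝ, 0 < ε → ∀ᶠ J : ℕ in atTop,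
    Cnt (2 ^ J) (fun n q => 2 ^ (J / d) ≤ q ∧ q < 2 ^ (J - J / d) ∧ BadP n q) ≤ ε * 2 ^ J := by
  obtain ⟨C, hC, k, hk, hb⟩ := blq
  intro d hd ε hε
  have hdR : (1 : ℝ) ≤ d := by exact_mod_cast hd
  have hkR : (4 : ℝ) ≤ k := by exact_mod_cast hk
  set δ : ℝ := min 1 (ε / (4 * d * C)) with hδ
  have hδ0 : 0 < δ := lt_min one_pos (by positivity)
  have hδ1 : δ ≤ 1 := min_le_left _ _
  have hδ2 : δ ≤ ε / (4 * d * C) := min_le_right _ _
  have hev : ∀ᶠ J : ℕ in atTop, Real.log J / (J : ℝ) < δ ^ 2 / (12 * (d * k : ℕ)) :=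
    mid_log.eventually (gt_mem_nhds (by push_cast; positivity))
  filter_upwards [hev, eventually_ge_atTop (d * k), eventually_ge_atTop 3,
    eventually_ge_atTop ⌈2 * C / ε⌉₊] with J hJ1 hJ2 hJ3 hJ4
  have hJR : (3 : ℝ) ≤ J := by exact_mod_cast hJ3
  have hJ0 : (0 : ℝ) < J := by linarith
  have hdk : 1 ≤ d * k := Nat.mul_pos (by omega) (by omega)
  have hdJ : d ≤ J := (Nat.le_mul_of_pos_right d (by omega)).trans hJ2
  have hJ4R : 2 * C / ε ≤ J := (Nat.le_ceil _).trans (by exact_mod_cast hJ4)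
  set t := J / d with ht
  set U := 2 ^ (J / (d * k)) with hU
  set L := J ^ 2 + 3 with hL
  have hr := mid_ratio J (d * k) hdk hJ2 hJ3
  have hr2 : Real.log (L : ℝ) / Real.log (U : ℝ) < δ ^ 2 := by
    refine hr.trans_lt ?_
    have h1 : (0 : ℝ) < 12 * (d * k : ℕ) := by
      have : (1 : ℝ) ≤ (d * k : ℕ) := by exact_mod_cast hdk
      linarith
    rw [lt_div_iff₀ h1] at hJ1
    linarith
  have hLR : (3 : ℝ) ≤ (L : ℝ) := by
    exact_mod_cast (by omega : 3 ≤ L)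
  have hUlog : 0 < Real.log (U : ℝ) := by
    apply Real.log_pos
    have h1 : 1 ≤ J / (d * k) := (Nat.le_div_iff_mul_le (by omega)).2 (by omega)
    have h2 : 2 ≤ U := Nat.le_self_pow (by omega) 2
    exact_mod_cast (by omega : 1 < U)
  have hLU : L ≤ U := by
    have h1 : Real.log (L : ℝ) / Real.log (U : ℝ) < 1 := by
      refine hr2.trans_le ?_
      nlinarith
    rw [div_lt_one hUlog] at h1
    have h2 : (0 : ℝ) < U := by positivity
    have h3 := (Real.log_lt_log_iff (by linarith) h2).1 h1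
    exact_mod_cast h3.le
  have hUk : U ^ k ≤ 2 ^ t := by
    rw [hU, ← pow_mul]
    apply Nat.pow_le_pow_right (by norm_num)
    rw [← Nat.div_div_eq_div_mul]
    exact Nat.div_mul_le_self _ _
  have ht1 : 1 ≤ t := (Nat.le_div_iff_mul_le (by omega)).2 (by omega)
  have htR : (J : ℝ) / (2 * d) ≤ t := mid_div J d hd hdJ
  have htR1 : (1 : ℝ) ≤ t := by exact_mod_cast ht1
  have h1 : Cnt (2 ^ J) (fun n q => 2 ^ t ≤ q ∧ q < 2 ^ (J - t) ∧ BadP n q) ≤
      ∑ a ∈ Ico t (J - t), Cnt (2 ^ J) (fun n q => 2 ^ a ≤ q ∧ q < 2 ^ (a + 1) ∧ BadP n q) := by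
    apply Cnt_sum (2 ^ J) _ _ (fun a n q => 2 ^ a ≤ q ∧ q < 2 ^ (a + 1) ∧ BadP n q)
    intro n q _ _ hq
    have hq0 : q ≠ 0 := hq.2.2.1.ne_zero
    refine ⟨Nat.log 2 q, mem_Ico.2 ⟨Nat.le_log_of_pow_le one_lt_two hq.1,
      Nat.log_lt_of_lt_pow hq0 hq.2.1⟩, Nat.pow_log_le_self 2 hq0,
      Nat.lt_pow_succ_log_self one_lt_two q, hq.2.2⟩
  set S := Real.sqrt (Real.log (L : ℝ) / Real.log (U : ℝ)) with hS
  have hS0 : 0 ≤ S := Real.sqrt_nonneg _
  have hSδ : S ≤ δ := by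
    rw [hS]
    apply Real.sqrt_le_iff.2
    exact ⟨hδ0.le, hr2.le⟩
  have h2 : ∀ a ∈ Ico t (J - t),
      Cnt (2 ^ J) (fun n q => 2 ^ a ≤ q ∧ q < 2 ^ (a + 1) ∧ BadP n q) ≤
        C * 2 ^ J * (1 / J ^ 2 + 2 * d / J * δ) := by
    intro a ha
    rw [mem_Ico] at ha
    have h3 := hb L U a (J - a) (by omega) hLU
      (hUk.trans (Nat.pow_le_pow_right (by norm_num) (by omega)))
      (hUk.trans (Nat.pow_le_pow_right (by norm_num) ha.1))
    rw [show a + (J - a) = J by omega] at h3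
    refine h3.trans ?_
    apply mul_le_mul_of_nonneg_left _ (by positivity)
    have h4 : (1 : ℝ) / L ≤ 1 / J ^ 2 := by
      apply one_div_le_one_div_of_le (by positivity)
      rw [hL]
      push_cast
      linarith
    have haR : (t : ℝ) ≤ a := by exact_mod_cast ha.1
    have h5 : (1 : ℝ) / a ≤ 2 * d / J := by
      have h6 : (J : ℝ) / (2 * d) ≤ a := htR.trans haR
      have h7 : (0 : ℝ) < J / (2 * d) := by positivity
      have h8 := one_div_le_one_div_of_le h7 h6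
      rwa [one_div_div] at h8
    have h6 : (1 : ℝ) / a * S ≤ 2 * d / J * δ := mul_le_mul h5 hSδ hS0 (by positivity)
    linarith
  refine h1.trans ((sum_le_sum h2).trans ?_)
  rw [sum_const, nsmul_eq_mul, Nat.card_Ico]
  have h3 : ((J - t - t : ℕ) : ℝ) ≤ J := by exact_mod_cast (by omega : J - t - t ≤ J)
  have h4 : C * (1 / J) ≤ ε / 2 := by
    rw [mul_one_div, div_le_iff₀ hJ0]
    rw [div_le_iff₀ hε] at hJ4R
    linarith
  have h5 : C * (2 * d * δ) ≤ ε / 2 := by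
    calc C * (2 * d * δ) ≤ C * (2 * d * (ε / (4 * d * C))) := by
          apply mul_le_mul_of_nonneg_left _ hC.le
          exact mul_le_mul_of_nonneg_left hδ2 (by positivity)
      _ = ε / 2 := by
        field_simp
        norm_num
  calc ((J - t - t : ℕ) : ℝ) * (C * 2 ^ J * (1 / J ^ 2 + 2 * d / J * δ))
      ≤ J * (C * 2 ^ J * (1 / J ^ 2 + 2 * d / J * δ)) :=
        mul_le_mul_of_nonneg_right h3 (by positivity)
    _ = (C * (1 / J) + C * (2 * d * δ)) * 2 ^ J := by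
      field_simp
    _ ≤ ε * 2 ^ J := by
      apply mul_le_mul_of_nonneg_right _ (by positivity)
      linarith

end Pool.Agent.H12.FO.Mid
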