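import Pool.Agent.H12.FO.Rcp

/-!
PROJECT FO, Trv: the bad primes `q ≥ 2 ^ (J - J / d)` (trivial bound: three residue classes).
-/

set_option autoImplicit false

namespace Pool.Agent.H12.FO

open Finset Filter Topology
open Pool.Agent.H37.PPC (pr mem_pr)

private theorem trv_class (N q r : ℕ) :
    ((range N).filter (fun n => n % q = r)).card ≤ N / q + 1 := by
  refine (card_le_card_of_injOn (t := range (N / q + 1)) (fun n => n / q) ?_ ?_).trans
    (by rw [card_range])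
  · intro n hn
    simp only [coe_filter, mem_range, Set.mem_ofPred_eq] at hn
    simp only [coe_range, Set.mem_Iio]
    exact Nat.lt_succ_of_le (Nat.div_le_div_right hn.1.le)
  · intro n hn m hm h
    simp only [coe_filter, mem_range, Set.mem_ofPred_eq] at hn hm
    simp only at h
    rw [← Nat.div_add_mod n q, ← Nat.div_add_mod m q, h, hn.2, hm.2]

private theorem trv_one (N q : ℕ) (hq : q.Prime) :
    Cnt N (fun n q' => q' = q ∧ BadP n q') ≤ 3 * ((N / q : ℕ) + 1) := by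
  classical
  have hsub : (Ico 2 N).filter (fun n => ∃ q', q' = q ∧ BadP n q') ⊆
      ((range N).filter (fun n => n % q = 0)) ∪ (((range N).filter (fun n => n % q = 1)) ∪
      ((range N).filter (fun n => n % q = q - 1))) := by
    intro n hn
    rw [mem_filter, mem_Ico] at hn
    obtain ⟨⟨h2, h3⟩, q', hqq, hB⟩ := hn
    rw [hqq] at hB
    have hr : n ∈ range N := mem_range.2 h3
    rcases three n q hq (by omega) hB.2.2.1 with h4 | h4 | h4
    · exact mem_union_left _ (mem_filter.2 ⟨hr, h4⟩)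
    · exact mem_union_right _ (mem_union_left _ (mem_filter.2 ⟨hr, h4⟩))
    · exact mem_union_right _ (mem_union_right _ (mem_filter.2 ⟨hr, h4⟩))
  have h1 := (card_le_card hsub).trans (card_union_le _ _)
  have h2 := card_union_le ((range N).filter (fun n => n % q = 1))
    ((range N).filter (fun n => n % q = q - 1))
  have e0 := trv_class N q 0
  have e1 := trv_class N q 1
  have e2 := trv_class N q (q - 1)
  have h3 : ((Ico 2 N).filter (fun n => ∃ q', q' = q ∧ BadP n q')).card ≤ 3 * (N / q + 1) := by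
    omega
  have e : Cnt N (fun n q' => q' = q ∧ BadP n q') =
      (((Ico 2 N).filter (fun n => ∃ q', q' = q ∧ BadP n q')).card : ℝ) := by
    unfold Cnt
    congr
  rw [e]
  exact_mod_cast h3

private theorem trv_dyad (J a : ℕ) (ha : 1 ≤ a) (haJ : a < J) :
    Cnt (2 ^ J) (fun n q => (2 ^ a ≤ q ∧ q < 2 ^ (a + 1)) ∧ BadP n q) ≤ 24 * 2 ^ J / a := by
  have haR : (0 : ℝ) < a := by exact_mod_cast ha
  have h1 : Cnt (2 ^ J) (fun n q => (2 ^ a ≤ q ∧ q < 2 ^ (a + 1)) ∧ BadP n q) ≤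
      ∑ q ∈ pr (2 ^ a) (2 ^ (a + 1)), Cnt (2 ^ J) (fun n q' => q' = q ∧ BadP n q') := by
    apply Cnt_sum (2 ^ J) _ _ (fun q n q' => q' = q ∧ BadP n q')
    intro n q _ _ hq
    exact ⟨q, mem_pr.2 ⟨hq.1, hq.2.1⟩, rfl, hq.2⟩
  have h2 : ∀ q ∈ pr (2 ^ a) (2 ^ (a + 1)), Cnt (2 ^ J) (fun n q' => q' = q ∧ BadP n q') ≤
      6 * 2 ^ J / 2 ^ a := by
    intro q hq
    rw [mem_pr] at hq
    refine (trv_one (2 ^ J) q hq.2).trans ?_
    have h3 : 2 ^ J / q ≤ 2 ^ J / 2 ^ a := Nat.div_le_div_left hq.1.1 (by positivity)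
    have h4 : (2 : ℕ) ^ J / 2 ^ a = 2 ^ (J - a) := Nat.pow_div haJ.le (by norm_num)
    have h5 : 2 ^ J / q + 1 ≤ 2 * 2 ^ (J - a) := by
      have : 1 ≤ 2 ^ (J - a) := Nat.one_le_two_pow
      omega
    have h6 : (((2 ^ J / q : ℕ) : ℝ) + 1) ≤ 2 * 2 ^ (J - a) := by exact_mod_cast h5
    have h7 : (6 : ℝ) * 2 ^ J / 2 ^ a = 6 * 2 ^ (J - a) := by
      rw [div_eq_iff (by positivity), mul_assoc, ← pow_add]
      congr 2
      omega
    rw [h7]
    linarith
  refine h1.trans ((sum_le_sum h2).trans ?_)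
  rw [sum_const, nsmul_eq_mul]
  have h3 := dyad a ha
  calc ((pr (2 ^ a) (2 ^ (a + 1))).card : ℝ) * (6 * 2 ^ J / 2 ^ a)
      ≤ 4 * 2 ^ a / a * (6 * 2 ^ J / 2 ^ a) := mul_le_mul_of_nonneg_right h3 (by positivity)
    _ = 24 * 2 ^ J / a := by
      field_simp
      norm_num

theorem trv_u : ∃ C : ℝ, 0 < C ∧ ∀ J d : ℕ, 2 ≤ d → d ≤ J →
    Cnt (2 ^ J) (fun n q => 2 ^ (J - J / d) ≤ q ∧ BadP n q) ≤ C / d * 2 ^ J := by
  refine ⟨48, by norm_num, ?_⟩
  intro J d hd hdJ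
  have hJ : 1 ≤ J := by omega
  have hdR : (2 : ℝ) ≤ d := by exact_mod_cast hd
  have hJR : (1 : ℝ) ≤ J := by exact_mod_cast hJ
  have ht : J / d * 2 ≤ J := (Nat.mul_le_mul_left _ hd).trans (Nat.div_mul_le_self _ _)
  have h1 : Cnt (2 ^ J) (fun n q => 2 ^ (J - J / d) ≤ q ∧ BadP n q) ≤
      ∑ a ∈ Ico (J - J / d) J,
        Cnt (2 ^ J) (fun n q => (2 ^ a ≤ q ∧ q < 2 ^ (a + 1)) ∧ BadP n q) := by
    apply Cnt_sum (2 ^ J) _ _ (fun a n q => (2 ^ a ≤ q ∧ q < 2 ^ (a + 1)) ∧ BadP n q)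
    intro n q hn hnJ hq
    obtain ⟨hq1, hB⟩ := hq
    have hqp := hB.1
    have hq2 := hB.2.1
    have hdvd := hB.2.2.1
    have hle : q ≤ n + 1 := by
      rcases (Nat.Prime.dvd_mul hqp).1 hdvd with h | h
      · rcases (Nat.Prime.dvd_mul hqp).1 h with h | h
        · have := Nat.le_of_dvd (by omega) h
          omega
        · exact Nat.le_of_dvd (by omega) h
      · have := Nat.le_of_dvd (by omega) h
        omega
    have hne : q ≠ 2 ^ J := by
      intro h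
      apply hq2
      have h2 : (2 : ℕ) ∣ q := by
        rw [h]
        exact dvd_pow_self 2 (by omega)
      exact ((Nat.prime_dvd_prime_iff_eq Nat.prime_two hqp).1 h2).symm
    have hlt : q < 2 ^ J := by omega
    have hq0 : q ≠ 0 := hqp.ne_zero
    refine ⟨Nat.log 2 q, mem_Ico.2 ⟨?_, ?_⟩, ⟨Nat.pow_log_le_self 2 hq0,
      Nat.lt_pow_succ_log_self one_lt_two q⟩, hB⟩
    · exact Nat.le_log_of_pow_le one_lt_two hq1
    · exact Nat.log_lt_of_lt_pow hq0 hlt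
  have h2 : ∀ a ∈ Ico (J - J / d) J,
      Cnt (2 ^ J) (fun n q => (2 ^ a ≤ q ∧ q < 2 ^ (a + 1)) ∧ BadP n q) ≤ 48 / J * 2 ^ J := by
    intro a ha
    rw [mem_Ico] at ha
    have ha1 : J ≤ 2 * a := by omega
    have haR : (J : ℝ) ≤ 2 * a := by exact_mod_cast ha1
    have ha0 : (0 : ℝ) < a := by linarith
    refine (trv_dyad J a (by omega) ha.2).trans ?_
    rw [div_mul_eq_mul_div, div_le_div_iff₀ ha0 (by linarith)]
    have h3 : (0 : ℝ) < 2 ^ J := by positivity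
    nlinarith
  refine h1.trans ((sum_le_sum h2).trans ?_)
  rw [sum_const, nsmul_eq_mul, Nat.card_Ico]
  have h3 : J - (J - J / d) = J / d := by omega
  rw [h3]
  have h4 : ((J / d : ℕ) : ℝ) ≤ J / d := Nat.cast_div_le
  calc ((J / d : ℕ) : ℝ) * (48 / J * 2 ^ J) ≤ (J / d : ℝ) * (48 / J * 2 ^ J) :=
        mul_le_mul_of_nonneg_right h4 (by positivity)
    _ = 48 / d * 2 ^ J := by
      field_simp

theorem trv : ∃ C : ℝ, 0 < C ∧ ∀ d : ℕ, 2 ≤ d → ∀ᶠ J : ℕ in atTop,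
    Cnt (2 ^ J) (fun n q => 2 ^ (J - J / d) ≤ q ∧ BadP n q) ≤ C / d * 2 ^ J := by
  obtain ⟨C, hC, h⟩ := trv_u
  refine ⟨C, hC, fun d hd => ?_⟩
  filter_upwards [eventually_ge_atTop d] with J hJ
  exact h J d hd hJ

end Pool.Agent.H12.FO
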