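import Pool.Agent.H12.FO.Sml
import Pool.Agent.H12.FO.Mid
import Pool.Agent.H12.FO.Trv

/-!
PROJECT FO, module Asm: the assembly.
-/

set_option autoImplicit false

namespace Pool.Agent.H12.FO.AsmP

open Finset Filter Topology
open Pool.Agent.H12.FO Pool.Agent.H12.FO.Sml Pool.Agent.H12.FO.Mid

theorem log_tendsto : Tendsto (fun x : ℕ => Nat.log 2 x + 1) atTop atTop := by
  refine tendsto_atTop.2 fun b => ?_
  filter_upwards [eventually_ge_atTop (2 ^ b)] with x hx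
  have h := Nat.le_log_of_pow_le one_lt_two hx
  omega

theorem bad_eventually (ε : ℝ) (hε : 0 < ε) : ∀ᶠ x : ℕ in atTop, ∀ S : Finset ℕ,
    (∀ n ∈ S, 2 ≤ n ∧ n ≤ x ∧ ∃ q, BadP n q) → (S.card : ℝ) ≤ ε * x := by
  classical
  obtain ⟨C1, hC1, h1⟩ := sml
  obtain ⟨C2, hC2, h2⟩ := trv
  obtain ⟨d, hd⟩ := exists_nat_gt (max 2 (max ((6 * C1 / ε) ^ 2) (6 * C2 / ε)))
  have hd2 : (2 : ℝ) < d := lt_of_le_of_lt (le_max_left _ _) hd
  have hd3 : (6 * C1 / ε) ^ 2 < d :=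
    lt_of_le_of_lt (le_trans (le_max_left _ _) (le_max_right _ _)) hd
  have hd4 : 6 * C2 / ε < d :=
    lt_of_le_of_lt (le_trans (le_max_right _ _) (le_max_right _ _)) hd
  have hdn : 2 ≤ d := by exact_mod_cast hd2.le
  have hdpos : (0 : ℝ) < d := by linarith
  have hs : 6 * C1 / ε < Real.sqrt d := by
    rw [Real.lt_sqrt (by positivity)]
    exact hd3
  have hsp : 0 < Real.sqrt d := Real.sqrt_pos.2 hdpos
  have e1 : C1 / Real.sqrt d ≤ ε / 6 := by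
    rw [div_le_iff₀ hsp]
    have h := (div_lt_iff₀ hε).1 hs
    linarith
  have e2 : C2 / d ≤ ε / 6 := by
    rw [div_le_iff₀ hdpos]
    have h := (div_lt_iff₀ hε).1 hd4
    linarith
  filter_upwards [log_tendsto.eventually (h1 d (by omega)),
    log_tendsto.eventually (mid d (by omega) (ε / 6) (by positivity)),
    log_tendsto.eventually (h2 d hdn), eventually_ge_atTop 1] with x hx1 hx2 hx3 hx S hS
  have hlt : x < 2 ^ (Nat.log 2 x + 1) := Nat.lt_pow_succ_log_self one_lt_two x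
  have hle : 2 ^ (Nat.log 2 x + 1) ≤ 2 * x := by
    have h := Nat.pow_log_le_self 2 (show x ≠ 0 by omega)
    rw [pow_succ]
    omega
  generalize Nat.log 2 x + 1 = J at hx1 hx2 hx3 hlt hle
  have hc : (S.card : ℝ) ≤ Cnt (2 ^ J) (fun n q => BadP n q) := by
    unfold Cnt
    rw [Nat.cast_le]
    refine card_le_card ?_
    intro n hn
    obtain ⟨a, b, c⟩ := hS n hn
    rw [mem_filter]
    exact ⟨mem_Ico.2 ⟨a, lt_of_le_of_lt b hlt⟩, c⟩
  have h3 : Cnt (2 ^ J) (fun n q => BadP n q) ≤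
      Cnt (2 ^ J) (fun n q => q < 2 ^ (J / d) ∧ BadP n q) +
        Cnt (2 ^ J) (fun n q => 2 ^ (J / d) ≤ q ∧ BadP n q) := by
    refine Cnt_or _ _ _ _ ?_
    intro n q _ _ h
    rcases lt_or_ge q (2 ^ (J / d)) with h' | h'
    · exact Or.inl ⟨h', h⟩
    · exact Or.inr ⟨h', h⟩
  have h4 : Cnt (2 ^ J) (fun n q => 2 ^ (J / d) ≤ q ∧ BadP n q) ≤
      Cnt (2 ^ J) (fun n q => 2 ^ (J / d) ≤ q ∧ q < 2 ^ (J - J / d) ∧ BadP n q) +
        Cnt (2 ^ J) (fun n q => 2 ^ (J - J / d) ≤ q ∧ BadP n q) := by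
    refine Cnt_or _ _ _ _ ?_
    intro n q _ _ h
    rcases lt_or_ge q (2 ^ (J - J / d)) with h' | h'
    · exact Or.inl ⟨h.1, h', h.2⟩
    · exact Or.inr ⟨h', h.2⟩
  have hle' : (2 : ℝ) ^ J ≤ 2 * x := by exact_mod_cast hle
  have hp : (0 : ℝ) ≤ 2 ^ J := by positivity
  have f1 := mul_le_mul_of_nonneg_right e1 hp
  have f2 := mul_le_mul_of_nonneg_right e2 hp
  have f3 : ε / 2 * 2 ^ J ≤ ε / 2 * (2 * x) := mul_le_mul_of_nonneg_left hle' (by positivity)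
  have f4 : ε / 2 * (2 * (x : ℝ)) = ε * x := by ring
  linarith

end Pool.Agent.H12.FO.AsmP
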