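import Pool.Agent.H12.FO.Sml
import Pool.Agent.H12.FO.Trv
import Pool.Agent.H80.FO.MidU

/-!
PROJECT FO, module Asm with a rate.
-/

set_option autoImplicit false

namespace Pool.Agent.H12.FO.AsmR

open Finset
open Pool.Agent.H12.FO Pool.Agent.H12.FO.Sml Pool.Agent.H80.FO

/-- the elementary inequalities: `d = ⌊√J⌋`, `u⁴ = J` -/
theorem ineqs (J : ℕ) (hJ : 5 ≤ J) :
    2 ≤ Nat.sqrt J ∧ Nat.sqrt J ≤ J ∧ 1 ≤ Real.log J ∧
    1 / Real.sqrt (Nat.sqrt J : ℕ) ≤ 2 / Real.sqrt (Real.sqrt J) ∧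
    1 / (Nat.sqrt J : ℝ) ≤ 2 / Real.sqrt (Real.sqrt J) ∧
    Real.sqrt ((Nat.sqrt J : ℕ) * Real.log J / J) ≤ Real.log J / Real.sqrt (Real.sqrt J) ∧
    Real.sqrt (Real.log J / J) ≤ 2 / Real.sqrt (Real.sqrt J) := by
  have h2 : 2 ≤ Nat.sqrt J := by
    rw [Nat.le_sqrt]
    omega
  have hle : Nat.sqrt J ≤ J := Nat.sqrt_le_self J
  have hJr : (5 : ℝ) ≤ J := by exact_mod_cast hJ
  have hJ0 : (0 : ℝ) < J := by linarith
  have hlog : 1 ≤ Real.log J := by
    rw [Real.le_log_iff_exp_le hJ0]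
    have := Real.exp_one_lt_d9
    linarith
  generalize hd : Nat.sqrt J = d at h2 hle ⊢
  have hd2 : (2 : ℝ) ≤ d := by exact_mod_cast h2
  have hd0 : (0 : ℝ) < d := by linarith
  have hsq1 : (d : ℝ) ≤ Real.sqrt J := by
    refine Real.le_sqrt_of_sq_le ?_
    have h : d * d ≤ J := by rw [← hd]; exact Nat.sqrt_le J
    rw [sq]
    exact_mod_cast h
  have hsq2 : Real.sqrt J ≤ d + 1 := by
    refine Real.sqrt_le_iff.2 ⟨by positivity, ?_⟩
    have h : J < (d + 1) * (d + 1) := by rw [← hd]; exact Nat.lt_succ_sqrt J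
    have h' : (J : ℝ) < (d + 1) * (d + 1) := by exact_mod_cast h
    rw [sq]
    exact h'.le
  have hs1 : 1 ≤ Real.sqrt J := by linarith
  have hs0 : 0 < Real.sqrt J := by linarith
  have hss : Real.sqrt J * Real.sqrt J = J := Real.mul_self_sqrt hJ0.le
  have hu0 : 0 < Real.sqrt (Real.sqrt J) := Real.sqrt_pos.2 hs0
  have hu1 : 1 ≤ Real.sqrt (Real.sqrt J) := by
    rw [show (1 : ℝ) = Real.sqrt 1 by simp]
    exact Real.sqrt_le_sqrt (by simpa using hs1)
  have huu : Real.sqrt (Real.sqrt J) * Real.sqrt (Real.sqrt J) = Real.sqrt J :=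
    Real.mul_self_sqrt hs0.le
  have hus : Real.sqrt (Real.sqrt J) ≤ Real.sqrt J := by nlinarith
  have hlogs : Real.log J ≤ 4 * Real.sqrt J := by
    have h := Real.log_le_sub_one_of_pos hs0
    have h' : Real.log J = 2 * Real.log (Real.sqrt J) := by
      rw [Real.log_sqrt hJ0.le]
      ring
    rw [h']
    linarith
  refine ⟨h2, hle, hlog, ?_, ?_, ?_, ?_⟩
  · have hsd : 0 < Real.sqrt d := Real.sqrt_pos.2 hd0
    rw [div_le_div_iff₀ hsd hu0]
    have h : Real.sqrt (Real.sqrt J) ≤ Real.sqrt (4 * d) := Real.sqrt_le_sqrt (by linarith)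
    have h' : Real.sqrt (4 * d) = 2 * Real.sqrt d := by
      rw [Real.sqrt_mul (by norm_num), show (4 : ℝ) = 2 ^ 2 by norm_num,
        Real.sqrt_sq (by norm_num)]
    linarith
  · rw [div_le_div_iff₀ hd0 hu0]
    linarith
  · refine Real.sqrt_le_iff.2 ⟨by positivity, ?_⟩
    have h1 : (Real.log J / Real.sqrt (Real.sqrt J)) ^ 2 = Real.log J ^ 2 / Real.sqrt J := by
      rw [div_pow, sq (Real.sqrt (Real.sqrt J)), huu]
    rw [h1, div_le_div_iff₀ hJ0 hs0]
    have e1 : (d : ℝ) * Real.log J * Real.sqrt J ≤ Real.sqrt J * Real.log J * Real.sqrt J := by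
      gcongr
    have e2 : Real.sqrt J * Real.log J * Real.sqrt J = Real.log J * J := by
      rw [mul_comm (Real.sqrt J) (Real.log J), mul_assoc, hss]
    have e3 : Real.log J * J ≤ Real.log J ^ 2 * J := by
      have : Real.log J ≤ Real.log J ^ 2 := by nlinarith
      gcongr
    linarith
  · refine Real.sqrt_le_iff.2 ⟨by positivity, ?_⟩
    have h1 : (2 / Real.sqrt (Real.sqrt J)) ^ 2 = 4 / Real.sqrt J := by
      rw [div_pow, sq (Real.sqrt (Real.sqrt J)), huu]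
      norm_num
    rw [h1, div_le_div_iff₀ hJ0 hs0]
    have e2 : 4 * Real.sqrt J * Real.sqrt J = 4 * J := by rw [mul_assoc, hss]
    have e1 : Real.log J * Real.sqrt J ≤ 4 * Real.sqrt J * Real.sqrt J := by gcongr
    linarith

theorem bad_rate : ∃ C : ℝ, 0 < C ∧ ∀ x : ℕ, 16 ≤ x → ∀ S : Finset ℕ,
    (∀ n ∈ S, 2 ≤ n ∧ n ≤ x ∧ ∃ q, BadP n q) →
    (S.card : ℝ) ≤ C * x * Real.log (Real.log x) / (Real.log x) ^ (1 / 4 : ℝ) := by
  classical
  obtain ⟨C1, hC1, h1⟩ := sml_u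
  obtain ⟨C2, hC2, h2⟩ := mid_u
  obtain ⟨C3, hC3, h3⟩ := trv_u
  refine ⟨6 * (4 * C1 + C2 + 2 * C3), by positivity, ?_⟩
  intro x hx S hS
  have hx0 : (0 : ℝ) < x := by
    have : (16 : ℝ) ≤ x := by exact_mod_cast hx
    linarith
  have hl4 : 4 ≤ Nat.log 2 x := Nat.le_log_of_pow_le one_lt_two (by norm_num; exact hx)
  have hlt : x < 2 ^ (Nat.log 2 x + 1) := Nat.lt_pow_succ_log_self one_lt_two x
  have hge : 2 ^ (Nat.log 2 x) ≤ x := Nat.pow_log_le_self 2 (by omega)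
  have hle : 2 ^ (Nat.log 2 x + 1) ≤ 2 * x := by
    rw [pow_succ]
    omega
  have hJL : ((Nat.log 2 x + 1 : ℕ) : ℝ) ≤ 3 * Real.log x := by
    have e : Real.log ((2 : ℝ) ^ Nat.log 2 x) ≤ Real.log x := by
      refine Real.log_le_log (by positivity) ?_
      exact_mod_cast hge
    rw [Real.log_pow] at e
    have e2 := Real.log_two_gt_d9
    have e4 : (4 : ℝ) ≤ (Nat.log 2 x : ℝ) := by exact_mod_cast hl4
    push_cast
    nlinarith
  generalize Nat.log 2 x + 1 = J at hlt hle hJL ⊢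
  have hJ5 : 5 ≤ J := by
    by_contra hc
    have hJ4 : J ≤ 4 := by omega
    have : 2 ^ J ≤ 2 ^ 4 := Nat.pow_le_pow_right (by norm_num) hJ4
    omega
  obtain ⟨hd2, hdJ, hlog1, i1, i2, i3, i4⟩ := ineqs J hJ5
  have hJr : (5 : ℝ) ≤ J := by exact_mod_cast hJ5
  have hLJ : Real.log x ≤ J := by
    have e : Real.log x ≤ Real.log ((2 : ℝ) ^ J) := by
      refine Real.log_le_log hx0 ?_
      exact_mod_cast hlt.le
    rw [Real.log_pow] at e
    have e2 := Real.log_two_lt_d9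
    nlinarith
  have hL : (2.7 : ℝ) ≤ Real.log x := by
    have e : Real.log ((2 : ℝ) ^ 4) ≤ Real.log x := by
      refine Real.log_le_log (by positivity) ?_
      have : (16 : ℝ) ≤ x := by exact_mod_cast hx
      linarith
    rw [Real.log_pow] at e
    have e2 := Real.log_two_gt_d9
    push_cast at e
    linarith
  have hlogJ : Real.log J ≤ 3 * Real.log (Real.log x) := by
    have e : Real.log J ≤ Real.log (Real.log x ^ 3) := by
      refine Real.log_le_log (by linarith) ?_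
      have h9 : 3 ≤ Real.log x * Real.log x := by nlinarith
      have h8 : Real.log x ^ 3 = Real.log x * (Real.log x * Real.log x) := by ring
      rw [h8]
      nlinarith
    rw [Real.log_pow] at e
    exact_mod_cast e
  have hv : Real.log x ^ (1 / 4 : ℝ) ≤ Real.sqrt (Real.sqrt J) := by
    have e : Real.log x ^ (1 / 4 : ℝ) = Real.sqrt (Real.sqrt (Real.log x)) := by
      rw [Real.sqrt_eq_rpow, Real.sqrt_eq_rpow, ← Real.rpow_mul (by linarith)]
      norm_num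
    rw [e]
    exact Real.sqrt_le_sqrt (Real.sqrt_le_sqrt hLJ)
  have hv0 : 0 < Real.log x ^ (1 / 4 : ℝ) := Real.rpow_pos_of_pos (by linarith) _
  -- counting
  have hc : (S.card : ℝ) ≤ Cnt (2 ^ J) (fun n q => BadP n q) := by
    unfold Cnt
    rw [Nat.cast_le]
    refine card_le_card ?_
    intro n hn
    obtain ⟨a, b, c⟩ := hS n hn
    rw [mem_filter]
    exact ⟨mem_Ico.2 ⟨a, lt_of_le_of_lt b hlt⟩, c⟩
  generalize Nat.sqrt J = d at hd2 hdJ i1 i2 i3
  have g3 : Cnt (2 ^ J) (fun n q => BadP n q) ≤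
      Cnt (2 ^ J) (fun n q => q < 2 ^ (J / d) ∧ BadP n q) +
        Cnt (2 ^ J) (fun n q => 2 ^ (J / d) ≤ q ∧ BadP n q) := by
    refine Cnt_or _ _ _ _ ?_
    intro n q _ _ h
    rcases lt_or_ge q (2 ^ (J / d)) with h' | h'
    · exact Or.inl ⟨h', h⟩
    · exact Or.inr ⟨h', h⟩
  have g4 : Cnt (2 ^ J) (fun n q => 2 ^ (J / d) ≤ q ∧ BadP n q) ≤
      Cnt (2 ^ J) (fun n q => 2 ^ (J / d) ≤ q ∧ q < 2 ^ (J - J / d) ∧ BadP n q) +
        Cnt (2 ^ J) (fun n q => 2 ^ (J - J / d) ≤ q ∧ BadP n q) := by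
    refine Cnt_or _ _ _ _ ?_
    intro n q _ _ h
    rcases lt_or_ge q (2 ^ (J - J / d)) with h' | h'
    · exact Or.inl ⟨h.1, h', h.2⟩
    · exact Or.inr ⟨h', h.2⟩
  have k1 := h1 J d (by omega) hdJ (by omega)
  have k2 := h2 J d (by omega) hdJ (by omega)
  have k3 := h3 J d hd2 hdJ
  have hle' : (2 : ℝ) ^ J ≤ 2 * x := by exact_mod_cast hle
  have hp : (0 : ℝ) ≤ 2 ^ J := by positivity
  have hu0 : 0 < Real.sqrt (Real.sqrt J) := lt_of_lt_of_le hv0 hv
  generalize Real.sqrt (Real.sqrt J) = u at *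
  have hlu : 1 / u ≤ Real.log J / u := by gcongr
  have m1 : 1 / Real.sqrt d + Real.log J * Real.sqrt (Real.log J / J) ≤
      4 * (Real.log J / u) := by
    have e : Real.log J * Real.sqrt (Real.log J / J) ≤ Real.log J * (2 / u) := by gcongr
    have e' : Real.log J * (2 / u) = 2 * (Real.log J / u) := by ring
    have e'' : 2 / u = 2 * (1 / u) := by ring
    linarith
  have m3 : 1 / (d : ℝ) ≤ 2 * (Real.log J / u) := by
    have e'' : 2 / u = 2 * (1 / u) := by ring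
    linarith
  have n1 : C1 * 2 ^ J * (1 / Real.sqrt d + Real.log J * Real.sqrt (Real.log J / J)) ≤
      C1 * 2 ^ J * (4 * (Real.log J / u)) := by gcongr
  have n2 : C2 * 2 ^ J * Real.sqrt (d * Real.log J / J) ≤ C2 * 2 ^ J * (Real.log J / u) := by
    gcongr
  have n3 : C3 / d * 2 ^ J ≤ C3 * 2 ^ J * (2 * (Real.log J / u)) := by
    have e : C3 / d * 2 ^ J = C3 * 2 ^ J * (1 / d) := by ring
    rw [e]
    gcongr
  have tot : (S.card : ℝ) ≤ (4 * C1 + C2 + 2 * C3) * (Real.log J / u) * 2 ^ J := by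
    have e : (4 * C1 + C2 + 2 * C3) * (Real.log J / u) * 2 ^ J =
        C1 * 2 ^ J * (4 * (Real.log J / u)) + C2 * 2 ^ J * (Real.log J / u) +
          C3 * 2 ^ J * (2 * (Real.log J / u)) := by ring
    rw [e]
    linarith
  have hq : Real.log J / u ≤ 3 * Real.log (Real.log x) / Real.log x ^ (1 / 4 : ℝ) := by
    have hll : 0 ≤ 3 * Real.log (Real.log x) := by linarith
    calc Real.log J / u ≤ 3 * Real.log (Real.log x) / u := by gcongr
      _ ≤ 3 * Real.log (Real.log x) / Real.log x ^ (1 / 4 : ℝ) := by gcongr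
  have hq0 : 0 ≤ Real.log J / u := by positivity
  calc (S.card : ℝ) ≤ (4 * C1 + C2 + 2 * C3) * (Real.log J / u) * 2 ^ J := tot
    _ ≤ (4 * C1 + C2 + 2 * C3) * (3 * Real.log (Real.log x) / Real.log x ^ (1 / 4 : ℝ)) *
        (2 * x) := by
      have hq1 : 0 ≤ 3 * Real.log (Real.log x) / Real.log x ^ (1 / 4 : ℝ) := le_trans hq0 hq
      gcongr
    _ = 6 * (4 * C1 + C2 + 2 * C3) * x * Real.log (Real.log x) /
        Real.log x ^ (1 / 4 : ℝ) := by ring

end Pool.Agent.H12.FO.AsmR
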