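import Pool.Agent.H12.FO.Defs
import Pool.Agent.H37.PPC.Mt

/-!
FO Mas: the mass of the nonresidues, from an upper bound for `FS`.
-/

set_option autoImplicit false

namespace Pool.Agent.H12.FO

open Finset
open Pool.Agent.H37.PPC (pr mem_pr)

theorem jac_pm {s : ℤ} (hs : s = 1 ∨ s = -1) {a p : ℕ} (hp : p.Prime) (hpa : ¬ p ∣ a) :
    jacobiSym (s * a) p = 1 ∨ jacobiSym (s * a) p = -1 := by
  rcases jacobiSym.trichotomy (s * a) p with h | h
  · exfalso
    have : NeZero p := ⟨hp.pos.ne'⟩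
    rw [jacobiSym.eq_zero_iff_not_coprime] at h
    apply h
    have h1 : (s * a : ℤ).natAbs = a := by
      rcases hs with h | h <;> simp [h]
    rw [Int.gcd, h1, Int.natAbs_natCast, Nat.gcd_comm]
    exact (Nat.Prime.coprime_iff_not_dvd hp).2 hpa
  · exact h

theorem NR_sum {s : ℤ} (hs : s = 1 ∨ s = -1) {L U a : ℕ}
    (h : ∀ p ∈ pr L (U + 1), ¬ p ∣ a) :
    ∑ p ∈ NR s L U a, (1 : ℝ) / p =
      (1 / 2) * (∑ p ∈ pr L (U + 1), (1 : ℝ) / p) - (1 / 2) * FS s L U a := by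
  unfold NR FS
  rw [sum_filter, mul_sum, mul_sum, ← sum_sub_distrib]
  refine sum_congr rfl fun p hp => ?_
  rcases jac_pm hs (mem_pr.1 hp).2 (h p hp) with h1 | h1
  · rw [h1, if_neg (by norm_num)]
    push_cast
    ring
  · rw [h1, if_pos rfl]
    push_cast
    ring

theorem mass : ∃ C : ℝ, 0 < C ∧ ∀ (s : ℤ) (L U a : ℕ) (B : ℝ), (s = 1 ∨ s = -1) → 2 ≤ L → L ≤ U →
    (∀ p ∈ pr L (U + 1), ¬ p ∣ a) → FS s L U a ≤ B →
    Real.exp (-(∑ p ∈ NR s L U a, (1 : ℝ) / p)) ≤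
      C * Real.exp (B / 2) * Real.sqrt (Real.log L / Real.log U) := by
  obtain ⟨C, hC, hM⟩ := Pool.Agent.H37.PPC.mertens_two
  refine ⟨Real.exp (C / 2), Real.exp_pos _, ?_⟩
  intro s L U a B hs hL hLU h hB
  rw [NR_sum hs h]
  have h1 := hM L (U + 1) hL (by omega)
  rw [abs_le] at h1
  have hlL : 0 < Real.log L := Real.log_pos (by exact_mod_cast (by omega : 1 < L))
  have hlU : 0 < Real.log U := Real.log_pos (by exact_mod_cast (by omega : 1 < U))
  have hlU1 : Real.log U ≤ Real.log ((U + 1 : ℕ) : ℝ) := by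
    apply Real.log_le_log
    · exact_mod_cast (by omega : 0 < U)
    · push_cast; linarith
  have h2 : Real.log (Real.log U) ≤ Real.log (Real.log ((U + 1 : ℕ) : ℝ)) :=
    Real.log_le_log hlU hlU1
  have h3 : Real.sqrt (Real.log L / Real.log U) =
      Real.exp ((1 / 2) * (Real.log (Real.log L) - Real.log (Real.log U))) := by
    rw [Real.sqrt_eq_rpow, Real.rpow_def_of_pos (div_pos hlL hlU), Real.log_div hlL.ne' hlU.ne']
    congr 1
    ring
  rw [h3, ← Real.exp_add, ← Real.exp_add]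
  apply Real.exp_le_exp.2
  linarith [h1.1]

end Pool.Agent.H12.FO
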