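import Pool.Agent.H12.FO.Defs

/-!
PROJECT FO, module Mom: second moment of the sums of Legendre symbols.
-/

set_option autoImplicit false

namespace Pool.Agent.H12.FO

open Finset
open Pool.Agent.H37.PPC (pr mem_pr)

/-- sums of a function on `ZMod m` with sum zero over intervals -/
private theorem mom_interval {m : ℕ} [NeZero m] (F : ZMod m → ℝ) (h0 : ∑ x, F x = 0)
    (h1 : ∀ x, |F x| ≤ 1) (A B : ℕ) : |∑ n ∈ Ico A B, F (n : ZMod m)| ≤ m := by
  have hP : ∀ A : ℕ, ∑ n ∈ Ico A (A + m), F (n : ZMod m) = 0 := by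
    intro A
    induction A with
    | zero =>
      rw [zero_add, ← h0]
      refine Finset.sum_bij (fun n _ => (n : ZMod m)) (fun n _ => mem_univ _) ?_ ?_ (fun n _ => rfl)
      · intro n hn n' hn' h
        rw [mem_Ico] at hn hn'
        rw [ZMod.natCast_eq_natCast_iff'] at h
        rwa [Nat.mod_eq_of_lt hn.2, Nat.mod_eq_of_lt hn'.2] at h
      · intro x _
        exact ⟨x.val, mem_Ico.2 ⟨Nat.zero_le _, x.val_lt⟩, ZMod.natCast_zmod_val x⟩
    | succ A ih =>
      have hm : 0 < m := Nat.pos_of_ne_zero (NeZero.ne m)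
      have e1 : ∑ n ∈ Ico A (A + 1 + m), F (n : ZMod m) =
          F (A : ZMod m) + ∑ n ∈ Ico (A + 1) (A + 1 + m), F (n : ZMod m) :=
        Finset.sum_eq_sum_Ico_succ_bot (by omega) _
      have e2 : ∑ n ∈ Ico A (A + m + 1), F (n : ZMod m) =
          ∑ n ∈ Ico A (A + m), F (n : ZMod m) + F ((A + m : ℕ) : ZMod m) :=
        Finset.sum_Ico_succ_top (by omega) _
      have e3 : ((A + m : ℕ) : ZMod m) = (A : ZMod m) := by simp
      have e4 : A + 1 + m = A + m + 1 := by ring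
      rw [e4] at e1
      rw [e1, ih, e3, zero_add] at e2
      rw [e4]
      linarith
  have hI : ∀ d A B : ℕ, B - A = d → |∑ n ∈ Ico A B, F (n : ZMod m)| ≤ m := by
    intro d
    induction d using Nat.strong_induction_on with
    | _ d ih =>
      intro A B hd
      by_cases hdm : d < m
      · calc |∑ n ∈ Ico A B, F (n : ZMod m)| ≤ ∑ n ∈ Ico A B, |F (n : ZMod m)| :=
              Finset.abs_sum_le_sum_abs _ _
          _ ≤ ∑ n ∈ Ico A B, (1 : ℝ) := Finset.sum_le_sum fun n _ => h1 _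
          _ = (d : ℝ) := by simp [hd]
          _ ≤ m := by exact_mod_cast hdm.le
      · push Not at hdm
        have hm : 0 < m := Nat.pos_of_ne_zero (NeZero.ne m)
        have e1 := Finset.sum_Ico_consecutive (fun n : ℕ => F (n : ZMod m))
          (show A ≤ A + m by omega) (show A + m ≤ B by omega)
        rw [← e1, hP, zero_add]
        exact ih (B - (A + m)) (by omega) _ _ rfl
  exact hI _ A B rfl

theorem jac_sum (s : ℤ) (hs : s = 1 ∨ s = -1) (p p' : ℕ) (hp : p.Prime) (hp' : p'.Prime)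
    (h3 : 3 ≤ p) (h3' : 3 ≤ p') (hne : p ≠ p') (A B : ℕ) :
    |∑ n ∈ Ico A B, (jacobiSym (s * n) p : ℝ) * jacobiSym (s * n) p'| ≤ p * p' := by
  have : Fact p.Prime := ⟨hp⟩
  have : Fact p'.Prime := ⟨hp'⟩
  have : NeZero (p * p') := ⟨Nat.mul_ne_zero hp.ne_zero hp'.ne_zero⟩
  have hco : p.Coprime p' := (Nat.coprime_primes hp hp').2 hne
  have hsq : s * s = 1 := by rcases hs with rfl | rfl <;> norm_num
  have hsum : ∀ (r : ℕ) [Fact r.Prime], 3 ≤ r →
      ∑ x : ZMod r, (quadraticChar (ZMod r) ((s : ZMod r) * x) : ℝ) = 0 := by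
    intro r _ hr
    have hs' : (s : ZMod r) * (s : ZMod r) = 1 := by rw [← Int.cast_mul, hsq, Int.cast_one]
    have e1 : ∑ x : ZMod r, (quadraticChar (ZMod r) ((s : ZMod r) * x) : ℝ) =
        ∑ x : ZMod r, (quadraticChar (ZMod r) x : ℝ) := by
      refine Finset.sum_bij (fun x _ => (s : ZMod r) * x) (fun _ _ => mem_univ _) ?_ ?_
        (fun _ _ => rfl)
      · intro x _ y _ h
        have h2 := congrArg (fun z => (s : ZMod r) * z) h
        simpa [← mul_assoc, hs'] using h2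
      · intro y _
        exact ⟨(s : ZMod r) * y, mem_univ _, by rw [← mul_assoc, hs', one_mul]⟩
    rw [e1]
    have h2 : ringChar (ZMod r) ≠ 2 := by
      rw [ZMod.ringChar_zmod_n]
      omega
    exact_mod_cast quadraticChar_sum_zero h2
  have hle : ∀ (r : ℕ) [Fact r.Prime] (x : ZMod r), |(quadraticChar (ZMod r) x : ℝ)| ≤ 1 := by
    intro r _ x
    rcases eq_or_ne x 0 with h | h
    · rw [h, quadraticChar_zero]
      simp
    · rcases quadraticChar_dichotomy h with h | h <;> rw [h] <;> simp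
  let e := ZMod.chineseRemainder hco
  let F : ZMod (p * p') → ℝ := fun x => (quadraticChar (ZMod p) ((s : ZMod p) * (e x).1) : ℝ) *
    (quadraticChar (ZMod p') ((s : ZMod p') * (e x).2) : ℝ)
  have hF : ∀ n : ℕ, (jacobiSym (s * n) p : ℝ) * jacobiSym (s * n) p' = F (n : ZMod (p * p')) := by
    intro n
    have e1 : e (n : ZMod (p * p')) = ((n : ZMod p), (n : ZMod p')) := by
      rw [map_natCast]
      rfl
    simp only [F, e1]
    rw [← jacobiSym.legendreSym.to_jacobiSym, ← jacobiSym.legendreSym.to_jacobiSym, legendreSym,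
      legendreSym]
    push_cast
    rfl
  have h0 : ∑ x, F x = 0 := by
    have e1 : ∑ x, F x = ∑ y : ZMod p × ZMod p', (quadraticChar (ZMod p) ((s : ZMod p) * y.1) : ℝ) *
        (quadraticChar (ZMod p') ((s : ZMod p') * y.2) : ℝ) :=
      Equiv.sum_comp e.toEquiv fun y : ZMod p × ZMod p' =>
        (quadraticChar (ZMod p) ((s : ZMod p) * y.1) : ℝ) *
        (quadraticChar (ZMod p') ((s : ZMod p') * y.2) : ℝ)
    rw [e1, Fintype.sum_prod_type]
    simp only [← Finset.mul_sum, hsum p' h3', mul_zero, Finset.sum_const_zero]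
  have h1 : ∀ x, |F x| ≤ 1 := by
    intro x
    rw [abs_mul]
    exact mul_le_one₀ (hle p _) (abs_nonneg _) (hle p' _)
  have h := mom_interval F h0 h1 A B
  simp only [← hF] at h
  exact_mod_cast h

private theorem mom_abs_jac (a : ℤ) (p : ℕ) : |(jacobiSym a p : ℝ)| ≤ 1 := by
  rcases jacobiSym.trichotomy a p with h | h | h <;> rw [h] <;> simp

theorem mom : ∃ C : ℝ, 0 < C ∧ ∀ s : ℤ, (s = 1 ∨ s = -1) → ∀ L U a : ℕ, 3 ≤ L → L ≤ U →
    U ^ 4 ≤ 2 ^ a → ∑ n ∈ Ico (2 ^ a) (2 ^ (a + 1)), FS s L U n ^ 2 ≤ C * 2 ^ a / L := by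
  refine ⟨3, by norm_num, fun s hs L U a hL hLU hU => ?_⟩
  set PP := pr L (U + 1) with hPP
  have hmem : ∀ p ∈ PP, p.Prime ∧ 3 ≤ p ∧ L ≤ p ∧ p ≤ U := by
    intro p hp
    rw [hPP, mem_pr] at hp
    exact ⟨hp.2, by omega, hp.1.1, by omega⟩
  have h2a : (0 : ℝ) < 2 ^ a := by positivity
  have hLr : (3 : ℝ) ≤ L := by exact_mod_cast hL
  have hexp : ∀ n : ℕ, FS s L U n ^ 2 = ∑ p ∈ PP, ∑ p' ∈ PP, (1 / (p : ℝ) * (1 / (p' : ℝ))) *
      ((jacobiSym (s * n) p : ℝ) * jacobiSym (s * n) p') := by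
    intro n
    rw [FS, ← hPP, sq, Finset.sum_mul_sum]
    refine Finset.sum_congr rfl fun p _ => Finset.sum_congr rfl fun p' _ => ?_
    ring
  have hsw : ∑ n ∈ Ico (2 ^ a) (2 ^ (a + 1)), FS s L U n ^ 2 =
      ∑ p ∈ PP, ∑ p' ∈ PP, (1 / (p : ℝ) * (1 / (p' : ℝ))) *
        ∑ n ∈ Ico ((2 : ℕ) ^ a) (2 ^ (a + 1)), ((jacobiSym (s * n) p : ℝ) * jacobiSym (s * n) p') := by
    simp only [hexp]
    rw [Finset.sum_comm]
    refine Finset.sum_congr rfl fun p _ => ?_
    rw [Finset.sum_comm]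
    refine Finset.sum_congr rfl fun p' _ => ?_
    rw [Finset.mul_sum]
  have hterm : ∀ p ∈ PP, ∀ p' ∈ PP, (1 / (p : ℝ) * (1 / (p' : ℝ))) *
      ∑ n ∈ Ico ((2 : ℕ) ^ a) (2 ^ (a + 1)), ((jacobiSym (s * n) p : ℝ) * jacobiSym (s * n) p') ≤
      (if p = p' then 2 ^ a * (1 / (p : ℝ) ^ 2) else 0) + 1 := by
    intro p hp p' hp'
    obtain ⟨hpp, hp3, hpL, hpU⟩ := hmem p hp
    obtain ⟨hpp', hp3', hpL', hpU'⟩ := hmem p' hp'
    have hp0 : (0 : ℝ) < p := by exact_mod_cast hpp.pos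
    have hp0' : (0 : ℝ) < p' := by exact_mod_cast hpp'.pos
    split_ifs with h
    · subst h
      have e1 : ∑ n ∈ Ico ((2 : ℕ) ^ a) (2 ^ (a + 1)), ((jacobiSym (s * n) p : ℝ) *
          jacobiSym (s * n) p) ≤ 2 ^ a := by
        calc _ ≤ ∑ n ∈ Ico ((2 : ℕ) ^ a) (2 ^ (a + 1)), (1 : ℝ) := by
              refine Finset.sum_le_sum fun n _ => ?_
              have h4 := mom_abs_jac (s * n) p
              rw [← sq, ← sq_abs]
              exact pow_le_one₀ (abs_nonneg _) h4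
          _ = 2 ^ a := by
              rw [Finset.sum_const, Nat.card_Ico, nsmul_eq_mul, mul_one, pow_succ]
              have h5 : 2 ^ a * 2 - 2 ^ a = 2 ^ a := by omega
              rw [h5]
              push_cast
              rfl
      have e2 : 1 / (p : ℝ) * (1 / (p : ℝ)) = 1 / (p : ℝ) ^ 2 := by
        field_simp
      rw [e2]
      have e3 := mul_le_mul_of_nonneg_left e1 (by positivity : (0 : ℝ) ≤ 1 / (p : ℝ) ^ 2)
      linarith
    · have e1 := (le_abs_self _).trans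
        (jac_sum s hs p p' hpp hpp' hp3 hp3' h (2 ^ a) (2 ^ (a + 1)))
      have e2 := mul_le_mul_of_nonneg_left e1
        (by positivity : (0 : ℝ) ≤ 1 / (p : ℝ) * (1 / (p' : ℝ)))
      have e3 : 1 / (p : ℝ) * (1 / (p' : ℝ)) * (p * p') = 1 := by
        field_simp
      rw [e3] at e2
      linarith
  have hdiag : ∑ p ∈ PP, (1 : ℝ) / (p : ℝ) ^ 2 ≤ (2 : ℝ) / L := by
    have e1 : PP ⊆ Ico L (U + 1) := by
      intro p hp
      have := hmem p hp
      rw [mem_Ico]
      omega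
    refine (Finset.sum_le_sum_of_subset_of_nonneg e1 fun _ _ _ => by positivity).trans ?_
    have e2 : ∀ d : ℕ, ∑ n ∈ Ico L (L + d), (1 : ℝ) / (n : ℝ) ^ 2 ≤
        1 / ((L : ℝ) - 1) - 1 / ((L : ℝ) + d - 1) := by
      intro d
      induction d with
      | zero => simp
      | succ d ih =>
        rw [← Nat.add_assoc, Finset.sum_Ico_succ_top (by omega)]
        have h5 : (0 : ℝ) < (L : ℝ) + d - 1 := by
          have : (0 : ℝ) ≤ d := Nat.cast_nonneg d
          linarith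
        have h6 : 1 / (((L + d : ℕ) : ℝ)) ^ 2 ≤ 1 / ((L : ℝ) + d - 1) - 1 / ((L : ℝ) + d) := by
          push_cast
          have h7 : 1 / ((L : ℝ) + d - 1) - 1 / ((L : ℝ) + d) =
              1 / (((L : ℝ) + d - 1) * ((L : ℝ) + d)) := by
            have h8 : ((L : ℝ) + d) ≠ 0 := by linarith
            field_simp
            ring
          rw [h7]
          apply one_div_le_one_div_of_le
          · positivity
          · nlinarith
        push_cast at *
        have h9 : (L : ℝ) + (d + 1) - 1 = (L : ℝ) + d := by ring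
        rw [h9]
        linarith
    have e3 := e2 (U + 1 - L)
    have e4 : L + (U + 1 - L) = U + 1 := by omega
    rw [e4] at e3
    have e5 : (0 : ℝ) ≤ 1 / ((L : ℝ) + ((U + 1 - L : ℕ) : ℝ) - 1) := by
      have : (0 : ℝ) ≤ ((U + 1 - L : ℕ) : ℝ) := Nat.cast_nonneg _
      apply one_div_nonneg.2
      linarith
    have e6 : 1 / ((L : ℝ) - 1) ≤ 2 / L := by
      rw [div_le_div_iff₀ (by linarith) (by linarith)]
      linarith
    linarith
  have hcard : (PP.card : ℝ) ≤ U := by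
    have e1 : PP ⊆ Ico L (U + 1) := by
      intro p hp
      have := hmem p hp
      rw [mem_Ico]
      omega
    have e2 := Finset.card_le_card e1
    rw [Nat.card_Ico] at e2
    have e3 : PP.card ≤ U := by omega
    exact_mod_cast e3
  rw [hsw]
  have hfin : ∑ p ∈ PP, ∑ p' ∈ PP, ((if p = p' then 2 ^ a * (1 / (p : ℝ) ^ 2) else 0) + 1) =
      2 ^ a * ∑ p ∈ PP, 1 / (p : ℝ) ^ 2 + (PP.card : ℝ) ^ 2 := by
    have e1 : ∀ p ∈ PP, ∑ p' ∈ PP, ((if p = p' then 2 ^ a * (1 / (p : ℝ) ^ 2) else 0) + 1) =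
        2 ^ a * (1 / (p : ℝ) ^ 2) + PP.card := by
      intro p hp
      rw [Finset.sum_add_distrib, Finset.sum_ite_eq, if_pos hp, Finset.sum_const, nsmul_eq_mul,
        mul_one]
    rw [Finset.sum_congr rfl e1, Finset.sum_add_distrib, ← Finset.mul_sum, Finset.sum_const,
      nsmul_eq_mul, sq]
  have h4 : (U : ℝ) ^ 4 ≤ 2 ^ a := by exact_mod_cast hU
  have hUr : (L : ℝ) ≤ U := by exact_mod_cast hLU
  have h5 : (U : ℝ) ^ 2 ≤ 2 ^ a / L := by
    rw [le_div_iff₀ (by linarith)]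
    calc (U : ℝ) ^ 2 * L ≤ (U : ℝ) ^ 2 * (U : ℝ) ^ 2 := by
          refine mul_le_mul_of_nonneg_left ?_ (by positivity)
          nlinarith
      _ = (U : ℝ) ^ 4 := by ring
      _ ≤ 2 ^ a := h4
  calc _ ≤ ∑ p ∈ PP, ∑ p' ∈ PP, ((if p = p' then 2 ^ a * (1 / (p : ℝ) ^ 2) else 0) + 1) :=
        Finset.sum_le_sum fun p hp => Finset.sum_le_sum fun p' hp' => hterm p hp p' hp'
    _ = 2 ^ a * ∑ p ∈ PP, 1 / (p : ℝ) ^ 2 + (PP.card : ℝ) ^ 2 := hfin
    _ ≤ 2 ^ a * (2 / L) + 2 ^ a / L := by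
        refine add_le_add (mul_le_mul_of_nonneg_left hdiag h2a.le) ?_
        exact (pow_le_pow_left₀ (Nat.cast_nonneg _) hcard 2).trans h5
    _ = 3 * 2 ^ a / L := by ring

end Pool.Agent.H12.FO
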