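import Pool.Agent.H12.FO.Rcp
import Pool.Agent.H12.FO.Mas
import Pool.Agent.H12.FO.Mom

/-!
FO Blq: the bad primes in a dyadic block.
-/

set_option autoImplicit false

namespace Pool.Agent.H12.FO.BlqP

open Finset
open Pool.Agent.H37.PPC (pr mem_pr)

theorem Cnt_monoN {N N' : ℕ} (h : N ≤ N') (Q : ℕ → ℕ → Prop) : Cnt N Q ≤ Cnt N' Q := by
  classical
  unfold Cnt
  rw [Nat.cast_le]
  refine card_le_card ?_
  intro n hn
  rw [mem_filter, mem_Ico] at hn ⊢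
  exact ⟨⟨hn.1.1, by omega⟩, hn.2⟩

theorem blq : ∃ C : ℝ, 0 < C ∧ ∃ k : ℕ, 4 ≤ k ∧ ∀ L U a i : ℕ, 3 ≤ L → L ≤ U → U ^ k ≤ 2 ^ i →
    U ^ k ≤ 2 ^ a →
    Cnt (2 ^ (a + i)) (fun n q => 2 ^ a ≤ q ∧ q < 2 ^ (a + 1) ∧ BadP n q) ≤
      C * 2 ^ (a + i) * (1 / L + 1 / a * Real.sqrt (Real.log L / Real.log U)) := by
  classical
  obtain ⟨C1, hC1, hmom⟩ := mom
  obtain ⟨C2, hC2, s, hs, hone⟩ := one_q
  obtain ⟨C3, hC3, hmass⟩ := mass
  refine ⟨4 * C1 * C2 + 4 * C2 + 4 * C2 * (C3 * Real.exp (1 / 2)), by positivity, s + 4, by omega, ?_⟩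
  intro L U a i hL hLU hUi hUa
  have hU0 : 0 < U := by omega
  have hUs : U ^ s ≤ 2 ^ i := (Nat.pow_le_pow_right hU0 (by omega)).trans hUi
  have hU4 : U ^ 4 ≤ 2 ^ a := (Nat.pow_le_pow_right hU0 (by omega)).trans hUa
  have hUa1 : U < 2 ^ a := by
    have h1 : U ^ 1 < U ^ 4 := Nat.pow_lt_pow_right (by omega) (by omega)
    rw [pow_one] at h1
    omega
  have ha : 1 ≤ a := by
    by_contra hc
    have : a = 0 := by omega
    subst this
    simp at hUa1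
    omega
  have ha0 : (0 : ℝ) < a := by exact_mod_cast ha
  have ha1 : (1 : ℝ) ≤ a := by exact_mod_cast ha
  have hL0 : (0 : ℝ) < L := by exact_mod_cast (by omega : 0 < L)
  have hL1 : 1 / (L : ℝ) ≤ 1 := by
    rw [div_le_one hL0]
    exact_mod_cast (by omega : 1 ≤ L)
  have hpow : ((2 : ℝ) ^ (a + i)) = 2 ^ a * 2 ^ i := pow_add _ _ _
  have hXa : (0 : ℝ) < 2 ^ a := by positivity
  have hXi : (0 : ℝ) < 2 ^ i := by positivity
  set T := pr (2 ^ a) (2 ^ (a + 1)) with hT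
  set W : ℝ := Real.sqrt (Real.log L / Real.log U) with hW
  have hW0 : 0 ≤ W := Real.sqrt_nonneg _
  have hTq : ∀ q ∈ T, q.Prime ∧ q ≠ 2 ∧ 2 ^ a ≤ q ∧ U < q := by
    intro q hq
    have h1 := mem_pr.1 hq
    have h2 : U < q := lt_of_lt_of_le hUa1 h1.1.1
    exact ⟨h1.2, by omega, h1.1.1, h2⟩
  -- the bound for one `q`
  have hq1 : ∀ q ∈ T, Cnt (2 ^ (a + i)) (fun n q' => q' = q ∧ BadP n q') ≤
      C2 * 2 ^ i * (Real.exp (-(∑ p ∈ NR (sg q) L U q, (1 : ℝ) / p)) + 1 / L) := by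
    intro q hq
    obtain ⟨h1, h2, h3, h4⟩ := hTq q hq
    have h5 := hone (2 ^ i) U L q hL hLU hUs h1 h2
    push_cast at h5
    refine (Cnt_monoN ?_ _).trans h5
    rw [pow_add]
    exact Nat.mul_le_mul_right _ h3
  set E := T.filter (fun q => 1 < FS (sg q) L U q) with hE
  have hsplit : Cnt (2 ^ (a + i)) (fun n q => 2 ^ a ≤ q ∧ q < 2 ^ (a + 1) ∧ BadP n q) ≤
      ∑ q ∈ T, Cnt (2 ^ (a + i)) (fun n q' => q' = q ∧ BadP n q') := by
    refine Cnt_sum _ _ T (fun q n q' => q' = q ∧ BadP n q') ?_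
    intro n q _ _ hQ
    exact ⟨q, mem_pr.2 ⟨⟨hQ.1, hQ.2.1⟩, hQ.2.2.1⟩, rfl, hQ.2.2⟩
  have hEc : (E.card : ℝ) ≤ 2 * C1 * 2 ^ a / L := by
    have h1 : (E.card : ℝ) ≤ ∑ n ∈ Ico (2 ^ a) (2 ^ (a + 1)), (FS 1 L U n ^ 2 + FS (-1) L U n ^ 2) := by
      calc (E.card : ℝ) = ∑ _n ∈ E, (1 : ℝ) := by simp
        _ ≤ ∑ n ∈ E, (FS 1 L U n ^ 2 + FS (-1) L U n ^ 2) := by
            refine sum_le_sum fun n hn => ?_
            have h2 := (mem_filter.1 hn).2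
            rcases sg_eq n with h3 | h3 <;> rw [h3] at h2 <;> nlinarith [sq_nonneg (FS 1 L U n),
              sq_nonneg (FS (-1) L U n)]
        _ ≤ _ := by
            refine sum_le_sum_of_subset_of_nonneg ?_ (fun n _ _ => by positivity)
            intro n hn
            have h2 := mem_pr.1 (mem_filter.1 hn).1
            exact mem_Ico.2 h2.1
    rw [sum_add_distrib] at h1
    have h2 := hmom 1 (Or.inl rfl) L U a hL hLU hU4
    have h3 := hmom (-1) (Or.inr rfl) L U a hL hLU hU4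
    calc (E.card : ℝ) ≤ _ := h1
      _ ≤ C1 * 2 ^ a / L + C1 * 2 ^ a / L := add_le_add h2 h3
      _ = _ := by ring
  have hTc : (T.card : ℝ) ≤ 4 * 2 ^ a / a := dyad a ha
  have hbd : ∀ q ∈ T, Cnt (2 ^ (a + i)) (fun n q' => q' = q ∧ BadP n q') ≤
      C2 * 2 ^ i * (C3 * Real.exp (1 / 2) * W + 1 / L) + (if q ∈ E then 2 * (C2 * 2 ^ i) else 0) := by
    intro q hq
    obtain ⟨h1, h2, h3, h4⟩ := hTq q hq
    refine (hq1 q hq).trans ?_
    have hA : 0 ≤ C2 * 2 ^ i := by positivity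
    by_cases hqE : q ∈ E
    · rw [if_pos hqE]
      have h5 : Real.exp (-(∑ p ∈ NR (sg q) L U q, (1 : ℝ) / p)) ≤ 1 := by
        rw [Real.exp_le_one_iff, neg_nonpos]
        exact sum_nonneg fun p _ => by positivity
      have h6 : 0 ≤ C3 * Real.exp (1 / 2) * W := by positivity
      have h7 := mul_le_mul_of_nonneg_left h5 hA
      have h8 := mul_nonneg hA h6
      nlinarith
    · rw [if_neg hqE, add_zero]
      apply mul_le_mul_of_nonneg_left _ hA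
      have h5 : FS (sg q) L U q ≤ 1 := by
        by_contra hc
        push Not at hc
        exact hqE (mem_filter.2 ⟨hq, hc⟩)
      have h6 := hmass (sg q) L U q 1 (sg_eq q) (by omega) hLU (by
        intro p hp hpq
        have h7 := mem_pr.1 hp
        have h8 : p = q := (Nat.prime_dvd_prime_iff_eq h7.2 h1).1 hpq
        omega) h5
      linarith
  have hfin : Cnt (2 ^ (a + i)) (fun n q => 2 ^ a ≤ q ∧ q < 2 ^ (a + 1) ∧ BadP n q) ≤
      T.card * (C2 * 2 ^ i * (C3 * Real.exp (1 / 2) * W + 1 / L)) + E.card * (2 * (C2 * 2 ^ i)) := by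
    refine hsplit.trans ((sum_le_sum hbd).trans (le_of_eq ?_))
    have hEE : T.filter (fun q => q ∈ E) = E := by
      ext q
      rw [mem_filter]
      exact ⟨fun h => h.2, fun h => ⟨(mem_filter.1 h).1, h⟩⟩
    rw [sum_add_distrib, sum_const, nsmul_eq_mul, ← sum_filter, hEE, sum_const, nsmul_eq_mul]
  refine hfin.trans ?_
  have hpos : 0 ≤ C2 * 2 ^ i * (C3 * Real.exp (1 / 2) * W + 1 / L) := by positivity
  have e1 := mul_le_mul_of_nonneg_right hTc hpos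
  have e2 := mul_le_mul_of_nonneg_right hEc (show (0 : ℝ) ≤ 2 * (C2 * 2 ^ i) by positivity)
  refine (add_le_add e1 e2).trans ?_
  rw [hpow]
  have e3 : 4 * 2 ^ a / (a : ℝ) * (C2 * 2 ^ i * (C3 * Real.exp (1 / 2) * W + 1 / L)) =
      2 ^ a * 2 ^ i * (4 * C2 * (C3 * Real.exp (1 / 2)) * (1 / a * W)) +
        2 ^ a * 2 ^ i * (4 * C2 * (1 / a * (1 / L))) := by
    field_simp
  have e4 : 2 * C1 * 2 ^ a / (L : ℝ) * (2 * (C2 * 2 ^ i)) =
      2 ^ a * 2 ^ i * (4 * C1 * C2 * (1 / L)) := by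
    field_simp
    ring
  rw [e3, e4]
  have e5 : 1 / (a : ℝ) * (1 / L) ≤ 1 / L := by
    have h1 : 1 / (a : ℝ) ≤ 1 := by
      rw [div_le_one ha0]
      exact ha1
    exact mul_le_of_le_one_left (by positivity) h1
  have e6 : 0 ≤ 1 / (a : ℝ) * W := by positivity
  have e7 : 0 ≤ 1 / (L : ℝ) := by positivity
  have hXX : (0 : ℝ) < 2 ^ a * 2 ^ i := by positivity
  have e8 : 4 * C2 * (C3 * Real.exp (1 / 2)) * (1 / a * W) + 4 * C2 * (1 / a * (1 / L)) +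
      4 * C1 * C2 * (1 / L) ≤
      (4 * C1 * C2 + 4 * C2 + 4 * C2 * (C3 * Real.exp (1 / 2))) * (1 / L + 1 / a * W) := by
    have f1 : 0 ≤ C3 * Real.exp (1 / 2) := by positivity
    have f2 : 0 ≤ C2 * (C3 * Real.exp (1 / 2)) * (1 / L) := by positivity
    have f3 : 0 ≤ C1 * C2 * (1 / a * W) := by positivity
    have f4 : 0 ≤ C2 * (1 / a * W) := by positivity
    have f5 := mul_le_mul_of_nonneg_left e5 hC2.le
    nlinarith
  calc _ = 2 ^ a * 2 ^ i * (4 * C2 * (C3 * Real.exp (1 / 2)) * (1 / a * W) +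
        4 * C2 * (1 / a * (1 / L)) + 4 * C1 * C2 * (1 / L)) := by ring
    _ ≤ 2 ^ a * 2 ^ i * ((4 * C1 * C2 + 4 * C2 + 4 * C2 * (C3 * Real.exp (1 / 2))) *
        (1 / L + 1 / a * W)) := mul_le_mul_of_nonneg_left e8 hXX.le
    _ = _ := by ring

end Pool.Agent.H12.FO.BlqP
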