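import Mathlib

/-!
FO Bru: Bruck's bound.  A fixed line which carries a point `Q` that is not fixed: at most `n` fixed
points are off this line (their joins with `Q` are different, and different from the line).
-/

set_option autoImplicit false

namespace Pool.Agent.H12.FO

open Configuration

theorem bruck_off (P L : Type) [Membership P L] [Finite P] [Finite L] [ProjectivePlane P L]
    (σ : Equiv.Perm P) (τ : Equiv.Perm L) (h : ∀ p l, σ p ∈ τ l ↔ p ∈ l) (l : L) (hl : τ l = l)
    (Q : P) (hQl : Q ∈ l) (hQ : σ Q ≠ Q) :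
    Nat.card {p // σ p = p ∧ p ∉ l} ≤ ProjectivePlane.order P L := by
  classical
  have := Fintype.ofFinite P
  have := Fintype.ofFinite L
  have hne : ∀ p : {p // σ p = p ∧ p ∉ l}, (p : P) ≠ Q := fun p hp => p.2.2 (hp ▸ hQl)
  let F : {p // σ p = p ∧ p ∉ l} → {m : L // Q ∈ m} := fun p =>
    ⟨HasLines.mkLine (hne p), (HasLines.mkLine_ax (hne p)).2⟩
  have hmem : ∀ p : {p // σ p = p ∧ p ∉ l}, (p : P) ∈ (F p : L) := fun p =>
    (HasLines.mkLine_ax (hne p)).1
  have hinj : Function.Injective F := by
    intro p p' hpp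
    by_contra hc
    have hc' : (p : P) ≠ p' := fun h1 => hc (Subtype.ext h1)
    have h1 : (p' : P) ∈ (F p : L) := hpp ▸ hmem p'
    -- the line `F p` is fixed
    have h2 : τ (F p : L) = F p := by
      have h3 : (p : P) ∈ τ (F p : L) := by
        have := (h p (F p : L)).2 (hmem p)
        rwa [p.2.1] at this
      have h4 : (p' : P) ∈ τ (F p : L) := by
        have := (h p' (F p : L)).2 h1
        rwa [p'.2.1] at this
      exact ((Nondegenerate.eq_or_eq h3 h4 (hmem p) h1).resolve_left hc')
    -- so `Q` is fixed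
    have h5 : σ Q ∈ l := by
      have := (h Q l).2 hQl
      rwa [hl] at this
    have h6 : σ Q ∈ (F p : L) := by
      have := (h Q (F p : L)).2 (F p).2
      rwa [h2] at this
    have h7 : (F p : L) ≠ l := by
      intro h8
      have h9 := hmem p
      rw [h8] at h9
      exact p.2.2 h9
    rcases Nondegenerate.eq_or_eq h6 (F p).2 h5 hQl with h8 | h8
    · exact hQ h8
    · exact h7 h8
  have hnot : (⟨l, hQl⟩ : {m : L // Q ∈ m}) ∉ Set.range F := by
    rintro ⟨p, hp⟩
    have h1 : (F p : L) = l := congrArg Subtype.val hp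
    have h9 := hmem p
    rw [h1] at h9
    exact p.2.2 h9
  have h1 := Fintype.card_lt_of_injective_of_notMem F hinj hnot
  have h2 : Fintype.card {m : L // Q ∈ m} = ProjectivePlane.order P L + 1 := by
    rw [← ProjectivePlane.lineCount_eq (P := P) (L := L) Q, lineCount, Nat.card_eq_fintype_card]
  rw [h2] at h1
  rw [Nat.card_eq_fintype_card]
  omega

end Pool.Agent.H12.FO
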