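import Mathlib
import Pool.Agent.H37.PPC.Defs

/-!
PROJECT FO (MP_5bfab0_co): for almost all `n` every collineation of prime power order of every
projective plane of order `n` has an odd number of fixed points.  Common definitions.
The case of the primes `q ∣ n² + n + 1` is `Pool.Agent.H80.FP.Tst_eventually` (helper80); here
`q ∣ n (n + 1) (n - 1)`.
-/

set_option autoImplicit false

namespace Pool.Agent.H12.FO

open Finset
open Pool.Agent.H37.PPC (pr mem_pr chi3)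

/-- `∑_{L ≤ p ≤ U} (s a / p) / p`, sum over primes -/
noncomputable def FS (s : ℤ) (L U a : ℕ) : ℝ :=
  ∑ p ∈ pr L (U + 1), (jacobiSym (s * a) p : ℝ) / p

/-- the primes `L ≤ p ≤ U` with `(s a / p) = -1` -/
def NR (s : ℤ) (L U a : ℕ) : Finset ℕ :=
  (pr L (U + 1)).filter (fun p => jacobiSym (s * a) p = -1)

/-- the sign with `(p / q) = (sg q * q / p)` -/
def sg (q : ℕ) : ℤ := if q % 4 = 1 then 1 else -1

/-- every prime which divides `n` exactly once is a square modulo `q` -/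
def Tq (n q : ℕ) : Prop := ∀ p : ℕ, p.Prime → p ∣ n → ¬ p ^ 2 ∣ n → IsSquare (p : ZMod q)

/-- `q` is a bad prime for `n` -/
def BadP (n q : ℕ) : Prop := q.Prime ∧ q ≠ 2 ∧ q ∣ n * (n + 1) * (n - 1) ∧ Tq n q

open Classical in
/-- the number of `2 ≤ n < N` for which some `q` has the property `Q n q` -/
noncomputable def Cnt (N : ℕ) (Q : ℕ → ℕ → Prop) : ℝ :=
  (((Ico 2 N).filter (fun n => ∃ q, Q n q)).card : ℝ)

theorem Cnt_nonneg (N : ℕ) (Q : ℕ → ℕ → Prop) : 0 ≤ Cnt N Q := Nat.cast_nonneg _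

theorem Cnt_mono (N : ℕ) (Q R : ℕ → ℕ → Prop)
    (h : ∀ n q, 2 ≤ n → n < N → Q n q → ∃ q', R n q') : Cnt N Q ≤ Cnt N R := by
  classical
  unfold Cnt
  rw [Nat.cast_le]
  refine card_le_card ?_
  intro n hn
  rw [mem_filter] at hn ⊢
  obtain ⟨h1, q, hq⟩ := hn
  have h2 := mem_Ico.1 h1
  exact ⟨h1, h n q h2.1 h2.2 hq⟩

theorem Cnt_or (N : ℕ) (Q R S : ℕ → ℕ → Prop)
    (h : ∀ n q, 2 ≤ n → n < N → Q n q → R n q ∨ S n q) : Cnt N Q ≤ Cnt N R + Cnt N S := by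
  classical
  unfold Cnt
  rw [← Nat.cast_add, Nat.cast_le]
  refine le_trans (card_le_card ?_) (card_union_le _ _)
  intro n hn
  rw [mem_union, mem_filter, mem_filter]
  rw [mem_filter] at hn
  obtain ⟨h1, q, hq⟩ := hn
  have h2 := mem_Ico.1 h1
  rcases h n q h2.1 h2.2 hq with h3 | h3
  · exact Or.inl ⟨h1, q, h3⟩
  · exact Or.inr ⟨h1, q, h3⟩

theorem Cnt_sum {ι : Type} (N : ℕ) (Q : ℕ → ℕ → Prop) (I : Finset ι) (R : ι → ℕ → ℕ → Prop)
    (h : ∀ n q, 2 ≤ n → n < N → Q n q → ∃ i ∈ I, R i n q) : Cnt N Q ≤ ∑ i ∈ I, Cnt N (R i) := by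
  classical
  unfold Cnt
  rw [← Nat.cast_sum, Nat.cast_le]
  refine le_trans (card_le_card ?_) (card_biUnion_le (s := I)
    (t := fun i => (Ico 2 N).filter (fun n => ∃ q, R i n q)))
  intro n hn
  rw [mem_biUnion]
  rw [mem_filter] at hn
  obtain ⟨h1, q, hq⟩ := hn
  have h2 := mem_Ico.1 h1
  obtain ⟨i, hi, h3⟩ := h n q h2.1 h2.2 hq
  exact ⟨i, hi, mem_filter.2 ⟨h1, q, h3⟩⟩

end Pool.Agent.H12.FO
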