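import Pool.Agent.H12.FO.Defs
import Pool.Agent.H12.FO.Bru
import Pool.Agent.H12.ST.Pln

/-!
FO Geo: the fixed points of a collineation of order `q ^ k`, `q` prime to `n (n + 1) (n - 1)`, with a
fixed point, form a subplane.
-/

set_option autoImplicit false

namespace Pool.Agent.H12.FO

open Configuration

/-- fixed points of a permutation of order `q ^ k` -/
theorem geo_mod (X : Type) [Finite X] (σ : Equiv.Perm X) (q k : ℕ) (hq : q.Prime)
    (hσ : σ ^ (q ^ k) = 1) : Nat.card {x // σ x = x} ≡ Nat.card X [MOD q] := by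
  classical
  have := Fintype.ofFinite X
  have : Fact q.Prime := ⟨hq⟩
  let f : Function.End X := fun x => σ x
  have h3 : ∀ m : ℕ, ∀ x, (f ^ m) x = (σ ^ m) x := by
    intro m
    induction m with
    | zero => intro x; rfl
    | succ m ih =>
      intro x
      rw [pow_succ, pow_succ]
      exact ih (σ x)
  have h1 := Equiv.Perm.card_fixedPoints_modEq (f := f) (p := q) (n := k) (by
    funext x
    rw [h3, hσ]
    rfl)
  rw [Nat.card_eq_fintype_card, Nat.card_eq_fintype_card]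
  exact h1.symm

theorem geo_pow {P L : Type} [Membership P L] {f : Equiv.Perm P} {g : Equiv.Perm L}
    (h : ∀ (p : P) (l : L), f p ∈ g l ↔ p ∈ l) (m : ℕ) (p : P) (l : L) :
    (f ^ m) p ∈ (g ^ m) l ↔ p ∈ l := by
  induction m generalizing p l with
  | zero => simp
  | succ m ih =>
    rw [pow_succ', pow_succ', Equiv.Perm.mul_apply, Equiv.Perm.mul_apply, h, ih]

/-- fixed elements with a property -/
theorem geo_sub (X : Type) [Finite X] (σ : Equiv.Perm X) (q k : ℕ) (hq : q.Prime)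
    (hσ : σ ^ (q ^ k) = 1) (R : X → Prop) (hR : ∀ x, R (σ x) ↔ R x) :
    Nat.card {x // σ x = x ∧ R x} ≡ Nat.card {x // R x} [MOD q] := by
  have h1 : (σ.subtypePerm hR) ^ (q ^ k) = 1 := by
    rw [Equiv.Perm.subtypePerm_pow]
    ext x
    simp [hσ]
  have h2 := geo_mod {x // R x} (σ.subtypePerm hR) q k hq h1
  have h3 : Nat.card {x : {x // R x} // σ.subtypePerm hR x = x} =
      Nat.card {x // σ x = x ∧ R x} := by
    apply Nat.card_congr
    refine ⟨fun x => ⟨x.1.1, ?_, x.1.2⟩, fun x => ⟨⟨x.1, x.2.2⟩, ?_⟩, fun x => rfl, fun x => rfl⟩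
    · have := congrArg Subtype.val x.2
      simpa using this
    · apply Subtype.ext
      simpa using x.2.1
  rwa [h3] at h2

/-- a number congruent to `n + 1` is at least `3` -/
theorem geo_three {q n c : ℕ} (hn : 1 ≤ n) (hB : ¬ q ∣ n * (n + 1) * (n - 1))
    (hc : c ≡ n + 1 [MOD q]) : 3 ≤ c := by
  by_contra hcon
  apply hB
  have h1 : (q : ℤ) ∣ (n + 1 : ℤ) - c := by
    have := (Nat.modEq_iff_dvd.1 hc)
    push_cast at this
    exact this
  have h2 : (q : ℤ) ∣ (n : ℤ) * (n + 1) * (n - 1) := by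
    have h3 : c = 0 ∨ c = 1 ∨ c = 2 := by omega
    rcases h3 with rfl | rfl | rfl
    · have h4 : (q : ℤ) ∣ (n : ℤ) + 1 := by simpa using h1
      exact Dvd.dvd.mul_right (Dvd.dvd.mul_left h4 _) _
    · have h4 : (q : ℤ) ∣ (n : ℤ) := by simpa using h1
      exact Dvd.dvd.mul_right (Dvd.dvd.mul_right h4 _) _
    · have h4 : (q : ℤ) ∣ (n : ℤ) - 1 := by
        have h5 : ((n : ℤ) + 1) - ((2 : ℕ) : ℤ) = (n : ℤ) - 1 := by push_cast; ring
        rwa [h5] at h1
      exact Dvd.dvd.mul_left h4 _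
  have h6 : ((n * (n + 1) * (n - 1) : ℕ) : ℤ) = (n : ℤ) * (n + 1) * (n - 1) := by
    rw [Nat.cast_mul, Nat.cast_mul, Nat.cast_sub hn]
    push_cast
    ring
  rw [← h6] at h2
  exact_mod_cast h2

/-- a finite type with at least three elements has a third one -/
theorem geo_third {X : Type} [Finite X] {R : X → Prop} (h : 3 ≤ Nat.card {x // R x}) (a b : X) :
    ∃ c, R c ∧ c ≠ a ∧ c ≠ b := by
  classical
  have := Fintype.ofFinite X
  rw [Nat.card_eq_fintype_card, Fintype.card_subtype] at h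
  have h0 : 3 ≤ (Finset.univ.filter R).card := by convert h
  have h2 : ((Finset.univ.filter R) \ {a, b}).Nonempty := by
    rw [← Finset.card_pos]
    have h3 := Finset.le_card_sdiff ({a, b} : Finset X) (Finset.univ.filter R)
    have h4 : ({a, b} : Finset X).card ≤ 2 := Finset.card_le_two
    omega
  obtain ⟨c, hc⟩ := h2
  rw [Finset.mem_sdiff, Finset.mem_filter, Finset.mem_insert, Finset.mem_singleton] at hc
  push Not at hc
  exact ⟨c, hc.1.2, hc.2.1, hc.2.2⟩

/-- The subplane of the fixed points. -/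
theorem geo_plane (P L : Type) [Membership P L] [Finite P] [Finite L] [ProjectivePlane P L]
    (σ : Equiv.Perm P) (τ : Equiv.Perm L) (h : ∀ p l, σ p ∈ τ l ↔ p ∈ l) (q k : ℕ) (hq : q.Prime)
    (hσ : σ ^ (q ^ k) = 1) (n : ℕ) (hn : ProjectivePlane.order P L = n)
    (hB : ¬ q ∣ n * (n + 1) * (n - 1)) (hf : ∃ p, σ p = p) :
    ∃ m : ℕ, Nat.card {p // σ p = p} = m ^ 2 + m + 1 ∧ m ≡ n [MOD q] ∧
      (∀ l, τ l = l → Nat.card {p // σ p = p ∧ p ∈ l} = m + 1) ∧ ∃ l, τ l = l := by
  classical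
  obtain ⟨P0, hP0⟩ := hf
  have hn1 : 1 ≤ n := by
    have := ProjectivePlane.one_lt_order P L
    omega
  have hτ : τ ^ (q ^ k) = 1 := by
    ext l
    rw [Equiv.Perm.one_apply]
    refine Pool.Agent.H12.ST.line_ext (P := P) fun p => ?_
    have h1 := geo_pow h (q ^ k) p l
    rw [hσ, Equiv.Perm.one_apply] at h1
    exact h1
  -- lines through a fixed point
  have hL : ∀ p, σ p = p → 3 ≤ Nat.card {l // τ l = l ∧ p ∈ l} := by
    intro p hp
    apply geo_three hn1 hB
    have h1 := geo_sub L τ q k hq hτ (fun l => p ∈ l) (fun l => by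
      have := h p l
      rwa [hp] at this)
    have h2 : Nat.card {l : L // p ∈ l} = n + 1 := by
      rw [← hn]
      exact ProjectivePlane.lineCount_eq (L := L) p
    rwa [h2] at h1
  have hPm : ∀ l, τ l = l → Nat.card {p // σ p = p ∧ p ∈ l} ≡ n + 1 [MOD q] := by
    intro l hl
    have h1 := geo_sub P σ q k hq hσ (fun p => p ∈ l) (fun p => by
      have := h p l
      rwa [hl] at this)
    have h2 : Nat.card {p : P // p ∈ l} = n + 1 := by
      rw [← hn]
      exact ProjectivePlane.pointCount_eq (P := P) l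
    rwa [h2] at h1
  have hP : ∀ l, τ l = l → 3 ≤ Nat.card {p // σ p = p ∧ p ∈ l} := fun l hl =>
    geo_three hn1 hB (hPm l hl)
  -- joins and meets
  have hjoin : ∀ {p p' : P} {l : L}, σ p = p → σ p' = p' → p ≠ p' → p ∈ l → p' ∈ l →
      τ l = l := by
    intro p p' l hp hp' hpp h1 h2
    have h3 : p ∈ τ l := by
      have := (h p l).2 h1
      rwa [hp] at this
    have h4 : p' ∈ τ l := by
      have := (h p' l).2 h2
      rwa [hp'] at this
    exact (Nondegenerate.eq_or_eq h3 h4 h1 h2).resolve_left hpp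
  have hmeet : ∀ {l l' : L} {p : P}, τ l = l → τ l' = l' → l ≠ l' → p ∈ l → p ∈ l' →
      σ p = p := by
    intro l l' p hl hl' hll h1 h2
    have h3 : σ p ∈ l := by
      have := (h p l).2 h1
      rwa [hl] at this
    have h4 : σ p ∈ l' := by
      have := (h p l').2 h2
      rwa [hl'] at this
    exact (Nondegenerate.eq_or_eq h3 h1 h4 h2).resolve_right hll
  let P' := {p : P // σ p = p}
  let L' := {l : L // τ l = l}
  let iM : Membership P' L' := ⟨fun l p => (p : P) ∈ (l : L)⟩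
  have hmem : ∀ (p : P') (l : L'), p ∈ l ↔ (p : P) ∈ (l : L) := fun p l => Iff.rfl
  -- a fixed point off a fixed line
  have hoff : ∀ l, τ l = l → ∃ p, σ p = p ∧ p ∉ l := by
    intro l hl
    by_cases h1 : P0 ∈ l
    · obtain ⟨l2, ⟨h2, h3⟩, h4, -⟩ := geo_third (hL P0 hP0) l l
      obtain ⟨p, ⟨h5, h6⟩, h7, -⟩ := geo_third (hP l2 h2) P0 P0
      refine ⟨p, h5, fun h8 => ?_⟩
      rcases Nondegenerate.eq_or_eq h6 h3 h8 h1 with h9 | h9
      · exact h7 h9
      · exact h4 h9
    · exact ⟨P0, hP0, h1⟩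
  obtain ⟨lx, -⟩ := Nondegenerate.exists_line (L := L) P0
  obtain ⟨l2, ⟨hl2, hl2P⟩, -, -⟩ := geo_third (hL P0 hP0) lx lx
  obtain ⟨l3, ⟨hl3, hl3P⟩, hl32, -⟩ := geo_third (hL P0 hP0) l2 l2
  obtain ⟨l4, ⟨hl4, hl4P⟩, hl42, hl43⟩ := geo_third (hL P0 hP0) l2 l3
  obtain ⟨p3, ⟨hp3, hp3l⟩, hp30, -⟩ := geo_third (hP l2 hl2) P0 P0
  obtain ⟨p4, ⟨hp4, hp4l⟩, hp40, hp43⟩ := geo_third (hP l2 hl2) P0 p3
  obtain ⟨p1, ⟨hp1, hp1l⟩, hp10, -⟩ := geo_third (hP l4 hl4) P0 P0
  obtain ⟨l1, ⟨hl1, hl1P⟩, hl12, -⟩ := geo_third (hL p4 hp4) l2 l2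
  let iPl : ProjectivePlane P' L' :=
    { exists_point := fun l => by
        obtain ⟨p, h1, h2⟩ := hoff l.1 l.2
        exact ⟨⟨p, h1⟩, h2⟩
      exists_line := fun p => by
        by_cases h1 : (p : P) ∈ l2
        · obtain ⟨p', ⟨h2, h3⟩, h4, -⟩ := geo_third (hP l2 hl2) p p
          obtain ⟨l, ⟨h5, h6⟩, h7, -⟩ := geo_third (hL p' h2) l2 l2
          refine ⟨⟨l, h5⟩, fun h8 => ?_⟩
          have h8' : (p : P) ∈ l := h8
          rcases Nondegenerate.eq_or_eq h6 h8' h3 h1 with h9 | h9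
          · exact h4 h9
          · exact h7 h9
        · exact ⟨⟨l2, hl2⟩, h1⟩
      eq_or_eq := fun {p p' l l'} h1 h2 h3 h4 => by
        have h5 := Nondegenerate.eq_or_eq (p₁ := (p : P)) (p₂ := (p' : P)) (l₁ := (l : L))
          (l₂ := (l' : L)) h1 h2 h3 h4
        rcases h5 with h5 | h5
        · exact Or.inl (Subtype.ext h5)
        · exact Or.inr (Subtype.ext h5)
      mkPoint := fun {l l'} hll => ⟨HasPoints.mkPoint (l₁ := (l : L)) (l₂ := (l' : L))
          (fun h1 => hll (Subtype.ext h1)),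
        hmeet l.2 l'.2 (fun h1 => hll (Subtype.ext h1)) (HasPoints.mkPoint_ax _).1
          (HasPoints.mkPoint_ax _).2⟩
      mkPoint_ax := fun {l l'} hll => HasPoints.mkPoint_ax (l₁ := (l : L)) (l₂ := (l' : L))
          (fun h1 => hll (Subtype.ext h1))
      mkLine := fun {p p'} hpp => ⟨HasLines.mkLine (p₁ := (p : P)) (p₂ := (p' : P))
          (fun h1 => hpp (Subtype.ext h1)),
        hjoin p.2 p'.2 (fun h1 => hpp (Subtype.ext h1)) (HasLines.mkLine_ax _).1
          (HasLines.mkLine_ax _).2⟩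
      mkLine_ax := fun {p p'} hpp => HasLines.mkLine_ax (p₁ := (p : P)) (p₂ := (p' : P))
          (fun h1 => hpp (Subtype.ext h1))
      exists_config := by
        refine ⟨⟨p1, hp1⟩, ⟨P0, hP0⟩, ⟨p3, hp3⟩, ⟨l1, hl1⟩, ⟨l2, hl2⟩, ⟨l3, hl3⟩, ?_, ?_, ?_,
          hl2P, hl3P, ?_, hp3l, ?_⟩
        · intro h1
          have h1' : p1 ∈ l2 := h1
          rcases Nondegenerate.eq_or_eq hp1l hl4P h1' hl2P with h9 | h9
          · exact hp10 h9
          · exact hl42 h9
        · intro h1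
          have h1' : p1 ∈ l3 := h1
          rcases Nondegenerate.eq_or_eq hp1l hl4P h1' hl3P with h9 | h9
          · exact hp10 h9
          · exact hl43 h9
        · intro h1
          have h1' : P0 ∈ l1 := h1
          rcases Nondegenerate.eq_or_eq hl1P h1' hp4l hl2P with h9 | h9
          · exact hp40 h9
          · exact hl12 h9
        · intro h1
          have h1' : p3 ∈ l1 := h1
          rcases Nondegenerate.eq_or_eq hl1P h1' hp4l hp3l with h9 | h9
          · exact hp43 h9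
          · exact hl12 h9
        · intro h1
          have h1' : p3 ∈ l3 := h1
          rcases Nondegenerate.eq_or_eq hp3l hl2P h1' hl3P with h9 | h9
          · exact hp30 h9
          · exact hl32 h9.symm }
  have hcount : ∀ l, τ l = l →
      Nat.card {p // σ p = p ∧ p ∈ l} = ProjectivePlane.order P' L' + 1 := by
    intro l hl
    have h1 := ProjectivePlane.pointCount_eq (P := P') (L := L') ⟨l, hl⟩
    rw [← h1]
    apply Nat.card_congr
    exact ⟨fun x => ⟨⟨x.1, x.2.1⟩, x.2.2⟩, fun x => ⟨x.1.1, x.1.2, x.2⟩, fun x => rfl,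
      fun x => rfl⟩
  refine ⟨ProjectivePlane.order P' L', ?_, ?_, hcount, l2, hl2⟩
  · have := Fintype.ofFinite P'
    have h1 := ProjectivePlane.card_points P' L'
    rw [← h1, Nat.card_eq_fintype_card]
  · have h1 := hPm l2 hl2
    rw [hcount l2 hl2] at h1
    exact Nat.ModEq.add_right_cancel' 1 h1

/-- `n (n + 1) (n - 1) (n² + n + 1)` prime to `q`: the fixed points form a subplane -/
theorem odd_sub (P L : Type) [Membership P L] [Finite P] [Finite L] [ProjectivePlane P L]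
    (σ : Equiv.Perm P) (τ : Equiv.Perm L) (h : ∀ p l, σ p ∈ τ l ↔ p ∈ l) (q k : ℕ) (hq : q.Prime)
    (hσ : σ ^ (q ^ k) = 1) (n : ℕ) (hn : ProjectivePlane.order P L = n)
    (hB : ¬ q ∣ n * (n + 1) * (n - 1) * (n ^ 2 + n + 1)) :
    Odd (Nat.card {p // σ p = p}) := by
  classical
  have := Fintype.ofFinite P
  have hf : ∃ p, σ p = p := by
    by_contra hc
    push Not at hc
    have h1 := geo_mod P σ q k hq hσ
    have h2 : IsEmpty {p // σ p = p} := ⟨fun x => hc x.1 x.2⟩
    rw [Nat.card_of_isEmpty, Nat.card_eq_fintype_card, ProjectivePlane.card_points P L, hn] at h1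
    apply hB
    exact Dvd.dvd.mul_left ((Nat.modEq_zero_iff_dvd.1 h1.symm)) _
  obtain ⟨m, hm, -⟩ := geo_plane P L σ τ h q k hq hσ n hn
    (fun hc => hB (Dvd.dvd.mul_right hc _)) hf
  rw [hm]
  have : Even (m ^ 2 + m) := by
    have : m ^ 2 + m = m * (m + 1) := by ring
    rw [this]
    exact Nat.even_mul_succ_self m
  exact this.add_one

theorem fix_plane (P L : Type) [Membership P L] [Finite P] [Finite L] [ProjectivePlane P L]
    (σ : Equiv.Perm P) (τ : Equiv.Perm L) (h : ∀ p l, σ p ∈ τ l ↔ p ∈ l) (q k : ℕ) (hq : q.Prime)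
    (hσ : σ ^ (q ^ k) = 1) (n : ℕ) (hn : ProjectivePlane.order P L = n)
    (hB : ¬ q ∣ n * (n + 1) * (n - 1)) (hf : ∃ p, σ p = p) :
    ∃ m : ℕ, Nat.card {p // σ p = p} = m ^ 2 + m + 1 ∧ m ≡ n [MOD q] ∧
      (σ ≠ 1 → m ^ 2 ≤ n) := by
  classical
  have := Fintype.ofFinite P
  obtain ⟨m, hm1, hm2, hm3, l0, hl0⟩ := geo_plane P L σ τ h q k hq hσ n hn hB hf
  refine ⟨m, hm1, hm2, fun hσ1 => ?_⟩
  by_cases hQ : ∃ l Q, τ l = l ∧ Q ∈ l ∧ σ Q ≠ Q
  · obtain ⟨l, Q, hl, hQl, hQ⟩ := hQ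
    have h1 := bruck_off P L σ τ h l hl Q hQl hQ
    rw [hn] at h1
    have h2 : Nat.card {p // σ p = p} =
        Nat.card {p // σ p = p ∧ p ∈ l} + Nat.card {p // σ p = p ∧ p ∉ l} := by
      rw [Nat.card_eq_fintype_card, Nat.card_eq_fintype_card, Nat.card_eq_fintype_card,
        Fintype.card_subtype, Fintype.card_subtype, Fintype.card_subtype,
        ← Finset.card_filter_add_card_filter_not (s := Finset.univ.filter fun p => σ p = p)
          (fun p => p ∈ l), Finset.filter_filter, Finset.filter_filter]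
    rw [hm1, hm3 l hl] at h2
    omega
  · push Not at hQ
    exfalso
    apply hσ1
    have h1 : Nat.card {p // σ p = p ∧ p ∈ l0} = n + 1 := by
      have h2 : Nat.card {p : P // p ∈ l0} = n + 1 := by
        rw [← hn]
        exact ProjectivePlane.pointCount_eq (P := P) l0
      rw [← h2]
      apply Nat.card_congr
      exact ⟨fun x => ⟨x.1, x.2.2⟩, fun x => ⟨x.1, hQ l0 x.1 hl0 x.2, x.2⟩, fun x => rfl,
        fun x => rfl⟩
    rw [hm3 l0 hl0] at h1
    have h3 : m = n := by omega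
    have h4 : Nat.card {p // σ p = p} = Nat.card P := by
      rw [hm1, h3, Nat.card_eq_fintype_card, ProjectivePlane.card_points P L, hn]
    ext p
    rw [Equiv.Perm.one_apply]
    by_contra hp
    rw [Nat.card_eq_fintype_card, Nat.card_eq_fintype_card] at h4
    have h5 := Fintype.card_subtype_lt (p := fun p => σ p = p) hp
    omega

end Pool.Agent.H12.FO
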