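import Pool.Agent.H12.FO.Defs
import Pool.Agent.H12.FO.Geo
import Pool.Agent.H12.ST.Pln
import Pool.Agent.H10.FP.EvenMoved

/-!
FO Fin: a collineation of prime power order with an even number of fixed points.
-/

set_option autoImplicit false

namespace Pool.Agent.H12.FO

open Finset Configuration Pool.Agent.H12.ST

/-- every prime `p ≠ q` with odd exponent in `n` has odd order modulo `q` -/
def Odds (n q : ℕ) : Prop :=
  ∀ p : ℕ, p.Prime → p ≠ q → Odd (padicValNat p n) → Odd (orderOf (p : ZMod q))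

theorem mem_pow {P L : Type} [Membership P L] {f : Equiv.Perm P} {g : Equiv.Perm L}
    (h : ∀ (p : P) (l : L), f p ∈ g l ↔ p ∈ l) (m : ℕ) (p : P) (l : L) :
    (f ^ m) p ∈ (g ^ m) l ↔ p ∈ l := by
  induction m generalizing p l with
  | zero => simp
  | succ m ih =>
    rw [pow_succ', pow_succ', Equiv.Perm.mul_apply, Equiv.Perm.mul_apply, h, ih]

theorem odd_v (n : ℕ) : Odd (n ^ 2 + n + 1) := by
  have : Even (n ^ 2 + n) := by
    have : n ^ 2 + n = n * (n + 1) := by ring
    rw [this]; exact Nat.even_mul_succ_self n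
  exact this.add_one

theorem even_fixed (P L : Type) [Membership P L] [Finite P] [Finite L] [ProjectivePlane P L]
    (σ : Equiv.Perm P) (τ : Equiv.Perm L) (h : ∀ p l, σ p ∈ τ l ↔ p ∈ l) (q k : ℕ) (hq : q.Prime)
    (hσ : σ ^ (q ^ k) = 1) (n : ℕ) (hn : ProjectivePlane.order P L = n)
    (hev : Even (Nat.card {p // σ p = p})) :
    q ≠ 2 ∧ q ∣ n * (n + 1) * (n - 1) * (n ^ 2 + n + 1) ∧ Odds n q := by
  classical
  have := Fintype.ofFinite P
  have := Fintype.ofFinite L
  have hsys := inc_sys P L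
  rw [hn] at hsys
  have hcard : Fintype.card P = n ^ 2 + n + 1 := by
    rw [ProjectivePlane.card_points P L, hn]
  have hsum : Fintype.card {p // σ p = p} + Fintype.card {p // σ p ≠ p} = n ^ 2 + n + 1 := by
    rw [← hcard]
    exact Fintype.card_subtype_compl (fun p => σ p = p) ▸ by
      have h1 := Fintype.card_subtype_le (fun p => σ p = p)
      omega
  have hodd := odd_v n
  rw [Nat.card_eq_fintype_card] at hev
  have hmov : Odd (Fintype.card {p // σ p ≠ p}) := by
    rw [← hsum, Nat.odd_add] at hodd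
    rw [← Nat.not_even_iff_odd]
    intro h1
    exact (Nat.not_odd_iff_even.2 hev) (hodd.2 h1)
  have hτ : τ ^ (q ^ k) = 1 := by
    ext l
    rw [Equiv.Perm.one_apply]
    refine line_ext (P := P) fun p => ?_
    have h1 := mem_pow h (q ^ k) p l
    rw [hσ, Equiv.Perm.one_apply] at h1
    exact h1
  have hinv : ∀ p l, inc P L (σ p) (τ l) = inc P L p l := by
    intro p l
    unfold inc
    by_cases h1 : p ∈ l
    · rw [if_pos h1, if_pos ((h p l).2 h1)]
    · rw [if_neg h1, if_neg (fun h2 => h1 ((h p l).1 h2))]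
  have hdiv : q ∣ n * (n + 1) * (n - 1) * (n ^ 2 + n + 1) := by
    by_contra hc
    have h1 := odd_sub P L σ τ h q k hq hσ n hn hc
    rw [Nat.card_eq_fintype_card] at h1
    exact (Nat.not_odd_iff_even.2 hev) h1
  have hq2 : q ≠ 2 := by
    rintro rfl
    have : Fact (Nat.Prime 2) := ⟨hq⟩
    let f : Function.End P := fun x => σ x
    have h3 : ∀ m : ℕ, ∀ x, (f ^ m) x = (σ ^ m) x := by
      intro m
      induction m with
      | zero => intro x; rfl
      | succ m ih =>
        intro x
        rw [pow_succ, pow_succ]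
        exact ih (σ x)
    have h1 := Equiv.Perm.card_fixedPoints_modEq (f := f) (p := 2) (n := k) (by
      funext x
      rw [h3, hσ]
      rfl)
    have h2 : Fintype.card (Function.fixedPoints f) = Fintype.card {p // σ p = p} :=
      Fintype.card_congr (Equiv.refl _)
    rw [h2, hcard] at h1
    have h4 : (n ^ 2 + n + 1) % 2 = Fintype.card {p // σ p = p} % 2 := h1
    have h5 := Nat.odd_iff.1 hodd
    have h6 := Nat.even_iff.1 hev
    omega
  refine ⟨hq2, hdiv, ?_⟩
  intro p hp hpq hpn
  have : Fact q.Prime := ⟨hq⟩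
  have : Fact p.Prime := ⟨hp⟩
  have hq3 : 2 < q := by
    have := hq.two_le
    omega
  by_contra hcon
  rw [Nat.not_odd_iff_even] at hcon
  have hp0 : (p : ZMod q) ≠ 0 := by
    rw [Ne, ZMod.natCast_eq_zero_iff]
    intro h1
    exact hpq ((Nat.prime_dvd_prime_iff_eq hq hp).1 h1).symm
  have hpos : 0 < orderOf (p : ZMod q) := by
    have h1 : (p : ZMod q) ^ (q - 1) = 1 := ZMod.pow_card_sub_one_eq_one hp0
    rw [orderOf_pos_iff]
    exact isOfFinOrder_iff_pow_eq_one.2 ⟨q - 1, by omega, h1⟩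
  obtain ⟨j, hj⟩ := hcon
  have hj0 : 0 < j := by omega
  have h1 : ((p : ZMod q) ^ j) ^ 2 = 1 := by
    rw [← pow_mul, mul_two, ← hj]; exact pow_orderOf_eq_one _
  have h2 : (p : ZMod q) ^ j ≠ 1 := by
    intro h3
    have := Nat.le_of_dvd hj0 (orderOf_dvd_of_pow_eq_one h3)
    omega
  have h3 : (p : ZMod q) ^ j = -1 := by
    rcases sq_eq_one_iff_zmod h1 with h | h
    · exact absurd h h2
    · exact h
  have hjd : q ∣ p ^ j + 1 := by
    rw [← ZMod.natCast_eq_zero_iff]
    push_cast
    rw [h3]; ring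
  have h4 := Pool.Agent.H10.FP.even_moved_pp hsys σ τ hinv hq hq3 hσ hτ hp hjd (by simpa using hpn)
  have h5 : Fintype.card {r // σ r ≠ r} = Fintype.card {p // σ p ≠ p} := rfl
  exact (Nat.not_odd_iff_even.2 h4) hmov

end Pool.Agent.H12.FO
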