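import Pool.Agent.H12.FO.Fin

/-!
FO Main: the exceptional set.
-/

set_option autoImplicit false

namespace Pool.Agent.H12.FO

open Finset Configuration Filter Topology

/-- some projective plane of order `n` has a collineation `f ≠ 1` whose order is a power of a
prime `q` and which has an even number of fixed points, or for which `q` is a prime divisor of
`n² + n + 1` larger than `n ^ (1 / 2 + δ)` -/
def HasBad (δ : ℝ) (n : ℕ) : Prop :=
  ∃ (P L : Type) (_ : Membership P L) (_ : Finite P) (_ : Finite L) (_ : ProjectivePlane P L),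
    ProjectivePlane.order P L = n ∧
    ∃ (f : Equiv.Perm P) (g : Equiv.Perm L) (q k : ℕ), q.Prime ∧ f ≠ 1 ∧ f ^ (q ^ k) = 1 ∧
      (∀ (p : P) (l : L), f p ∈ g l ↔ p ∈ l) ∧
      (Even (Nat.card {p // f p = p}) ∨ (q ∣ n ^ 2 + n + 1 ∧ (n : ℝ) ^ (1 / 2 + δ) < q))

/-- the arithmetic exceptional set -/
def Exc (δ : ℝ) (n : ℕ) : Prop :=
  (∃ q : ℕ, q.Prime ∧ q ≠ 2 ∧ q ∣ n * (n + 1) * (n - 1) * (n ^ 2 + n + 1) ∧
    ∀ p : ℕ, p.Prime → p ≠ q → Odd (padicValNat p n) → Odd (orderOf (p : ZMod q))) ∨
  (∃ q m : ℕ, q.Prime ∧ q ∣ n ^ 2 + n + 1 ∧ (n : ℝ) ^ (1 / 2 + δ) < q ∧ m ^ 2 ≤ n ∧ m < n ∧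
    m ≡ n [MOD q])

theorem exc_of_bad (δ : ℝ) (hδ : 0 < δ) (n : ℕ) (h : HasBad δ n) : Exc δ n := by
  obtain ⟨P, L, _, _, _, _, hn, f, g, q, k, hq, hf1, hf, hmem, h⟩ := h
  by_cases hev : Even (Nat.card {p // f p = p})
  · obtain ⟨h1, h2, h3⟩ := even_fixed P L f g hmem q k hq hf n hn hev
    exact Or.inl ⟨q, hq, h1, h2, h3⟩
  · rcases h with h | ⟨hqd, hql⟩
    · exact absurd h hev
    · have hn1 : 1 < n := by
        rw [← hn]
        exact ProjectivePlane.one_lt_order P L
      have hq2 : q ≠ 2 := by
        rintro rfl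
        exact (Nat.not_odd_iff_even.2 (even_iff_two_dvd.2 hqd)) (odd_v n)
      by_cases hB : q ∣ n * (n + 1) * (n - 1)
      · -- `q = 3`
        left
        have hq3 : q ∣ 3 := by
          rcases (Nat.Prime.dvd_mul hq).1 hB with h1 | h1
          · have h2 : q ∣ n ^ 2 + n := by
              have : n ^ 2 + n = n * (n + 1) := by ring
              rw [this]; exact h1
            have h3 := (Nat.dvd_add_right h2).1 hqd
            exact h3.trans (one_dvd 3)
          · have h2 : n ^ 2 + n + 1 = (n - 1) * (n + 2) + 3 := by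
              obtain ⟨t, rfl⟩ : ∃ t, n = t + 1 := ⟨n - 1, by omega⟩
              rw [Nat.add_sub_cancel]
              ring
            rw [h2] at hqd
            exact (Nat.dvd_add_right (Dvd.dvd.mul_right h1 _)).1 hqd
        have hq3' : q = 3 := (Nat.prime_dvd_prime_iff_eq hq Nat.prime_three).1 hq3
        subst hq3'
        have hn9 : n < 9 := by
          by_contra hc
          push Not at hc
          have h1 : (3 : ℝ) ≤ (n : ℝ) ^ (1 / 2 + δ) := by
            have h9 : (9 : ℝ) ≤ n := by exact_mod_cast hc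
            calc (3 : ℝ) = (9 : ℝ) ^ (1 / 2 : ℝ) := by
                  rw [← Real.sqrt_eq_rpow, show (9 : ℝ) = 3 ^ 2 by norm_num,
                    Real.sqrt_sq (by norm_num)]
              _ ≤ (n : ℝ) ^ (1 / 2 : ℝ) := Real.rpow_le_rpow (by norm_num) h9 (by norm_num)
              _ ≤ (n : ℝ) ^ (1 / 2 + δ) := Real.rpow_le_rpow_of_exponent_le (by linarith) (by linarith)
          push_cast at hql
          linarith
        refine ⟨3, hq, by norm_num, Dvd.dvd.mul_left hqd _, ?_⟩
        intro p hp hp3 hpn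
        have hpd : p ∣ n := by
          by_contra hcon
          have : Fact p.Prime := ⟨hp⟩
          rw [padicValNat.eq_zero_of_not_dvd hcon] at hpn
          exact absurd hpn (by decide)
        have hp7 : p < 8 := lt_of_le_of_lt (Nat.le_of_dvd (by omega) hpd) (by
          have h1 : n ≠ 8 := by rintro rfl; revert hqd; decide
          omega)
        have hnn : n = 4 ∨ n = 7 := by
          interval_cases n <;> revert hqd <;> simp <;> decide
        rcases hnn with rfl | rfl
        · have hp2 : p = 2 := by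
            have h1 : p ∣ 2 ^ 2 := by simpa using hpd
            exact (Nat.prime_dvd_prime_iff_eq hp Nat.prime_two).1 (hp.dvd_of_dvd_pow h1)
          subst hp2
          exfalso
          have : Fact (Nat.Prime 2) := ⟨Nat.prime_two⟩
          have h1 : padicValNat 2 4 = 2 := by
            rw [show 4 = 2 ^ 2 by norm_num, padicValNat.prime_pow]
          rw [h1] at hpn
          exact absurd hpn (by decide)
        · have hp2 : p = 7 := (Nat.prime_dvd_prime_iff_eq hp (by norm_num)).1 hpd
          subst hp2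
          have h1 : ((7 : ℕ) : ZMod 3) = 1 := by decide
          rw [h1, orderOf_one]
          decide
      · right
        have hodd : Odd (Nat.card {p // f p = p}) := Nat.not_even_iff_odd.1 hev
        have hfix : ∃ p, f p = p := by
          by_contra hc
          push Not at hc
          have h1 : IsEmpty {p // f p = p} := ⟨fun x => hc x.1 x.2⟩
          rw [Nat.card_of_isEmpty] at hodd
          exact absurd hodd (by decide)
        obtain ⟨m, hm1, hm2, hm3⟩ := fix_plane P L f g hmem q k hq hf n hn hB hfix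
        have hm4 := hm3 hf1
        refine ⟨q, m, hq, hqd, hql, hm4, ?_, hm2⟩
        by_contra hc
        push Not at hc
        have h1 : n ^ 2 ≤ m ^ 2 := Nat.pow_le_pow_left hc 2
        have h2 : n * 2 ≤ n ^ 2 := by
          rw [pow_two]
          exact Nat.mul_le_mul_left n hn1
        omega

theorem tq_of_odds (n q : ℕ) (hq : q.Prime)
    (h : ∀ p : ℕ, p.Prime → p ≠ q → Odd (padicValNat p n) → Odd (orderOf (p : ZMod q)))
    (hn : n ≠ 0) : Tq n q := by
  intro p hp hpn hpn2
  by_cases hpq : p = q
  · subst hpq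
    exact ⟨0, by simp⟩
  · have : Fact p.Prime := ⟨hp⟩
    have hv : padicValNat p n = 1 := by
      have h1 : 1 ≤ padicValNat p n := one_le_padicValNat_of_dvd hn hpn
      have h2 : padicValNat p n < 2 := by
        by_contra hc
        push Not at hc
        exact hpn2 ((padicValNat_dvd_iff_le hn).2 hc)
      omega
    obtain ⟨j, hj⟩ := h p hp hpq (by rw [hv]; decide)
    have h1 : (p : ZMod q) ^ (2 * j + 1) = 1 := by
      rw [← hj]
      exact pow_orderOf_eq_one _
    refine ⟨(p : ZMod q) ^ (j + 1), ?_⟩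
    calc (p : ZMod q) = (p : ZMod q) ^ (2 * j + 1) * p := by rw [h1, one_mul]
      _ = (p : ZMod q) ^ (j + 1) * (p : ZMod q) ^ (j + 1) := by ring

end Pool.Agent.H12.FO
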