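import Mathlib

/-!
PROJECT FO, module Sub: the exceptional set for the primes `q ∣ n² + n + 1`, `q > n^(1/2+δ)`.
-/

set_option autoImplicit false

namespace Pool.Agent.H12.FO

open Finset

/-- at most one large prime divides `m² + m + 1` -/
private theorem sub_unique {Q : ℝ} (hQ : 0 ≤ Q) {N q q' : ℕ} (hN : 0 < N) (hq : q.Prime)
    (hq' : q'.Prime) (h : q ∣ N) (h' : q' ∣ N) (hQq : Q < q) (hQq' : Q < q')
    (hNQ : (N : ℝ) ≤ Q ^ 2) : q = q' := by
  by_contra hne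
  have h1 : q * q' ∣ N := Nat.Coprime.mul_dvd_of_dvd_of_dvd ((Nat.coprime_primes hq hq').2 hne) h h'
  have h2 : q * q' ≤ N := Nat.le_of_dvd hN h1
  have h3 : (q : ℝ) * q' ≤ N := by exact_mod_cast h2
  have h4 : Q * Q < (q : ℝ) * q' := mul_lt_mul'' hQq hQq' hQ hQ
  nlinarith

private theorem sub_class {q x m : ℕ} (hq : 0 < q) (T : Finset ℕ)
    (hT : ∀ n ∈ T, n ≤ x ∧ m ≡ n [MOD q]) : T.card ≤ x / q + 1 := by
  have h : T.card ≤ (range (x / q + 1)).card := by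
    refine card_le_card_of_injOn (fun n => n / q) ?_ ?_
    · intro n hn
      rw [mem_coe, mem_range]
      exact Nat.lt_succ_of_le (Nat.div_le_div_right (hT n hn).1)
    · intro n hn n' hn' h
      have h1 := (hT n hn).2
      have h2 := (hT n' hn').2
      have h3 : n % q = n' % q := (h1.symm.trans h2)
      simp only at h
      rw [← Nat.div_add_mod n q, ← Nat.div_add_mod n' q, h, h3]
  rwa [card_range] at h

/-- the count with a general splitting point `y` -/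
private theorem sub_core {δ : ℝ} (hδ : 0 < δ) {x : ℕ} (hx : 1 ≤ x) {y Q : ℝ} (hy0 : 0 < y)
    (hQ : Q = y ^ (1 / 2 + δ)) (hQ2 : 3 * (x : ℝ) ≤ Q ^ 2) (S : Finset ℕ)
    (hS : ∀ n ∈ S, n ≤ x ∧ ∃ q m : ℕ, q.Prime ∧ q ∣ n ^ 2 + n + 1 ∧
      (n : ℝ) ^ (1 / 2 + δ) < q ∧ m ^ 2 ≤ n ∧ m < n ∧ m ≡ n [MOD q]) :
    (S.card : ℝ) ≤ y + 1 + (√(x : ℝ) + 1) * (x / Q + 1) := by
  have hx1 : (1 : ℝ) ≤ x := by exact_mod_cast hx
  have hx0 : (0 : ℝ) < x := by linarith
  have hQ0 : 0 < Q := by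
    rw [hQ]
    exact Real.rpow_pos_of_pos hy0 _
  classical
  choose! qq mm hqm using fun n hn => (hS n hn).2
  set S2 := S.filter (fun n : ℕ => y < (n : ℝ)) with hS2
  have hsplit : S.card ≤ (S.filter (fun n : ℕ => ¬ y < (n : ℝ))).card + S2.card := by
    have e0 := Finset.card_filter_add_card_filter_not (s := S) (fun n : ℕ => y < (n : ℝ))
    rw [← hS2] at e0
    omega
  have hc1 : ((S.filter (fun n : ℕ => ¬ y < (n : ℝ))).card : ℝ) ≤ y + 1 := by
    have e1 : S.filter (fun n : ℕ => ¬ y < (n : ℝ)) ⊆ range (⌊y⌋₊ + 1) := by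
      intro n hn
      rw [mem_filter, not_lt] at hn
      rw [mem_range]
      exact Nat.lt_succ_of_le (Nat.le_floor hn.2)
    have e2 := card_le_card e1
    rw [card_range] at e2
    have e3 : ((S.filter (fun n : ℕ => ¬ y < (n : ℝ))).card : ℝ) ≤ (⌊y⌋₊ : ℝ) + 1 := by
      exact_mod_cast e2
    have e4 := Nat.floor_le hy0.le
    linarith
  have hprop : ∀ n ∈ S2, n ≤ x ∧ (qq n).Prime ∧ qq n ∣ mm n ^ 2 + mm n + 1 ∧ Q < qq n ∧
      mm n ^ 2 ≤ x ∧ mm n ≡ n [MOD qq n] := by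
    intro n hn
    rw [hS2, mem_filter] at hn
    obtain ⟨hn1, hn2⟩ := hn
    obtain ⟨e1, e2, e3, e4, e5, e6⟩ := hqm n hn1
    refine ⟨(hS n hn1).1, e1, ?_, ?_, e4.trans (hS n hn1).1, e6⟩
    · have e7 : mm n ^ 2 + mm n + 1 ≡ n ^ 2 + n + 1 [MOD qq n] :=
        ((e6.pow 2).add e6).add_right 1
      exact (Nat.modEq_zero_iff_dvd.1 (e7.trans (Nat.modEq_zero_iff_dvd.2 e2)))
    · refine lt_of_le_of_lt ?_ e3
      rw [hQ]
      exact Real.rpow_le_rpow hy0.le hn2.le (by positivity)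
  have hT : ∀ m : ℕ, ((S2.filter (fun n => mm n = m)).card : ℝ) ≤ x / Q + 1 := by
    intro m
    rcases (S2.filter (fun n => mm n = m)).eq_empty_or_nonempty with h0 | ⟨n₀, hn₀⟩
    · rw [h0]
      simp only [card_empty, Nat.cast_zero]
      positivity
    · rw [mem_filter] at hn₀
      obtain ⟨a1, a2, a3, a4, a5, a6⟩ := hprop n₀ hn₀.1
      have hall : ∀ n ∈ S2.filter (fun n => mm n = m), n ≤ x ∧ m ≡ n [MOD qq n₀] := by
        intro n hn
        rw [mem_filter] at hn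
        obtain ⟨b1, b2, b3, b4, b5, b6⟩ := hprop n hn.1
        rw [hn.2] at b3 b5 b6
        rw [hn₀.2] at a3
        have hq : qq n = qq n₀ := by
          refine sub_unique hQ0.le (Nat.succ_pos _) b2 a2 b3 a3 b4 a4 (le_trans ?_ hQ2)
          have e1 : m ≤ x := le_trans (Nat.le_self_pow (by norm_num) m) b5
          have e2 : m ^ 2 + m + 1 ≤ 3 * x := by omega
          exact_mod_cast e2
        rw [hq] at b6
        exact ⟨b1, b6⟩
      have e1 := sub_class a2.pos _ hall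
      have e2 : ((S2.filter (fun n => mm n = m)).card : ℝ) ≤ ((x / qq n₀ : ℕ) : ℝ) + 1 := by
        exact_mod_cast e1
      have e3 : ((x / qq n₀ : ℕ) : ℝ) ≤ (x : ℝ) / qq n₀ := Nat.cast_div_le
      have e4 : (x : ℝ) / qq n₀ ≤ x / Q := div_le_div_of_nonneg_left hx0.le hQ0 a4.le
      linarith
  have hc2 : (S2.card : ℝ) ≤ (√(x : ℝ) + 1) * (x / Q + 1) := by
    have e1 : S2 ⊆ (range (Nat.sqrt x + 1)).biUnion (fun m => S2.filter (fun n => mm n = m)) := by
      intro n hn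
      rw [mem_biUnion]
      refine ⟨mm n, ?_, mem_filter.2 ⟨hn, rfl⟩⟩
      rw [mem_range]
      refine Nat.lt_succ_of_le (Nat.le_sqrt'.2 (hprop n hn).2.2.2.2.1)
    have e2 := (card_le_card e1).trans card_biUnion_le
    have e3 : (S2.card : ℝ) ≤ ∑ m ∈ range (Nat.sqrt x + 1),
        ((S2.filter (fun n => mm n = m)).card : ℝ) := by exact_mod_cast e2
    refine e3.trans ((Finset.sum_le_sum fun m _ => hT m).trans ?_)
    rw [Finset.sum_const, card_range, nsmul_eq_mul]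
    refine mul_le_mul_of_nonneg_right ?_ (by positivity)
    push_cast
    have e4 : ((Nat.sqrt x : ℕ) : ℝ) ≤ √(x : ℝ) := Real.nat_sqrt_le_real_sqrt
    linarith
  have hcard : (S.card : ℝ) ≤ ((S.filter (fun n : ℕ => ¬ y < (n : ℝ))).card : ℝ) + S2.card := by
    exact_mod_cast hsplit
  linarith

theorem sub_eventually (δ : ℝ) (hδ : 0 < δ) (ε : ℝ) (hε : 0 < ε) : ∀ᶠ x : ℕ in Filter.atTop,
    ∀ S : Finset ℕ, (∀ n ∈ S, n ≤ x ∧ ∃ q m : ℕ, q.Prime ∧ q ∣ n ^ 2 + n + 1 ∧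
      (n : ℝ) ^ (1 / 2 + δ) < q ∧ m ^ 2 ≤ n ∧ m < n ∧ m ≡ n [MOD q]) →
    (S.card : ℝ) ≤ ε * x := by
  set c : ℝ := (ε / 2) ^ (1 / 2 + δ) with hc
  have hc0 : 0 < c := Real.rpow_pos_of_pos (by positivity) _
  -- the asymptotic conditions
  have hA : ∀ K : ℝ, ∀ᶠ x : ℕ in Filter.atTop, K ≤ (x : ℝ) ^ δ := fun K =>
    ((tendsto_rpow_atTop hδ).comp tendsto_natCast_atTop_atTop).eventually_ge_atTop K
  have hB : ∀ K : ℝ, ∀ᶠ x : ℕ in Filter.atTop, K ≤ √(x : ℝ) := fun K =>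
    (Real.tendsto_sqrt_atTop.comp tendsto_natCast_atTop_atTop).eventually_ge_atTop K
  filter_upwards [hA (3 / c), hA (16 / (c * ε)), hB 1, hB (32 / ε), hA 1,
    Filter.eventually_ge_atTop 1] with x h1 h2 h3 h4 h5 h6 S hS
  have hx1 : (1 : ℝ) ≤ x := by exact_mod_cast h6
  have hx0 : (0 : ℝ) < x := by linarith
  set y : ℝ := ε / 2 * x with hy
  have hy0 : 0 < y := by positivity
  set Q : ℝ := y ^ (1 / 2 + δ) with hQ
  have hs : √(x : ℝ) * √(x : ℝ) = x := Real.mul_self_sqrt hx0.le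
  have hs0 : 0 < √(x : ℝ) := Real.sqrt_pos.2 hx0
  have hQe : Q = c * (√(x : ℝ) * (x : ℝ) ^ δ) := by
    rw [hQ, hy, Real.mul_rpow (by positivity) hx0.le, ← hc, Real.rpow_add hx0,
      Real.sqrt_eq_rpow]
  have hQ0 : 0 < Q := Real.rpow_pos_of_pos hy0 _
  have hQ1 : 3 * √(x : ℝ) ≤ Q := by
    rw [hQe]
    have e1 : 3 ≤ c * (x : ℝ) ^ δ := by
      rw [div_le_iff₀ hc0] at h1
      linarith
    nlinarith
  have hQ2 : 3 * (x : ℝ) ≤ Q ^ 2 := by
    have e1 : (3 * √(x : ℝ)) ^ 2 ≤ Q ^ 2 := pow_le_pow_left₀ (by positivity) hQ1 2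
    have e2 : (3 * √(x : ℝ)) ^ 2 = 9 * x := by
      rw [mul_pow, sq (√(x : ℝ)), hs]
      ring
    linarith
  have hQ3 : 16 / ε * √(x : ℝ) ≤ Q := by
    rw [hQe]
    have e1 : 16 / ε ≤ c * (x : ℝ) ^ δ := by
      rw [div_le_iff₀ (by positivity)] at h2
      rw [div_le_iff₀ hε]
      linarith
    nlinarith
  have hfin : (√(x : ℝ) + 1) * (x / Q + 1) ≤ ε / 4 * x := by
    have e1 : √(x : ℝ) + 1 ≤ 2 * √(x : ℝ) := by linarith
    have e2 : (x : ℝ) / Q ≤ ε / 16 * √(x : ℝ) := by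
      rw [div_le_iff₀ hQ0]
      have e3 : ε / 16 * √(x : ℝ) * (16 / ε * √(x : ℝ)) ≤ ε / 16 * √(x : ℝ) * Q :=
        mul_le_mul_of_nonneg_left hQ3 (by positivity)
      have e4 : ε / 16 * √(x : ℝ) * (16 / ε * √(x : ℝ)) = x := by
        have : ε / 16 * √(x : ℝ) * (16 / ε * √(x : ℝ)) = √(x : ℝ) * √(x : ℝ) := by
          field_simp
        rw [this, hs]
      linarith
    have e5 : (1 : ℝ) ≤ ε / 32 * √(x : ℝ) := by
      rw [div_le_iff₀ hε] at h4
      linarith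
    calc (√(x : ℝ) + 1) * (x / Q + 1) ≤ (2 * √(x : ℝ)) * (ε / 16 * √(x : ℝ) + ε / 32 * √(x : ℝ)) := by
          refine mul_le_mul e1 (by linarith) (by positivity) (by positivity)
      _ = 3 * ε / 16 * (√(x : ℝ) * √(x : ℝ)) := by ring
      _ = 3 * ε / 16 * x := by rw [hs]
      _ ≤ ε / 4 * x := by nlinarith
  have hlast : (1 : ℝ) ≤ ε / 4 * x := by
    have e5 : (1 : ℝ) ≤ ε / 32 * √(x : ℝ) := by
      rw [div_le_iff₀ hε] at h4
      linarith
    have e6 : √(x : ℝ) ≤ x := by nlinarith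
    nlinarith
  have hcard := sub_core hδ h6 hy0 hQ hQ2 S hS
  have : y = ε / 2 * x := hy
  linarith

theorem sub_rate (δ : ℝ) (hδ : 0 < δ) : ∃ C : ℝ, 0 < C ∧ ∀ x : ℕ, 16 ≤ x → ∀ S : Finset ℕ,
    (∀ n ∈ S, n ≤ x ∧ ∃ q m : ℕ, q.Prime ∧ q ∣ n ^ 2 + n + 1 ∧
      (n : ℝ) ^ (1 / 2 + δ) < q ∧ m ^ 2 ≤ n ∧ m < n ∧ m ≡ n [MOD q]) →
    (S.card : ℝ) ≤ C * x * Real.log (Real.log x) / (Real.log x) ^ (1 / 4 : ℝ) := by
  -- the asymptotic condition
  have hA : ∀ᶠ x : ℝ in Filter.atTop, 16 * (Real.log x) ^ (3 / 2 : ℝ) ≤ x ^ (δ / 2) := by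
    have h := (isLittleO_log_rpow_rpow_atTop (3 / 2 : ℝ) (show 0 < δ / 2 by positivity)).bound
      (show (0 : ℝ) < 1 / 16 by norm_num)
    filter_upwards [h, Filter.eventually_ge_atTop 1] with x hx hx1
    rw [Real.norm_of_nonneg (Real.rpow_nonneg (Real.log_nonneg hx1) _),
      Real.norm_of_nonneg (by positivity)] at hx
    linarith
  have hB : ∀ᶠ x : ℝ in Filter.atTop, 16 * Real.log x ≤ √x := by
    have h := (isLittleO_log_rpow_atTop (show (0 : ℝ) < 1 / 2 by norm_num)).bound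
      (show (0 : ℝ) < 1 / 16 by norm_num)
    filter_upwards [h, Filter.eventually_ge_atTop 1] with x hx hx1
    rw [Real.norm_of_nonneg (Real.log_nonneg hx1), Real.norm_of_nonneg (by positivity)] at hx
    rw [Real.sqrt_eq_rpow]
    linarith
  obtain ⟨x₀, hx₀⟩ := Filter.eventually_atTop.1 (hA.and hB)
  set B : ℝ := max x₀ 16 with hBdef
  have hB16 : (16 : ℝ) ≤ B := le_max_right _ _
  have hlog : ∀ x : ℝ, 16 ≤ x → 2 ≤ Real.log x := by
    intro x hx
    rw [Real.le_log_iff_exp_le (by linarith)]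
    have h1 : Real.exp 2 = Real.exp 1 ^ 2 := by
      rw [← Real.exp_nat_mul]
      norm_num
    have h2 := Real.exp_one_lt_d9
    have h3 := Real.exp_pos 1
    rw [h1]
    nlinarith
  have hloglog : ∀ x : ℝ, 16 ≤ x → 1 ≤ Real.log (Real.log x) := by
    intro x hx
    have h0 := hlog x hx
    rw [Real.le_log_iff_exp_le (by linarith), Real.le_log_iff_exp_le (by linarith)]
    have h1 : Real.exp (Real.exp 1) ≤ 16 := by
      have h2 : Real.exp 1 ≤ 68 / 25 := by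
        have := Real.exp_one_lt_d9
        linarith
      have h3 : Real.exp (Real.exp 1) ≤ Real.exp (68 / 25) := Real.exp_le_exp.2 h2
      have h4 : Real.exp (68 / 25) ^ 25 ≤ 16 ^ 25 := by
        rw [← Real.exp_nat_mul]
        have h5 : ((25 : ℕ) : ℝ) * (68 / 25) = ((68 : ℕ) : ℝ) * 1 := by norm_num
        rw [h5, Real.exp_nat_mul]
        have h6 : Real.exp 1 ≤ 2.7182818286 := Real.exp_one_lt_d9.le
        calc Real.exp 1 ^ 68 ≤ (2.7182818286 : ℝ) ^ 68 :=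
              pow_le_pow_left₀ (Real.exp_pos _).le h6 68
          _ ≤ 16 ^ 25 := by norm_num
      exact h3.trans (le_of_pow_le_pow_left₀ (by norm_num) (by norm_num) h4)
    linarith
  set M : ℝ := (Real.log B) ^ (1 / 4 : ℝ) with hM
  have hM0 : 0 < M := Real.rpow_pos_of_pos (by have := hlog B hB16; linarith) _
  refine ⟨3 + 2 * M, by positivity, fun x hx S hS => ?_⟩
  have hx16 : (16 : ℝ) ≤ x := by exact_mod_cast hx
  have hx0 : (0 : ℝ) < x := by linarith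
  have hL := hlog x hx16
  have hLL := hloglog x hx16
  set Lg : ℝ := Real.log x with hLg
  have hL0 : 0 < Lg := by linarith
  have hP0 : 0 < Lg ^ (1 / 4 : ℝ) := Real.rpow_pos_of_pos hL0 _
  by_cases hxB : (x : ℝ) ≤ B
  · -- small x
    have h1 : (S.card : ℝ) ≤ 2 * x := by
      have e1 : S ⊆ range (x + 1) := by
        intro n hn
        rw [mem_range]
        exact Nat.lt_succ_of_le (hS n hn).1
      have e2 := card_le_card e1
      rw [card_range] at e2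
      have e3 : S.card ≤ 2 * x := by omega
      exact_mod_cast e3
    have h2 : Lg ^ (1 / 4 : ℝ) ≤ M :=
      Real.rpow_le_rpow hL0.le (Real.log_le_log hx0 hxB) (by norm_num)
    rw [le_div_iff₀ hP0]
    calc (S.card : ℝ) * Lg ^ (1 / 4 : ℝ) ≤ 2 * x * M := by
          exact mul_le_mul h1 h2 hP0.le (by positivity)
      _ ≤ (3 + 2 * M) * x * 1 := by nlinarith
      _ ≤ (3 + 2 * M) * x * Real.log Lg := by
          exact mul_le_mul_of_nonneg_left hLL (by positivity)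
  · -- large x
    have hxx₀ : x₀ ≤ (x : ℝ) := by
      have := le_max_left x₀ 16
      linarith
    obtain ⟨ha, hb⟩ := hx₀ x hxx₀
    rw [← hLg] at ha hb
    have hs : √(x : ℝ) * √(x : ℝ) = x := Real.mul_self_sqrt hx0.le
    have hs0 : 0 < √(x : ℝ) := Real.sqrt_pos.2 hx0
    have hy0 : 0 < (x : ℝ) / Lg := by positivity
    set Q : ℝ := ((x : ℝ) / Lg) ^ (1 / 2 + δ) with hQ
    have hQ0 : 0 < Q := Real.rpow_pos_of_pos hy0 _
    have hyx : √(x : ℝ) ≤ (x : ℝ) / Lg := by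
      rw [le_div_iff₀ hL0]
      calc √(x : ℝ) * Lg ≤ √(x : ℝ) * √(x : ℝ) := by
            refine mul_le_mul_of_nonneg_left ?_ hs0.le
            linarith
        _ = x := hs
    have hQlow : 16 * Lg * √(x : ℝ) ≤ Q := by
      rw [hQ, Real.rpow_add hy0, ← Real.sqrt_eq_rpow, Real.sqrt_div hx0.le]
      have e1 : (x : ℝ) ^ (δ / 2) ≤ ((x : ℝ) / Lg) ^ δ := by
        have e2 : (x : ℝ) ^ (δ / 2) = (√(x : ℝ)) ^ δ := by
          rw [Real.sqrt_eq_rpow, ← Real.rpow_mul hx0.le]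
          congr 1
          ring
        rw [e2]
        exact Real.rpow_le_rpow hs0.le hyx hδ.le
      have e2 : 16 * Lg ^ (3 / 2 : ℝ) ≤ ((x : ℝ) / Lg) ^ δ := ha.trans e1
      have e3 : Lg ^ (3 / 2 : ℝ) = Lg * √Lg := by
        rw [Real.sqrt_eq_rpow, show (3 / 2 : ℝ) = 1 + 1 / 2 by norm_num, Real.rpow_add hL0,
          Real.rpow_one]
      have hsL : 0 < √Lg := Real.sqrt_pos.2 hL0
      calc 16 * Lg * √(x : ℝ) = √(x : ℝ) / √Lg * (16 * (Lg * √Lg)) := by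
            field_simp
        _ ≤ √(x : ℝ) / √Lg * ((x : ℝ) / Lg) ^ δ := by
            rw [← e3]
            exact mul_le_mul_of_nonneg_left e2 (by positivity)
    have hQ2 : 3 * (x : ℝ) ≤ Q ^ 2 := by
      have e1 : 3 * √(x : ℝ) ≤ Q := by nlinarith
      have e2 : (3 * √(x : ℝ)) ^ 2 ≤ Q ^ 2 := pow_le_pow_left₀ (by positivity) e1 2
      have e3 : (3 * √(x : ℝ)) ^ 2 = 9 * x := by
        rw [mul_pow, sq (√(x : ℝ)), hs]
        ring
      linarith
    have hcard := sub_core hδ (by omega) hy0 hQ hQ2 S hS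
    have h1 : (x : ℝ) / Q ≤ √(x : ℝ) / (16 * Lg) := by
      rw [div_le_div_iff₀ hQ0 (by positivity)]
      have e0 : √(x : ℝ) * (16 * Lg * √(x : ℝ)) = (√(x : ℝ) * √(x : ℝ)) * (16 * Lg) := by ring
      calc (x : ℝ) * (16 * Lg) = √(x : ℝ) * (16 * Lg * √(x : ℝ)) := by rw [e0, hs]
        _ ≤ √(x : ℝ) * Q := mul_le_mul_of_nonneg_left hQlow hs0.le
    have h2 : (1 : ℝ) ≤ √(x : ℝ) / (16 * Lg) := by
      rw [le_div_iff₀ (by positivity)]
      linarith
    have h3 : (1 : ℝ) ≤ √(x : ℝ) := by linarith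
    have h4 : (√(x : ℝ) + 1) * (x / Q + 1) ≤ x / Lg := by
      calc (√(x : ℝ) + 1) * (x / Q + 1) ≤ (2 * √(x : ℝ)) * (2 * (√(x : ℝ) / (16 * Lg))) := by
            refine mul_le_mul (by linarith) (by linarith) (by positivity) (by positivity)
        _ = (√(x : ℝ) * √(x : ℝ)) / (4 * Lg) := by
            field_simp
            ring
        _ = x / (4 * Lg) := by rw [hs]
        _ ≤ x / Lg := by
            apply div_le_div_of_nonneg_left hx0.le hL0
            linarith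
    have h5 : (1 : ℝ) ≤ x / Lg := by
      have : (1 : ℝ) ≤ √(x : ℝ) := h3
      linarith
    have h6 : (S.card : ℝ) ≤ 3 * (x / Lg) := by linarith
    have h7 : Lg ^ (1 / 4 : ℝ) ≤ Lg := by
      calc Lg ^ (1 / 4 : ℝ) ≤ Lg ^ (1 : ℝ) :=
            Real.rpow_le_rpow_of_exponent_le (by linarith) (by norm_num)
        _ = Lg := Real.rpow_one _
    have h8 : x / Lg ≤ x / Lg ^ (1 / 4 : ℝ) := div_le_div_of_nonneg_left hx0.le hP0 h7
    calc (S.card : ℝ) ≤ 3 * (x / Lg ^ (1 / 4 : ℝ)) := by linarith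
      _ = 3 * x * 1 / Lg ^ (1 / 4 : ℝ) := by ring
      _ ≤ (3 + 2 * M) * x * Real.log Lg / Lg ^ (1 / 4 : ℝ) := by
          refine div_le_div_of_nonneg_right ?_ hP0.le
          refine mul_le_mul ?_ hLL (by norm_num) (by positivity)
          nlinarith

end Pool.Agent.H12.FO
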