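import Pool.Agent.H12.FO.Main
import Pool.Agent.H12.FO.Sub
import Pool.Agent.H12.FO.AsmR
import Pool.Agent.H80.FP.RATE

/-!
FO Rate: the number of exceptional `n` up to `x`.
-/

set_option autoImplicit false

namespace Pool.Agent.H12.FO

open Finset

theorem exc_rate (δ : ℝ) (hδ : 0 < δ) : ∃ C : ℝ, 0 < C ∧ ∀ x : ℕ, 16 ≤ x → ∀ S : Finset ℕ,
    (∀ n ∈ S, n ≤ x ∧ Exc δ n) →
    (S.card : ℝ) ≤ C * x * Real.log (Real.log x) / Real.log x ^ (1 / 4 : ℝ) := by
  classical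
  obtain ⟨C1, hC1, h1⟩ := Pool.Agent.H80.FP.tst_rate
  obtain ⟨C2, hC2, h2⟩ := AsmR.bad_rate
  obtain ⟨C3, hC3, h3⟩ := sub_rate δ hδ
  refine ⟨2 + C1 + (C2 + C3), by positivity, ?_⟩
  intro x hx S hS
  have h1 := h1 x hx
  have h2 := h2 x hx
  have h3 := h3 x hx
  set S0 := S.filter (fun n => n < 2) with hS0
  set S1 := S.filter (fun n => 1 ≤ n ∧ Pool.Agent.H80.FP.Tst n) with hS1
  set S2 := S.filter (fun n => 2 ≤ n ∧ ∃ q, BadP n q) with hS2
  set S3 := S.filter (fun n => ∃ q m : ℕ, q.Prime ∧ q ∣ n ^ 2 + n + 1 ∧ (n : ℝ) ^ (1 / 2 + δ) < q ∧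
    m ^ 2 ≤ n ∧ m < n ∧ m ≡ n [MOD q]) with hS3
  have hsub : S ⊆ (S0 ∪ S1) ∪ (S2 ∪ S3) := by
    intro n hn
    obtain ⟨hnx, h⟩ := hS n hn
    by_cases h0 : n < 2
    · exact mem_union_left _ (mem_union_left _ (mem_filter.2 ⟨hn, h0⟩))
    · rcases h with ⟨q, hq, hq2, hqd, ho⟩ | h
      · have hT := tq_of_odds n q hq ho (by omega)
        rcases (Nat.Prime.dvd_mul hq).1 hqd with h5 | h5
        · exact mem_union_right _ (mem_union_left _ (mem_filter.2 ⟨hn, by omega, q, hq, hq2, h5, hT⟩))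
        · exact mem_union_left _ (mem_union_right _ (mem_filter.2 ⟨hn, by omega, q, hq, h5, hT⟩))
      · exact mem_union_right _ (mem_union_right _ (mem_filter.2 ⟨hn, h⟩))
  -- the main term is at least one
  have hxR : (16 : ℝ) ≤ x := by exact_mod_cast hx
  have hx0 : (0 : ℝ) < x := by linarith
  have hl1 : Real.exp 1 ≤ Real.log x := by
    have h4 : Real.log 16 ≤ Real.log x := Real.log_le_log (by norm_num) hxR
    have h5 : Real.log 16 = 4 * Real.log 2 := by
      rw [show (16 : ℝ) = 2 ^ 4 by norm_num, Real.log_pow]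
      norm_num
    have h6 := Real.log_two_gt_d9
    have h7 := Real.exp_one_lt_d9
    linarith
  have hl0 : 0 < Real.log x := lt_of_lt_of_le (Real.exp_pos 1) hl1
  have hl2 : 1 ≤ Real.log x := le_trans (by have := Real.add_one_le_exp (1 : ℝ); linarith) hl1
  have hll : 1 ≤ Real.log (Real.log x) := (Real.le_log_iff_exp_le hl0).2 hl1
  have hp0 : 0 < Real.log x ^ (1 / 4 : ℝ) := Real.rpow_pos_of_pos hl0 _
  have hp1 : Real.log x ^ (1 / 4 : ℝ) ≤ x := by
    calc Real.log x ^ (1 / 4 : ℝ) ≤ Real.log x ^ (1 : ℝ) :=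
          Real.rpow_le_rpow_of_exponent_le hl2 (by norm_num)
      _ = Real.log x := Real.rpow_one _
      _ ≤ x := by
        have := Real.log_le_sub_one_of_pos hx0
        linarith
  have hM : 1 ≤ x * Real.log (Real.log x) / Real.log x ^ (1 / 4 : ℝ) := by
    rw [le_div_iff₀ hp0, one_mul]
    calc Real.log x ^ (1 / 4 : ℝ) ≤ x := hp1
      _ = x * 1 := (mul_one _).symm
      _ ≤ x * Real.log (Real.log x) := mul_le_mul_of_nonneg_left hll hx0.le
  set M := x * Real.log (Real.log x) / Real.log x ^ (1 / 4 : ℝ) with hMd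
  have hM' : ∀ C : ℝ, C * x * Real.log (Real.log x) / Real.log x ^ (1 / 4 : ℝ) = C * M := by
    intro C
    rw [hMd]
    ring
  have c0 : (S0.card : ℝ) ≤ 2 * M := by
    have h5 : S0 ⊆ range 2 := fun n hn => mem_range.2 (mem_filter.1 hn).2
    have h6 := card_le_card h5
    rw [card_range] at h6
    have h7 : (S0.card : ℝ) ≤ 2 := by exact_mod_cast h6
    linarith
  have c1 := h1 S1 (fun n hn => ⟨(mem_filter.1 hn).2.1, (hS n (mem_filter.1 hn).1).1,
    (mem_filter.1 hn).2.2⟩)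
  have c2 := h2 S2 (fun n hn => ⟨(mem_filter.1 hn).2.1, (hS n (mem_filter.1 hn).1).1,
    (mem_filter.1 hn).2.2⟩)
  have c3 := h3 S3 (fun n hn => ⟨(hS n (mem_filter.1 hn).1).1, (mem_filter.1 hn).2⟩)
  rw [hM'] at c1 c2 c3 ⊢
  have hc : S.card ≤ (S0.card + S1.card) + (S2.card + S3.card) :=
    ((card_le_card hsub).trans (card_union_le _ _)).trans
      (Nat.add_le_add (card_union_le _ _) (card_union_le _ _))
  have hc' : (S.card : ℝ) ≤ (S0.card + S1.card) + (S2.card + S3.card) := by exact_mod_cast hc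
  linarith

end Pool.Agent.H12.FO
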