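import Pool.Agent.H12.FO.Defs
import Pool.Agent.H37.PPC.Sv

/-!
FO Siv: the sieve for `n = r + m t`, `t < X`, by primes which divide `n` exactly once.
-/

set_option autoImplicit false

namespace Pool.Agent.H12.FO

open Finset
open Pool.Agent.H37.PPC (pr mem_pr)

/-- numbers in a class mod `m` below `m X` divisible by `p²` -/
private theorem siv_sq (X m r p : ℕ) (hp : p.Prime) (hpm : ¬ p ∣ m) (S : Finset ℕ)
    (hS : ∀ n ∈ S, n % m = r ∧ n < m * X ∧ p ^ 2 ∣ n) : S.card ≤ X / p ^ 2 + 1 := by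
  have hp2 : 0 < p ^ 2 := pow_pos hp.pos 2
  rw [← card_range (X / p ^ 2 + 1)]
  refine card_le_card_of_injOn (fun n => n / m / p ^ 2) ?_ ?_
  · intro n hn
    obtain ⟨h1, h2, h3⟩ := hS n hn
    have h4 : n / m < X := Nat.div_lt_of_lt_mul h2
    rw [mem_coe, mem_range]
    exact Nat.lt_succ_of_le (Nat.div_le_div_right h4.le)
  · intro a ha b hb hab
    obtain ⟨h1, h2, h3⟩ := hS a ha
    obtain ⟨h4, h5, h6⟩ := hS b hb
    have e1 := Nat.div_add_mod a m
    have e2 := Nat.div_add_mod b m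
    have e3 := Nat.div_add_mod (a / m) (p ^ 2)
    have e4 := Nat.div_add_mod (b / m) (p ^ 2)
    have hcop : Nat.Coprime (p ^ 2) m := Nat.Coprime.pow_left 2 ((Nat.Prime.coprime_iff_not_dvd hp).2 hpm)
    have hmod : a / m ≡ b / m [MOD p ^ 2] := by
      have h7 : m * (a / m) + r ≡ m * (b / m) + r [MOD p ^ 2] := by
        rw [← h1, e1, h1, ← h4, e2]
        exact ((Nat.modEq_zero_iff_dvd.2 h3).trans (Nat.modEq_zero_iff_dvd.2 h6).symm)
      exact Nat.ModEq.cancel_left_of_coprime hcop (Nat.ModEq.add_right_cancel' r h7)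
    have h8 : a / m % p ^ 2 = b / m % p ^ 2 := hmod
    simp only at hab
    have h9 : a / m = b / m := by rw [← e3, ← e4, hab, h8]
    rw [← e1, ← e2, h1, h4, h9]

theorem siv : ∃ C : ℝ, 0 < C ∧ ∃ s : ℕ, 2 ≤ s ∧ ∀ X z L m r : ℕ, 2 ≤ L → L ≤ z → z ^ s ≤ X →
    1 ≤ m → ∀ P : Finset ℕ, P ⊆ pr L (z + 1) → (∀ p ∈ P, ¬ p ∣ m) → ∀ S : Finset ℕ,
    (∀ n ∈ S, n % m = r ∧ n < m * X ∧ ∀ p ∈ P, p ∣ n → p ^ 2 ∣ n) →
    (S.card : ℝ) ≤ C * X * (Real.exp (-(∑ p ∈ P, (1 : ℝ) / p)) + 1 / L) := by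
  classical
  obtain ⟨C, hC, s, hs, hsv⟩ := Pool.Agent.H37.PPC.sieve 1
  refine ⟨C + 3, by linarith, s + 2, by omega, ?_⟩
  intro X z L m r hL hLz hzX hm P hP hPm S hS
  have hz2 : 2 ≤ z := hL.trans hLz
  have hzs : z ^ s ≤ X := (Nat.pow_le_pow_right (by omega) (by omega)).trans hzX
  have hzz : z * L ≤ X := by
    calc z * L ≤ z * z := Nat.mul_le_mul_left z hLz
      _ = z ^ 2 := by ring
      _ ≤ z ^ (s + 2) := Nat.pow_le_pow_right (by omega) (by omega)
      _ ≤ X := hzX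
  have hL0 : (0 : ℝ) < L := by exact_mod_cast (by omega : 0 < L)
  have hX0 : (0 : ℝ) ≤ X := Nat.cast_nonneg X
  set S1 := S.filter (fun n => ∀ p ∈ P, ¬ p ∣ n) with hS1
  set S2 := S.filter (fun n => ¬ ∀ p ∈ P, ¬ p ∣ n) with hS2
  have hcard : S.card = S1.card + S2.card := by
    rw [hS1, hS2, card_filter_add_card_filter_not]
  -- the sieve
  set Ω : ℕ → Finset ℕ := fun l =>
    if l ∈ P then {((1 - (r : ZMod l) * (m : ZMod l)⁻¹ : ZMod l)).val} else ∅ with hΩ
  have hΩc : ∀ l, (Ω l).card = if l ∈ P then 1 else 0 := by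
    intro l
    rw [hΩ]
    show (if l ∈ P then ({((1 - (r : ZMod l) * (m : ZMod l)⁻¹ : ZMod l)).val} : Finset ℕ)
      else ∅).card = _
    split_ifs <;> simp
  have hinj : Set.InjOn (fun n => n / m + 1) (S1 : Set ℕ) := by
    intro a ha b hb hab
    have h1 := (hS a (mem_filter.1 ha).1).1
    have h2 := (hS b (mem_filter.1 hb).1).1
    have h3 : a / m = b / m := by
      have : a / m + 1 = b / m + 1 := hab
      omega
    rw [← Nat.div_add_mod a m, ← Nat.div_add_mod b m, h1, h2, h3]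
  have h1 := hsv X z hz2 hzs Ω (by
    intro l hl
    refine ⟨?_, ?_, ?_⟩
    · intro a ha
      rw [hΩ] at ha
      change a ∈ (if l ∈ P then ({((1 - (r : ZMod l) * (m : ZMod l)⁻¹ : ZMod l)).val} : Finset ℕ)
        else ∅) at ha
      split_ifs at ha with h
      · have : NeZero l := ⟨hl.pos.ne'⟩
        rw [mem_singleton] at ha
        rw [mem_range, ha]
        exact ZMod.val_lt _
      · simp at ha
    · rw [hΩc]
      have := hl.two_le
      split_ifs <;> omega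
    · rw [hΩc]
      split_ifs <;> omega) (S1.image (fun n => n / m + 1)) (by
    intro a ha
    rw [mem_image] at ha
    obtain ⟨n, hn, rfl⟩ := ha
    have h2 := (hS n (mem_filter.1 hn).1).2.1
    have h4 : n / m < X := Nat.div_lt_of_lt_mul h2
    exact ⟨Nat.le_add_left 1 _, h4⟩) (by
    intro a ha l hl hin
    rw [mem_image] at ha
    obtain ⟨n, hn, rfl⟩ := ha
    rw [hΩ] at hin
    change (n / m + 1) % l ∈ (if l ∈ P then
      ({((1 - (r : ZMod l) * (m : ZMod l)⁻¹ : ZMod l)).val} : Finset ℕ) else ∅) at hin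
    split_ifs at hin with h
    · have : Fact l.Prime := ⟨hl⟩
      have : NeZero l := ⟨hl.pos.ne'⟩
      rw [mem_singleton] at hin
      have h2 : ((n / m + 1 : ℕ) : ZMod l) = 1 - (r : ZMod l) * (m : ZMod l)⁻¹ := by
        rw [← ZMod.natCast_mod (n / m + 1) l, hin, ZMod.natCast_zmod_val]
      have hm0 : (m : ZMod l) ≠ 0 := by
        rw [Ne, ZMod.natCast_eq_zero_iff]
        exact hPm l h
      have h3 : (n : ZMod l) = 0 := by
        have h4 := Nat.div_add_mod n m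
        rw [(hS n (mem_filter.1 hn).1).1] at h4
        have h5 : (n : ZMod l) = m * ((n / m : ℕ) : ZMod l) + r := by
          rw [← Nat.cast_mul, ← Nat.cast_add, h4]
        rw [h5]
        have h6 : ((n / m : ℕ) : ZMod l) = - ((r : ZMod l) * (m : ZMod l)⁻¹) := by
          push_cast at h2
          linear_combination h2
        rw [h6]
        field_simp
        ring
      rw [ZMod.natCast_eq_zero_iff] at h3
      exact (mem_filter.1 hn).2 l h h3
    · simp at hin)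
  rw [card_image_of_injOn hinj] at h1
  have hsum : ∑ l ∈ pr 2 (z + 1), ((Ω l).card : ℝ) / l = ∑ p ∈ P, (1 : ℝ) / p := by
    have h2 : ∀ l ∈ pr 2 (z + 1), ((Ω l).card : ℝ) / l = if l ∈ P then (1 : ℝ) / l else 0 := by
      intro l _
      rw [hΩc]
      split_ifs <;> simp
    rw [sum_congr rfl h2, ← sum_filter]
    apply sum_congr _ (fun _ _ => rfl)
    ext l
    rw [mem_filter]
    refine ⟨fun h => h.2, fun h => ⟨?_, h⟩⟩
    have h3 := mem_pr.1 (hP h)
    exact mem_pr.2 ⟨⟨by omega, h3.1.2⟩, h3.2⟩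
  rw [hsum] at h1
  -- the squares
  have h2 : (S2.card : ℝ) ≤ 3 * X * (1 / L) := by
    have a1 : S2 ⊆ P.biUnion (fun p => S.filter (fun n => p ^ 2 ∣ n)) := by
      intro n hn
      rw [hS2, mem_filter] at hn
      obtain ⟨hn1, hn2⟩ := hn
      push Not at hn2
      obtain ⟨p, hp, hpn⟩ := hn2
      rw [mem_biUnion]
      exact ⟨p, hp, mem_filter.2 ⟨hn1, (hS n hn1).2.2 p hp hpn⟩⟩
    have a2 : (S2.card : ℝ) ≤ ∑ p ∈ P, ((X : ℝ) * ((p : ℝ) ^ 2)⁻¹ + 1) := by
      have b1 : S2.card ≤ ∑ p ∈ P, (S.filter (fun n => p ^ 2 ∣ n)).card :=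
        (card_le_card a1).trans card_biUnion_le
      have b2 : (S2.card : ℝ) ≤ ∑ p ∈ P, ((S.filter (fun n => p ^ 2 ∣ n)).card : ℝ) := by
        exact_mod_cast b1
      refine b2.trans (sum_le_sum fun p hp => ?_)
      have hpp := (mem_pr.1 (hP hp)).2
      have b3 := siv_sq X m r p hpp (hPm p hp) (S.filter (fun n => p ^ 2 ∣ n)) (fun n hn =>
        ⟨(hS n (mem_filter.1 hn).1).1, (hS n (mem_filter.1 hn).1).2.1, (mem_filter.1 hn).2⟩)
      have b4 : ((X / p ^ 2 : ℕ) : ℝ) ≤ (X : ℝ) * ((p : ℝ) ^ 2)⁻¹ := by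
        have := Nat.cast_div_le (m := X) (n := p ^ 2) (α := ℝ)
        push_cast at this
        rwa [div_eq_mul_inv] at this
      calc ((S.filter (fun n => p ^ 2 ∣ n)).card : ℝ) ≤ ((X / p ^ 2 + 1 : ℕ) : ℝ) := by
            exact_mod_cast b3
        _ = ((X / p ^ 2 : ℕ) : ℝ) + 1 := by push_cast; ring
        _ ≤ _ := by linarith
    have a3 : P ⊆ Ioo (L - 1) (z + 1) := by
      intro p hp
      have h3 := mem_pr.1 (hP hp)
      rw [mem_Ioo]
      omega
    have a4 : ∑ p ∈ P, ((p : ℝ) ^ 2)⁻¹ ≤ 2 / L := by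
      have h3 := sum_Ioo_inv_sq_le (α := ℝ) (L - 1) (z + 1)
      have h4 : (((L - 1 : ℕ) : ℝ) + 1) = L := by
        have : L - 1 + 1 = L := by omega
        exact_mod_cast this
      rw [h4] at h3
      exact (sum_le_sum_of_subset_of_nonneg a3 (fun i _ _ => by positivity)).trans h3
    have a5 : (P.card : ℝ) ≤ X * (1 / L) := by
      have h3 : P.card ≤ z := by
        have h4 := card_le_card a3
        rw [Nat.card_Ioo] at h4
        omega
      have h4 : (P.card : ℝ) * L ≤ X := by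
        have : P.card * L ≤ X := (Nat.mul_le_mul_right L h3).trans hzz
        exact_mod_cast this
      rw [mul_one_div, le_div_iff₀ hL0]
      exact h4
    calc (S2.card : ℝ) ≤ ∑ p ∈ P, ((X : ℝ) * ((p : ℝ) ^ 2)⁻¹ + 1) := a2
      _ = X * ∑ p ∈ P, ((p : ℝ) ^ 2)⁻¹ + P.card := by
          rw [sum_add_distrib, ← mul_sum, sum_const, nsmul_eq_mul, mul_one]
      _ ≤ X * (2 / L) + X * (1 / L) := by
          have := mul_le_mul_of_nonneg_left a4 hX0
          linarith
      _ = 3 * X * (1 / L) := by ring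
  have he : 0 ≤ Real.exp (-(∑ p ∈ P, (1 : ℝ) / p)) := (Real.exp_pos _).le
  have hc : (S.card : ℝ) = S1.card + S2.card := by exact_mod_cast hcard
  rw [hc]
  have h3 : 0 ≤ (X : ℝ) * (1 / L) := by positivity
  have h4 : 0 ≤ (X : ℝ) * Real.exp (-(∑ p ∈ P, (1 : ℝ) / p)) := by positivity
  nlinarith [h1, h2, mul_nonneg hC.le h3]

end Pool.Agent.H12.FO
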