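import Pool.Agent.H12.FO.Defs
import Pool.Agent.H12.FO.Siv

/-!
FO Rcp: reciprocity, three residue classes, primes in dyadic intervals, the sieve for one `q`.
-/

set_option autoImplicit false

namespace Pool.Agent.H12.FO

open Finset
open Pool.Agent.H37.PPC (pr mem_pr)

theorem sg_eq (q : ℕ) : sg q = 1 ∨ sg q = -1 := by
  unfold sg
  split_ifs <;> simp

theorem recip (p q : ℕ) (hp : p.Prime) (hq : q.Prime) (hp2 : p ≠ 2) (hq2 : q ≠ 2) :
    jacobiSym p q = jacobiSym (sg q * q) p := by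
  have hpo : Odd p := hp.odd_of_ne_two hp2
  have hqo : Odd q := hq.odd_of_ne_two hq2
  rw [jacobiSym.mul_left, jacobiSym.quadratic_reciprocity hpo hqo]
  congr 1
  unfold sg
  have hq4 : q % 4 = 1 ∨ q % 4 = 3 := by
    have := Nat.odd_iff.1 hqo
    omega
  rcases hq4 with h | h
  · rw [if_pos h, jacobiSym.one_left]
    have he : Even (q / 2) := by
      rw [Nat.even_iff]
      omega
    rw [pow_mul', he.neg_one_pow, one_pow]
  · rw [if_neg (by omega), jacobiSym.at_neg_one hpo, ZMod.χ₄_eq_neg_one_pow (Nat.odd_iff.1 hpo)]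
    have ho : Odd (q / 2) := by
      rw [Nat.odd_iff]
      omega
    rw [pow_mul', ho.neg_one_pow]

/-- three residue classes -/
theorem three (n q : ℕ) (hq : q.Prime) (hn : 1 ≤ n) (h : q ∣ n * (n + 1) * (n - 1)) :
    n % q = 0 ∨ n % q = 1 ∨ n % q = q - 1 := by
  have hq2 := hq.two_le
  rcases (Nat.Prime.dvd_mul hq).1 h with h | h
  · rcases (Nat.Prime.dvd_mul hq).1 h with h | h
    · exact Or.inl (Nat.mod_eq_zero_of_dvd h)
    · right; right
      have h1 := Nat.mod_lt n (show 0 < q by omega)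
      have h2 : (n % q + 1) % q = 0 := by
        rw [Nat.mod_add_mod]
        exact Nat.mod_eq_zero_of_dvd h
      by_contra hc
      rw [Nat.mod_eq_of_lt (by omega)] at h2
      omega
  · right; left
    obtain ⟨c, hc⟩ := h
    have h1 : n = 1 + q * c := by omega
    rw [h1, Nat.add_mul_mod_self_left]
    exact Nat.mod_eq_of_lt (by omega)

/-- primes in a dyadic interval -/
theorem dyad : ∀ a : ℕ, 1 ≤ a → ((pr (2 ^ a) (2 ^ (a + 1))).card : ℝ) ≤ 4 * 2 ^ a / a := by
  intro a ha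
  have h1 : (2 ^ a) ^ (pr (2 ^ a) (2 ^ (a + 1))).card ≤ 4 ^ (2 ^ (a + 1)) := by
    calc (2 ^ a) ^ (pr (2 ^ a) (2 ^ (a + 1))).card
        = ∏ _p ∈ pr (2 ^ a) (2 ^ (a + 1)), 2 ^ a := by rw [prod_const]
      _ ≤ ∏ p ∈ pr (2 ^ a) (2 ^ (a + 1)), p := by
          refine prod_le_prod' fun p hp => (mem_pr.1 hp).1.1
      _ ≤ primorial (2 ^ (a + 1)) := by
          unfold primorial
          refine prod_le_prod_of_subset_of_one_le' ?_ ?_
          · intro p hp
            have h := mem_pr.1 hp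
            rw [mem_filter, mem_range]
            exact ⟨by omega, h.2⟩
          · intro p hp _
            exact (mem_filter.1 hp).2.one_lt.le
      _ ≤ 4 ^ (2 ^ (a + 1)) := primorial_le_four_pow _
  have h2 : a * (pr (2 ^ a) (2 ^ (a + 1))).card ≤ 2 * 2 ^ (a + 1) := by
    have h3 : (4 : ℕ) ^ (2 ^ (a + 1)) = 2 ^ (2 * 2 ^ (a + 1)) := by
      rw [show (4 : ℕ) = 2 ^ 2 by norm_num, ← pow_mul]
    rw [← pow_mul, h3] at h1
    exact (Nat.pow_le_pow_iff_right (by norm_num)).1 h1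
  have ha0 : (0 : ℝ) < a := by exact_mod_cast ha
  rw [le_div_iff₀ ha0]
  have h3 : ((a * (pr (2 ^ a) (2 ^ (a + 1))).card : ℕ) : ℝ) ≤ ((2 * 2 ^ (a + 1) : ℕ) : ℝ) := by
    exact_mod_cast h2
  push_cast at h3
  have h4 : (2 : ℝ) ^ (a + 1) = 2 ^ a * 2 := pow_succ _ _
  rw [h4] at h3
  linarith

/-- a prime of `NR` which divides `n` divides it twice if `q` is bad for `n` -/
theorem NR_sq {L z q n p : ℕ} (hL : 3 ≤ L) (hB : BadP n q) (hp : p ∈ NR (sg q) L z q)
    (hpn : p ∣ n) : p ^ 2 ∣ n := by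
  unfold NR at hp
  rw [mem_filter] at hp
  obtain ⟨h1, h2⟩ := hp
  have h3 := mem_pr.1 h1
  obtain ⟨hq, hq2, -, hT⟩ := hB
  by_contra hc
  have h4 := hT p h3.2 hpn hc
  have h5 := recip p q h3.2 hq (by omega) hq2
  rw [h2] at h5
  have : Fact q.Prime := ⟨hq⟩
  rw [← jacobiSym.legendreSym.to_jacobiSym] at h5
  have h6 := (legendreSym.eq_neg_one_iff q).1 h5
  apply h6
  simpa using h4

/-- the sieve for one bad prime `q` -/
theorem one_q : ∃ C : ℝ, 0 < C ∧ ∃ s : ℕ, 2 ≤ s ∧ ∀ X z L q : ℕ, 3 ≤ L → L ≤ z → z ^ s ≤ X →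
    q.Prime → q ≠ 2 →
    Cnt (q * X) (fun n q' => q' = q ∧ BadP n q') ≤
      C * X * (Real.exp (-(∑ p ∈ NR (sg q) L z q, (1 : ℝ) / p)) + 1 / L) := by
  classical
  obtain ⟨C, hC, s, hs, h⟩ := siv
  refine ⟨3 * C, by positivity, s, hs, ?_⟩
  intro X z L q hL hLz hzX hq hq2
  have hq0 : 1 ≤ q := hq.one_lt.le
  set T := (Ico 2 (q * X)).filter (fun n => ∃ q', q' = q ∧ BadP n q') with hT
  have key : ∀ r : ℕ, (((T.filter (fun n => n % q = r)).card : ℕ) : ℝ) ≤
      C * X * (Real.exp (-(∑ p ∈ NR (sg q) L z q, (1 : ℝ) / p)) + 1 / L) := by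
    intro r
    refine h X z L q r (by omega) hLz hzX hq0 (NR (sg q) L z q) (filter_subset _ _) ?_ _ ?_
    · intro p hp hpq
      unfold NR at hp
      rw [mem_filter] at hp
      have h3 := (mem_pr.1 hp.1).2
      have h4 : p = q := (Nat.prime_dvd_prime_iff_eq h3 hq).1 hpq
      have h5 : jacobiSym (sg q * q) p = 0 := by
        rw [h4, jacobiSym.mul_left]
        have : NeZero q := ⟨hq.pos.ne'⟩
        have h6 : jacobiSym (q : ℤ) q = 0 := by
          rw [jacobiSym.eq_zero_iff_not_coprime]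
          simp [hq.ne_one]
        rw [h6, mul_zero]
      rw [h5] at hp
      exact absurd hp.2 (by norm_num)
    · intro n hn
      rw [mem_filter, hT, mem_filter, mem_Ico] at hn
      obtain ⟨⟨⟨h1, h2⟩, q', hqq, hB⟩, h3⟩ := hn
      rw [hqq] at hB
      exact ⟨h3, h2, fun p hp hpn => NR_sq hL hB hp hpn⟩
  have hsub : T ⊆ (T.filter (fun n => n % q = 0)) ∪ ((T.filter (fun n => n % q = 1)) ∪
      (T.filter (fun n => n % q = q - 1))) := by
    intro n hn
    have h1 := hn
    rw [hT, mem_filter, mem_Ico] at h1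
    obtain ⟨⟨h2, h3⟩, q', hqq, hB⟩ := h1
    rw [hqq] at hB
    rcases three n q hq (by omega) hB.2.2.1 with h4 | h4 | h4
    · exact mem_union_left _ (mem_filter.2 ⟨hn, h4⟩)
    · exact mem_union_right _ (mem_union_left _ (mem_filter.2 ⟨hn, h4⟩))
    · exact mem_union_right _ (mem_union_right _ (mem_filter.2 ⟨hn, h4⟩))
  have hc1 : (T.card : ℝ) ≤ ((T.filter (fun n => n % q = 0)).card : ℝ) +
      ((T.filter (fun n => n % q = 1)).card + (T.filter (fun n => n % q = q - 1)).card) := by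
    have h1 := (card_le_card hsub).trans (card_union_le _ _)
    have h2 := card_union_le (T.filter (fun n => n % q = 1)) (T.filter (fun n => n % q = q - 1))
    have h3 : T.card ≤ (T.filter (fun n => n % q = 0)).card +
      ((T.filter (fun n => n % q = 1)).card + (T.filter (fun n => n % q = q - 1)).card) :=
      h1.trans (Nat.add_le_add_left h2 _)
    exact_mod_cast h3
  have e : Cnt (q * X) (fun n q' => q' = q ∧ BadP n q') = (T.card : ℝ) := by
    unfold Cnt
    congr
  rw [e]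
  have k0 := key 0
  have k1 := key 1
  have k2 := key (q - 1)
  linarith

end Pool.Agent.H12.FO
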