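import Pool.Agent.H12.FO.Mas
import Pool.Agent.H12.FO.Rcp
import Pool.Agent.H37.PPC.Ch
import Pool.Agent.H37.PPC.TS

/-!
PROJECT FO, Sml: the bad primes `q < 2 ^ (J / d)`.

`sml_tw`: `psi (sg q * q)` is a `TW` function with bound `4 q`.
`sml_mass`: for `(4 q) ^ 8 ≤ L ≤ z` the mass of `NR (sg q) L z q` is at least
`(log log z - log log L) / 2 - C` (`TW_sum`, `mertens_two`).
`sml_one`: `one_q` with `X = 2 ^ J / q + 1`, `z = 2 ^ (J / k)`, `L = (4 q) ^ 8 * J`.
`sml`: the sum over `q` (`sum_half` and `mertens_two`).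
-/

set_option autoImplicit false

namespace Pool.Agent.H12.FO.Sml

open Finset Filter Topology
open Pool.Agent.H37.PPC (pr mem_pr psi psi_TW ex_neg ex_pos TW_sum mertens_two sum_half TW)

private theorem sml_natAbs (q : ℕ) : (sg q * (q : ℤ)).natAbs = q := by
  unfold sg
  split_ifs <;> simp

private theorem sml_tw (q : ℕ) (hq : q.Prime) : TW (psi (sg q * q)) (4 * q) := by
  have hpos : (0 : ℤ) < q := by exact_mod_cast hq.pos
  have hb : ∃ b : ℕ, Odd b ∧ jacobiSym (sg q * q) b = -1 := by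
    unfold sg
    split_ifs with h
    · have := ex_pos {q} (singleton_nonempty q) (by simpa using hq)
      simpa using this
    · exact ex_neg (-1 * (q : ℤ)) (by omega)
  have h0 : sg q * (q : ℤ) ≠ 0 := by
    intro h
    have h3 := sml_natAbs q
    rw [h] at h3
    have := hq.pos
    simp at h3
    omega
  have h1 := psi_TW (sg q * q) h0 hb
  rwa [sml_natAbs] at h1

private theorem sml_mass : ∃ C : ℝ, 0 < C ∧ ∀ q L z : ℕ, q.Prime → q ≠ 2 → (4 * q) ^ 8 ≤ L →
    L ≤ z → Real.exp (-(∑ p ∈ NR (sg q) L z q, (1 : ℝ) / p)) ≤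
      C * Real.sqrt (Real.log L / Real.log z) := by
  obtain ⟨C1, hC1, h1⟩ := TW_sum
  obtain ⟨C2, hC2, h2⟩ := mertens_two
  refine ⟨Real.exp ((C1 + C2) / 2), Real.exp_pos _, ?_⟩
  intro q L z hq hq2 hL hLz
  have hq3 : 3 ≤ q := by
    have := hq.two_le
    omega
  have hL4 : 4 * q ≤ L := (Nat.le_self_pow (by norm_num) _).trans hL
  have hm : ∑ p ∈ NR (sg q) L z q, (1 : ℝ) / p =
      (1 / 2) * (∑ p ∈ pr L (z + 1), (1 : ℝ) / p - ∑ p ∈ pr L (z + 1), psi (sg q * q) p / p) := by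
    unfold NR
    rw [sum_filter, ← sum_sub_distrib, mul_sum]
    apply sum_congr rfl
    intro p hp
    rw [mem_pr] at hp
    have hodd : Odd p := hp.2.odd_of_ne_two (by omega)
    have hpsi : psi (sg q * q) p = (jacobiSym (sg q * q) p : ℝ) := by
      unfold psi
      rw [if_pos hodd]
    rw [hpsi]
    have hne : jacobiSym (sg q * q) p ≠ 0 := by
      apply jacobiSym.ne_zero
      rw [Int.gcd_def, sml_natAbs, Int.natAbs_natCast]
      exact (Nat.coprime_primes hq hp.2).mpr (by omega)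
    rcases jacobiSym.trichotomy (sg q * q) p with h | h | h
    · exact absurd h hne
    · rw [h, if_neg (by norm_num)]
      push_cast
      ring
    · rw [h, if_pos rfl]
      push_cast
      ring
  have h3 := h1 (psi (sg q * q)) (4 * q) (by omega) (sml_tw q hq) L (z + 1) hL (by omega)
  have h4 := (abs_le.1 (h2 L (z + 1) (by omega) (by omega))).1
  have hLR : (12 : ℝ) ≤ L := by exact_mod_cast (by omega : 12 ≤ L)
  have hzR : (L : ℝ) ≤ z := by exact_mod_cast hLz
  have hlL : 0 < Real.log L := Real.log_pos (by linarith)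
  have hlz : 0 < Real.log z := Real.log_pos (by linarith)
  have h5 : Real.log (Real.log z) ≤ Real.log (Real.log ((z + 1 : ℕ) : ℝ)) := by
    apply Real.log_le_log hlz
    apply Real.log_le_log (by linarith)
    push_cast
    linarith
  have h6 : -(∑ p ∈ NR (sg q) L z q, (1 : ℝ) / p) ≤
      (C1 + C2) / 2 + (Real.log (Real.log L) - Real.log (Real.log z)) / 2 := by
    rw [hm]
    linarith
  refine (Real.exp_le_exp.2 h6).trans (le_of_eq ?_)
  rw [Real.exp_add, Real.exp_half (Real.log (Real.log L) - Real.log (Real.log z)), Real.exp_sub,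
    Real.exp_log hlL, Real.exp_log hlz]

private theorem sml_Cnt_le {N N' : ℕ} (h : N ≤ N') (Q : ℕ → ℕ → Prop) : Cnt N Q ≤ Cnt N' Q := by
  classical
  unfold Cnt
  rw [Nat.cast_le]
  apply card_le_card
  intro n hn
  rw [mem_filter, mem_Ico] at hn ⊢
  exact ⟨⟨hn.1.1, hn.1.2.trans_le h⟩, hn.2⟩

private theorem sml_Cnt_triv (N : ℕ) (Q : ℕ → ℕ → Prop) : Cnt N Q ≤ N := by
  classical
  unfold Cnt
  rw [Nat.cast_le]
  refine (card_filter_le _ _).trans ?_
  rw [Nat.card_Ico]
  omega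

private theorem sml_one : ∃ C : ℝ, 0 < C ∧ ∃ k : ℕ, 4 ≤ k ∧ ∀ J q : ℕ, 1 ≤ J → q.Prime → q ≠ 2 →
    (4 * q) ^ 8 * J ≤ 2 ^ (J / k) →
    Cnt (2 ^ J) (fun n q' => q' = q ∧ BadP n q') ≤
      C * 2 ^ J * ((1 / q) * (Real.sqrt (Real.log (((4 * q) ^ 8 * J : ℕ) : ℝ) /
        Real.log ((2 ^ (J / k) : ℕ) : ℝ)) + 1 / J)) := by
  obtain ⟨C0, hC0, s, hs, h0⟩ := one_q
  obtain ⟨C1, hC1, h1⟩ := sml_mass
  refine ⟨2 * C0 * (C1 + 1), by positivity, 2 * s, by omega, ?_⟩
  intro J q hJ hq hq2 hz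
  have hq3 : 3 ≤ q := by
    have := hq.two_le
    omega
  set L := (4 * q) ^ 8 * J with hL
  set z := 2 ^ (J / (2 * s)) with hzd
  have hL8 : (4 * q) ^ 8 ≤ L := Nat.le_mul_of_pos_right _ (by omega)
  have hL4 : 4 * q ≤ L := (Nat.le_self_pow (by norm_num) _).trans hL8
  have hLJ : J ≤ L := Nat.le_mul_of_pos_left _ (by positivity)
  have hqz : q ≤ z := by omega
  have hzs : z ^ s * q ≤ 2 ^ J := by
    calc z ^ s * q ≤ z ^ s * z := Nat.mul_le_mul_left _ hqz
      _ = 2 ^ (J / (2 * s) * (s + 1)) := by rw [← pow_succ, hzd, ← pow_mul]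
      _ ≤ 2 ^ J := by
        apply Nat.pow_le_pow_right (by norm_num)
        calc J / (2 * s) * (s + 1) ≤ J / (2 * s) * (2 * s) := Nat.mul_le_mul_left _ (by omega)
          _ ≤ J := Nat.div_mul_le_self _ _
  have hX : z ^ s ≤ 2 ^ J / q + 1 :=
    ((Nat.le_div_iff_mul_le (by omega)).2 hzs).trans (Nat.le_succ _)
  have h2 := h0 (2 ^ J / q + 1) z L q (by omega) hz hX hq hq2
  have h3 : 2 ^ J ≤ q * (2 ^ J / q + 1) := (Nat.lt_mul_div_succ _ (by omega)).le
  have h4 := (sml_Cnt_le h3 (fun n q' => q' = q ∧ BadP n q')).trans h2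
  have h5 := h1 q L z hq hq2 hL8 hz
  refine h4.trans ?_
  have hqR : (3 : ℝ) ≤ q := by exact_mod_cast hq3
  have hJR : (1 : ℝ) ≤ J := by exact_mod_cast hJ
  have hq2J : (q : ℝ) ≤ 2 ^ J := by
    have h6 : q ≤ 2 ^ J := by
      calc q ≤ z ^ s * q := Nat.le_mul_of_pos_left _ (by positivity)
        _ ≤ 2 ^ J := hzs
    exact_mod_cast h6
  have hXR : ((2 ^ J / q + 1 : ℕ) : ℝ) ≤ 2 * (2 ^ J * (1 / q)) := by
    have h6 : (((2 ^ J / q : ℕ)) : ℝ) ≤ 2 ^ J / q := by
      have := Nat.cast_div_le (α := ℝ) (m := 2 ^ J) (n := q)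
      push_cast at this
      exact this
    have h7 : (1 : ℝ) ≤ 2 ^ J / q := by
      rw [le_div_iff₀ (by linarith)]
      linarith
    push_cast
    have h8 : (2 : ℝ) ^ J * (1 / q) = 2 ^ J / q := by ring
    rw [h8]
    have h9 : (((2 ^ J / q : ℕ)) : ℝ) = (2 ^ J / q : ℕ) := rfl
    linarith
  set S := Real.sqrt (Real.log (L : ℝ) / Real.log (z : ℝ)) with hS
  have hS0 : 0 ≤ S := Real.sqrt_nonneg _
  have hLR : (J : ℝ) ≤ L := by exact_mod_cast hLJ
  have h7 : (1 : ℝ) / L ≤ 1 / J := one_div_le_one_div_of_le (by linarith) hLR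
  have h8 : Real.exp (-(∑ p ∈ NR (sg q) L z q, (1 : ℝ) / p)) + 1 / L ≤ (C1 + 1) * (S + 1 / J) := by
    have h9 : 0 ≤ (1 : ℝ) / J := by positivity
    nlinarith
  calc C0 * ((2 ^ J / q + 1 : ℕ) : ℝ) *
        (Real.exp (-(∑ p ∈ NR (sg q) L z q, (1 : ℝ) / p)) + 1 / L)
      ≤ C0 * (2 * (2 ^ J * (1 / q))) * ((C1 + 1) * (S + 1 / J)) := by
        apply mul_le_mul _ h8 _ (by positivity)
        · exact mul_le_mul_of_nonneg_left hXR hC0.le
        · positivity
    _ = 2 * C0 * (C1 + 1) * 2 ^ J * ((1 / q) * (S + 1 / J)) := by ring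

private theorem sml_sqrt (k J q : ℕ) (hk : 1 ≤ k) (hkJ : k ≤ J) (hJ : 3 ≤ J) (hq : 2 ≤ q) :
    Real.sqrt (Real.log (((4 * q) ^ 8 * J : ℕ) : ℝ) / Real.log ((2 ^ (J / k) : ℕ) : ℝ)) ≤
      Real.sqrt (4 * k / J) *
        (Real.sqrt 24 * Real.sqrt (Real.log q) + Real.sqrt (Real.log J)) := by
  have hqR : (2 : ℝ) ≤ q := by exact_mod_cast hq
  have hJR : (3 : ℝ) ≤ J := by exact_mod_cast hJ
  have hkR : (1 : ℝ) ≤ k := by exact_mod_cast hk
  have hlq : Real.log 2 ≤ Real.log q := Real.log_le_log (by norm_num) hqR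
  have hl2 : 0 < Real.log 2 := Real.log_pos (by norm_num)
  have hlJ : 0 ≤ Real.log J := Real.log_nonneg (by linarith)
  have h1 : Real.log (((4 * q) ^ 8 * J : ℕ) : ℝ) ≤ 24 * Real.log q + Real.log J := by
    push_cast
    rw [Real.log_mul (by positivity) (by positivity), Real.log_pow,
      Real.log_mul (by norm_num) (by positivity)]
    have h4 : Real.log 4 = 2 * Real.log 2 := by
      rw [show (4 : ℝ) = 2 ^ 2 by norm_num, Real.log_pow]
      norm_num
    rw [h4]
    push_cast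
    linarith
  have h2 : (J : ℝ) / (4 * k) ≤ Real.log ((2 ^ (J / k) : ℕ) : ℝ) := by
    rw [Nat.cast_pow, Real.log_pow]
    have h5 : (J : ℝ) / (2 * k) ≤ ((J / k : ℕ) : ℝ) := by
      rw [div_le_iff₀ (by positivity)]
      have h6 : J ≤ (J / k) * (2 * k) := by
        have h7 : J < (J / k + 1) * k := by
          rw [mul_comm]
          exact Nat.lt_mul_div_succ _ (by omega)
        have h8 : 1 ≤ J / k := (Nat.le_div_iff_mul_le (by omega)).2 (by omega)
        nlinarith
      exact_mod_cast h6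
    have h6 : (1 / 2 : ℝ) ≤ Real.log ((2 : ℕ) : ℝ) := by
      have := Real.log_two_gt_d9
      push_cast
      linarith
    calc (J : ℝ) / (4 * k) = (J : ℝ) / (2 * k) * (1 / 2) := by
          field_simp
          norm_num
      _ ≤ ((J / k : ℕ) : ℝ) * Real.log ((2 : ℕ) : ℝ) :=
          mul_le_mul h5 h6 (by norm_num) (by positivity)
  have h3 : Real.log (((4 * q) ^ 8 * J : ℕ) : ℝ) / Real.log ((2 ^ (J / k) : ℕ) : ℝ) ≤
      4 * k / J * (24 * Real.log q + Real.log J) := by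
    have h9 : 0 ≤ 24 * Real.log q + Real.log J := by linarith
    calc Real.log (((4 * q) ^ 8 * J : ℕ) : ℝ) / Real.log ((2 ^ (J / k) : ℕ) : ℝ)
        ≤ (24 * Real.log q + Real.log J) / ((J : ℝ) / (4 * k)) :=
          div_le_div₀ h9 h1 (by positivity) h2
      _ = 4 * k / J * (24 * Real.log q + Real.log J) := by
          field_simp
  refine (Real.sqrt_le_sqrt h3).trans ?_
  rw [Real.sqrt_mul (by positivity)]
  apply mul_le_mul_of_nonneg_left _ (Real.sqrt_nonneg _)
  rw [← Real.sqrt_mul (by norm_num)]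
  apply Real.sqrt_le_iff.2
  constructor
  · positivity
  · have h10 : 0 ≤ 24 * Real.log q := by linarith
    rw [add_sq, Real.sq_sqrt h10, Real.sq_sqrt hlJ]
    have h11 := mul_nonneg (Real.sqrt_nonneg (24 * Real.log q)) (Real.sqrt_nonneg (Real.log J))
    linarith

private theorem sml_small (k d J : ℕ) (hk : 1 ≤ k) (hd : 32 * k ≤ d)
    (hJ : 4 * k * (4 * k + 16) ≤ J) (q : ℕ) (hq : q < 2 ^ (J / d)) :
    (4 * q) ^ 8 * J ≤ 2 ^ (J / k) := by
  set t := J / (4 * k) with ht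
  have ht1 : 4 * k + 16 ≤ t := by
    rw [ht, Nat.le_div_iff_mul_le (by omega), mul_comm]
    exact hJ
  have ht2 : 4 * t ≤ J / k := by
    rw [Nat.le_div_iff_mul_le (by omega)]
    calc 4 * t * k = J / (4 * k) * (4 * k) := by rw [ht]; ring
      _ ≤ J := Nat.div_mul_le_self _ _
  have ht3 : 8 * (J / d) ≤ t := by
    rw [ht, Nat.le_div_iff_mul_le (by omega)]
    calc 8 * (J / d) * (4 * k) = J / d * (32 * k) := by ring
      _ ≤ J / d * d := Nat.mul_le_mul_left _ hd
      _ ≤ J := Nat.div_mul_le_self _ _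
  have ht4 : J ≤ 4 * k * (t + 1) := by
    rw [ht]
    exact (Nat.lt_mul_div_succ _ (by omega)).le
  have h1 : t + 1 ≤ 2 ^ t := Nat.lt_two_pow_self
  have h2 : 4 * k ≤ 2 ^ (4 * k) := Nat.lt_two_pow_self.le
  have h3 : 4 ^ 8 * J ≤ 2 ^ (2 * t) := by
    calc 4 ^ 8 * J ≤ 2 ^ 16 * (2 ^ (4 * k) * 2 ^ t) := by
          apply Nat.mul_le_mul (by norm_num)
          exact ht4.trans (Nat.mul_le_mul h2 h1)
      _ = 2 ^ (4 * k + 16) * 2 ^ t := by rw [pow_add]; ring
      _ ≤ 2 ^ t * 2 ^ t := Nat.mul_le_mul_right _ (Nat.pow_le_pow_right (by norm_num) ht1)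
      _ = 2 ^ (2 * t) := by rw [← pow_add]; congr 1; ring
  calc (4 * q) ^ 8 * J = q ^ 8 * (4 ^ 8 * J) := by rw [mul_pow]; ring
    _ ≤ (2 ^ (J / d)) ^ 8 * 2 ^ (2 * t) :=
        Nat.mul_le_mul (Nat.pow_le_pow_left hq.le 8) h3
    _ = 2 ^ (8 * (J / d) + 2 * t) := by rw [← pow_mul, ← pow_add]; congr 1; ring
    _ ≤ 2 ^ (J / k) := Nat.pow_le_pow_right (by norm_num) (by omega)

private theorem sml_tendsto : Tendsto (fun J : ℕ => Real.log J ^ 2 / Real.sqrt J) atTop (𝓝 0) := by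
  have h1 := (isLittleO_log_rpow_rpow_atTop (2 : ℝ) (show (0 : ℝ) < 1 / 2 by
    norm_num)).tendsto_div_nhds_zero
  have h2 := h1.comp (tendsto_natCast_atTop_atTop (R := ℝ))
  refine h2.congr ?_
  intro J
  simp only [Function.comp]
  rw [Real.rpow_two, Real.sqrt_eq_rpow]

private theorem sml_loglog : -1 ≤ Real.log (Real.log 2) := by
  have h1 := Real.log_two_gt_d9
  rw [Real.le_log_iff_exp_le (by linarith)]
  have h2 : Real.exp (-1) ≤ 1 / 2 := by
    rw [Real.exp_neg, ← one_div]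
    apply one_div_le_one_div_of_le (by norm_num)
    have := Real.add_one_le_exp (1 : ℝ)
    linarith
  linarith

private theorem sml_sums : ∃ K C : ℝ, 0 < K ∧ 0 < C ∧ ∀ J d : ℕ, 1 ≤ d → d ≤ J → 3 ≤ J →
    ∑ q ∈ pr 3 (2 ^ (J / d)), Real.sqrt (Real.log q) / q ≤ K * (Real.sqrt J / Real.sqrt d) ∧
    ∑ q ∈ pr 3 (2 ^ (J / d)), (1 : ℝ) / q ≤ C * Real.log J := by
  obtain ⟨K, hK, hKs⟩ := sum_half
  obtain ⟨C2, hC2, hM⟩ := mertens_two
  refine ⟨K, 2 + C2, hK, by positivity, ?_⟩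
  intro J d hd hdJ hJ
  have h1 : 1 ≤ J / d := (Nat.le_div_iff_mul_le (by omega)).2 (by omega)
  have h2 : 2 ≤ 2 ^ (J / d) := Nat.le_self_pow (by omega) 2
  have hJR : (3 : ℝ) ≤ J := by exact_mod_cast hJ
  have hdR : (1 : ℝ) ≤ d := by exact_mod_cast hd
  have hlu : Real.log ((2 ^ (J / d) : ℕ) : ℝ) ≤ J / d := by
    rw [Nat.cast_pow, Real.log_pow]
    have h3 : ((J / d : ℕ) : ℝ) ≤ J / d := Nat.cast_div_le
    have h4 : Real.log ((2 : ℕ) : ℝ) ≤ 1 := by
      have := Real.log_two_lt_d9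
      push_cast
      linarith
    have h5 : 0 ≤ Real.log ((2 : ℕ) : ℝ) := Real.log_nonneg (by norm_num)
    have h6 : (0 : ℝ) ≤ ((J / d : ℕ) : ℝ) := Nat.cast_nonneg _
    exact (mul_le_of_le_one_right h6 h4).trans h3
  have hlu0 : 0 < Real.log ((2 ^ (J / d) : ℕ) : ℝ) := by
    apply Real.log_pos
    exact_mod_cast (by omega : 1 < 2 ^ (J / d))
  have hlJ1 : 1 ≤ Real.log J := by
    rw [Real.le_log_iff_exp_le (by linarith)]
    have := Real.exp_one_lt_d9
    linarith
  constructor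
  · have h3 : ∑ q ∈ pr 3 (2 ^ (J / d)), Real.sqrt (Real.log q) / q ≤
        ∑ q ∈ pr 2 (2 ^ (J / d) + 1), Real.sqrt (Real.log q) / q := by
      apply sum_le_sum_of_subset_of_nonneg
      · intro q hq
        rw [mem_pr] at hq ⊢
        exact ⟨⟨by omega, by omega⟩, hq.2⟩
      · intro q _ _
        positivity
    refine h3.trans ((hKs _ h2).trans ?_)
    apply mul_le_mul_of_nonneg_left _ hK.le
    rw [← Real.sqrt_div (by linarith)]
    exact Real.sqrt_le_sqrt hlu
  · have h3 : ∑ q ∈ pr 3 (2 ^ (J / d)), (1 : ℝ) / q ≤ ∑ q ∈ pr 2 (2 ^ (J / d)), (1 : ℝ) / q := by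
      apply sum_le_sum_of_subset_of_nonneg
      · intro q hq
        rw [mem_pr] at hq ⊢
        exact ⟨⟨by omega, by omega⟩, hq.2⟩
      · intro q _ _
        positivity
    have h4 := (abs_le.1 (hM 2 (2 ^ (J / d)) le_rfl h2)).2
    have h5 : Real.log (Real.log ((2 ^ (J / d) : ℕ) : ℝ)) ≤ Real.log J := by
      apply Real.log_le_log hlu0
      refine hlu.trans ?_
      rw [div_le_iff₀ (by linarith)]
      nlinarith
    have h6 := sml_loglog
    have h7 : Real.log (Real.log ((2 : ℕ) : ℝ)) = Real.log (Real.log 2) := by norm_num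
    rw [h7] at h4
    nlinarith

/-- uniform version -/
theorem sml_u : ∃ C : ℝ, 0 < C ∧ ∀ J d : ℕ, 1 ≤ d → d ≤ J → 3 ≤ J →
    Cnt (2 ^ J) (fun n q => q < 2 ^ (J / d) ∧ BadP n q) ≤
      C * 2 ^ J * (1 / Real.sqrt d + Real.log J * Real.sqrt (Real.log J / J)) := by
  obtain ⟨C0, hC0, k, hk, h0⟩ := sml_one
  obtain ⟨K, c, hK, hc, hS⟩ := sml_sums
  have hkR : (4 : ℝ) ≤ k := by exact_mod_cast hk
  set A : ℝ := Real.sqrt (4 * k) * Real.sqrt 24 * K with hA
  have hA0 : 0 < A := by positivity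
  set B : ℝ := (Real.sqrt (4 * k) + 1) * c with hB
  have hB0 : 0 < B := by positivity
  set J0 : ℕ := 4 * k * (4 * k + 16) with hJ0d
  have hbig : 32 * k ≤ J0 := by
    rw [hJ0d]
    nlinarith
  have hsJ0 := Real.sqrt_nonneg (J0 : ℝ)
  refine ⟨Real.sqrt J0 + C0 * (A + B), by positivity, ?_⟩
  intro J d hd hJ3 hJ4
  have hdR : (1 : ℝ) ≤ d := by exact_mod_cast hd
  have hsd : 0 < Real.sqrt d := Real.sqrt_pos.2 (by linarith)
  have hJR : (3 : ℝ) ≤ J := by exact_mod_cast hJ4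
  have hJ0 : (0 : ℝ) < J := by linarith
  have hsJ : 0 < Real.sqrt J := Real.sqrt_pos.2 hJ0
  have hlJ1 : 1 ≤ Real.log J := by
    rw [Real.le_log_iff_exp_le hJ0]
    have := Real.exp_one_lt_d9
    linarith
  have h2J : (0 : ℝ) < 2 ^ J := by positivity
  have hE0 : 0 ≤ Real.log J * Real.sqrt (Real.log J / J) := by positivity
  by_cases hdk : d < J0 ∧ (d < 32 * k ∨ J < J0)
  · have h1 := sml_Cnt_triv (2 ^ J) (fun n q => q < 2 ^ (J / d) ∧ BadP n q)
    refine h1.trans ?_
    push_cast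
    have h2 : (1 : ℝ) ≤ Real.sqrt J0 * (1 / Real.sqrt d) := by
      rw [mul_one_div, le_div_iff₀ hsd, one_mul]
      exact Real.sqrt_le_sqrt (by exact_mod_cast hdk.1.le)
    have h3 : Real.sqrt J0 * (1 / Real.sqrt d) ≤ (Real.sqrt J0 + C0 * (A + B)) *
        (1 / Real.sqrt d + Real.log J * Real.sqrt (Real.log J / J)) := by
      apply mul_le_mul _ _ (by positivity) (by positivity)
      · have : 0 ≤ C0 * (A + B) := by positivity
        linarith
      · linarith
    calc (2 : ℝ) ^ J = 2 ^ J * 1 := (mul_one _).symm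
      _ ≤ 2 ^ J * ((Real.sqrt J0 + C0 * (A + B)) *
          (1 / Real.sqrt d + Real.log J * Real.sqrt (Real.log J / J))) :=
          mul_le_mul_of_nonneg_left (h2.trans h3) h2J.le
      _ = (Real.sqrt J0 + C0 * (A + B)) * 2 ^ J *
          (1 / Real.sqrt d + Real.log J * Real.sqrt (Real.log J / J)) := by ring
  · have hdk' : 32 * k ≤ d := by
      by_contra h
      push Not at h
      exact hdk ⟨by omega, Or.inl h⟩
    have hJ2 : J0 ≤ J := by
      by_contra h
      push Not at h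
      exact hdk ⟨by omega, Or.inr h⟩
    have hkJ : k ≤ J := by omega
    have h1 : Cnt (2 ^ J) (fun n q => q < 2 ^ (J / d) ∧ BadP n q) ≤
        ∑ q ∈ pr 3 (2 ^ (J / d)), Cnt (2 ^ J) (fun n q' => q' = q ∧ BadP n q') := by
      apply Cnt_sum (2 ^ J) _ _ (fun q n q' => q' = q ∧ BadP n q')
      intro n q _ _ hq
      refine ⟨q, mem_pr.2 ⟨⟨?_, hq.1⟩, hq.2.1⟩, rfl, hq.2⟩
      have h2 := hq.2.1.two_le
      have h3 := hq.2.2.1
      omega
    have h2 : ∀ q ∈ pr 3 (2 ^ (J / d)), Cnt (2 ^ J) (fun n q' => q' = q ∧ BadP n q') ≤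
        C0 * 2 ^ J * ((1 / q) * (Real.sqrt (4 * k / J) *
          (Real.sqrt 24 * Real.sqrt (Real.log q) + Real.sqrt (Real.log J)) + 1 / J)) := by
      intro q hq
      rw [mem_pr] at hq
      refine (h0 J q (by omega) hq.2 (by omega)
        (sml_small k d J (by omega) hdk' hJ2 q hq.1.2)).trans ?_
      apply mul_le_mul_of_nonneg_left _ (by positivity)
      apply mul_le_mul_of_nonneg_left _ (by positivity)
      have := sml_sqrt k J q (by omega) hkJ hJ4 (by omega)
      linarith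
    obtain ⟨h3, h4⟩ := hS J d hd hJ3 hJ4
    set S1 := ∑ q ∈ pr 3 (2 ^ (J / d)), Real.sqrt (Real.log q) / q with hS1
    set S2 := ∑ q ∈ pr 3 (2 ^ (J / d)), (1 : ℝ) / q with hS2
    have hS2n : 0 ≤ S2 := sum_nonneg fun q _ => by positivity
    have h5 : ∑ q ∈ pr 3 (2 ^ (J / d)), C0 * 2 ^ J * ((1 / q) * (Real.sqrt (4 * k / J) *
          (Real.sqrt 24 * Real.sqrt (Real.log q) + Real.sqrt (Real.log J)) + 1 / J)) =
        C0 * 2 ^ J * (Real.sqrt (4 * k / J) * Real.sqrt 24 * S1 +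
          (Real.sqrt (4 * k / J) * Real.sqrt (Real.log J) + 1 / J) * S2) := by
      rw [hS1, hS2, mul_sum, mul_sum, ← sum_add_distrib, mul_sum]
      apply sum_congr rfl
      intro q _
      ring
    have h6 : Real.sqrt (4 * k / J) = Real.sqrt (4 * k) / Real.sqrt J :=
      Real.sqrt_div (by positivity) _
    have h7 : Real.sqrt (4 * k / J) * Real.sqrt 24 * S1 ≤ A * (1 / Real.sqrt d) := by
      rw [h6]
      calc Real.sqrt (4 * k) / Real.sqrt J * Real.sqrt 24 * S1
          ≤ Real.sqrt (4 * k) / Real.sqrt J * Real.sqrt 24 *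
            (K * (Real.sqrt J / Real.sqrt d)) :=
            mul_le_mul_of_nonneg_left h3 (by positivity)
        _ = A * (1 / Real.sqrt d) := by
            rw [hA]
            field_simp
    have h8 : Real.sqrt (Real.log J / J) = Real.sqrt (Real.log J) / Real.sqrt J :=
      Real.sqrt_div (by linarith) _
    have h9 : (1 : ℝ) / J ≤ Real.sqrt (Real.log J / J) := by
      rw [h8, div_le_div_iff₀ hJ0 hsJ, one_mul]
      have h10 : Real.sqrt J ≤ J := by
        rw [Real.sqrt_le_left (by linarith)]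
        nlinarith
      have h11 : 1 ≤ Real.sqrt (Real.log J) := Real.one_le_sqrt.2 hlJ1
      nlinarith
    have h10 : (Real.sqrt (4 * k / J) * Real.sqrt (Real.log J) + 1 / J) * S2 ≤
        B * (Real.log J * Real.sqrt (Real.log J / J)) := by
      calc (Real.sqrt (4 * k / J) * Real.sqrt (Real.log J) + 1 / J) * S2
          ≤ (Real.sqrt (4 * k) * Real.sqrt (Real.log J / J) + Real.sqrt (Real.log J / J)) *
            (c * Real.log J) := by
            apply mul_le_mul _ h4 hS2n (by positivity)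
            apply add_le_add _ h9
            rw [h6, h8]
            exact le_of_eq (by ring)
        _ = B * (Real.log J * Real.sqrt (Real.log J / J)) := by
            rw [hB]
            ring
    refine h1.trans ((sum_le_sum h2).trans ?_)
    rw [h5]
    have h11 : Real.sqrt (4 * k / J) * Real.sqrt 24 * S1 +
          (Real.sqrt (4 * k / J) * Real.sqrt (Real.log J) + 1 / J) * S2 ≤
        (A + B) * (1 / Real.sqrt d + Real.log J * Real.sqrt (Real.log J / J)) := by
      have h12 : 0 ≤ 1 / Real.sqrt d := by positivity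
      nlinarith
    calc C0 * 2 ^ J * (Real.sqrt (4 * k / J) * Real.sqrt 24 * S1 +
          (Real.sqrt (4 * k / J) * Real.sqrt (Real.log J) + 1 / J) * S2)
        ≤ C0 * 2 ^ J * ((A + B) *
          (1 / Real.sqrt d + Real.log J * Real.sqrt (Real.log J / J))) :=
          mul_le_mul_of_nonneg_left h11 (by positivity)
      _ = C0 * (A + B) * 2 ^ J *
          (1 / Real.sqrt d + Real.log J * Real.sqrt (Real.log J / J)) := by
          ring
      _ ≤ (Real.sqrt J0 + C0 * (A + B)) * 2 ^ J *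
          (1 / Real.sqrt d + Real.log J * Real.sqrt (Real.log J / J)) := by
          apply mul_le_mul_of_nonneg_right _ (by positivity)
          apply mul_le_mul_of_nonneg_right _ h2J.le
          linarith

theorem sml : ∃ C : ℝ, 0 < C ∧ ∀ d : ℕ, 1 ≤ d → ∀ᶠ J : ℕ in atTop,
    Cnt (2 ^ J) (fun n q => q < 2 ^ (J / d) ∧ BadP n q) ≤ C / Real.sqrt d * 2 ^ J := by
  obtain ⟨C0, hC0, k, hk, h0⟩ := sml_one
  obtain ⟨K, c, hK, hc, hS⟩ := sml_sums
  have hkR : (4 : ℝ) ≤ k := by exact_mod_cast hk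
  set A : ℝ := C0 * (Real.sqrt (4 * k) * Real.sqrt 24 * K + 1) with hA
  have hA0 : 0 < A := by positivity
  refine ⟨Real.sqrt (32 * k) + A, by positivity, ?_⟩
  intro d hd
  have hdR : (1 : ℝ) ≤ d := by exact_mod_cast hd
  have hsd : 0 < Real.sqrt d := Real.sqrt_pos.2 (by linarith)
  by_cases hdk : d < 32 * k
  · filter_upwards with J
    have h1 := sml_Cnt_triv (2 ^ J) (fun n q => q < 2 ^ (J / d) ∧ BadP n q)
    refine h1.trans ?_
    push_cast
    have h2 : (1 : ℝ) ≤ (Real.sqrt (32 * k) + A) / Real.sqrt d := by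
      rw [le_div_iff₀ hsd, one_mul]
      have h3 : Real.sqrt d ≤ Real.sqrt (32 * k) :=
        Real.sqrt_le_sqrt (by exact_mod_cast hdk.le)
      linarith
    have h4 : (0 : ℝ) < 2 ^ J := by positivity
    nlinarith
  · push Not at hdk
    set B : ℝ := (Real.sqrt (4 * k) + 1) * c with hB
    have hB0 : 0 < B := by positivity
    have hev : ∀ᶠ J : ℕ in atTop, Real.log J ^ 2 / Real.sqrt J < 1 / (B * Real.sqrt d) :=
      sml_tendsto.eventually (gt_mem_nhds (by positivity))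
    filter_upwards [hev, eventually_ge_atTop (4 * k * (4 * k + 16)), eventually_ge_atTop d,
      eventually_ge_atTop 3] with J hJ1 hJ2 hJ3 hJ4
    have hkJ : k ≤ J := by nlinarith
    have hJR : (3 : ℝ) ≤ J := by exact_mod_cast hJ4
    have hJ0 : (0 : ℝ) < J := by linarith
    have hsJ : 0 < Real.sqrt J := Real.sqrt_pos.2 hJ0
    have hlJ1 : 1 ≤ Real.log J := by
      rw [Real.le_log_iff_exp_le hJ0]
      have := Real.exp_one_lt_d9
      linarith
    have h1 : Cnt (2 ^ J) (fun n q => q < 2 ^ (J / d) ∧ BadP n q) ≤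
        ∑ q ∈ pr 3 (2 ^ (J / d)), Cnt (2 ^ J) (fun n q' => q' = q ∧ BadP n q') := by
      apply Cnt_sum (2 ^ J) _ _ (fun q n q' => q' = q ∧ BadP n q')
      intro n q _ _ hq
      refine ⟨q, mem_pr.2 ⟨⟨?_, hq.1⟩, hq.2.1⟩, rfl, hq.2⟩
      have h2 := hq.2.1.two_le
      have h3 := hq.2.2.1
      omega
    have h2 : ∀ q ∈ pr 3 (2 ^ (J / d)), Cnt (2 ^ J) (fun n q' => q' = q ∧ BadP n q') ≤
        C0 * 2 ^ J * ((1 / q) * (Real.sqrt (4 * k / J) *
          (Real.sqrt 24 * Real.sqrt (Real.log q) + Real.sqrt (Real.log J)) + 1 / J)) := by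
      intro q hq
      rw [mem_pr] at hq
      refine (h0 J q (by omega) hq.2 (by omega)
        (sml_small k d J (by omega) hdk hJ2 q hq.1.2)).trans ?_
      apply mul_le_mul_of_nonneg_left _ (by positivity)
      apply mul_le_mul_of_nonneg_left _ (by positivity)
      have := sml_sqrt k J q (by omega) hkJ hJ4 (by omega)
      linarith
    obtain ⟨h3, h4⟩ := hS J d hd hJ3 hJ4
    set S1 := ∑ q ∈ pr 3 (2 ^ (J / d)), Real.sqrt (Real.log q) / q with hS1
    set S2 := ∑ q ∈ pr 3 (2 ^ (J / d)), (1 : ℝ) / q with hS2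
    have hS2n : 0 ≤ S2 := sum_nonneg fun q _ => by positivity
    have h5 : ∑ q ∈ pr 3 (2 ^ (J / d)), C0 * 2 ^ J * ((1 / q) * (Real.sqrt (4 * k / J) *
          (Real.sqrt 24 * Real.sqrt (Real.log q) + Real.sqrt (Real.log J)) + 1 / J)) =
        C0 * 2 ^ J * (Real.sqrt (4 * k / J) * Real.sqrt 24 * S1 +
          (Real.sqrt (4 * k / J) * Real.sqrt (Real.log J) + 1 / J) * S2) := by
      rw [hS1, hS2, mul_sum, mul_sum, ← sum_add_distrib, mul_sum]
      apply sum_congr rfl
      intro q _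
      ring
    have h6 : Real.sqrt (4 * k / J) = Real.sqrt (4 * k) / Real.sqrt J :=
      Real.sqrt_div (by positivity) _
    have h7 : Real.sqrt (4 * k / J) * Real.sqrt 24 * S1 ≤
        Real.sqrt (4 * k) * Real.sqrt 24 * K / Real.sqrt d := by
      rw [h6]
      calc Real.sqrt (4 * k) / Real.sqrt J * Real.sqrt 24 * S1
          ≤ Real.sqrt (4 * k) / Real.sqrt J * Real.sqrt 24 *
            (K * (Real.sqrt J / Real.sqrt d)) :=
            mul_le_mul_of_nonneg_left h3 (by positivity)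
        _ = Real.sqrt (4 * k) * Real.sqrt 24 * K / Real.sqrt d := by
            field_simp
    have h8 : Real.sqrt (Real.log J) ≤ Real.log J := by
      rw [Real.sqrt_le_left (by linarith)]
      nlinarith
    have h9 : (1 : ℝ) / J ≤ Real.log J / Real.sqrt J := by
      rw [div_le_div_iff₀ hJ0 hsJ, one_mul]
      have h10 : Real.sqrt J ≤ J := by
        rw [Real.sqrt_le_left (by linarith)]
        nlinarith
      nlinarith
    have h10 : (Real.sqrt (4 * k / J) * Real.sqrt (Real.log J) + 1 / J) * S2 ≤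
        1 / Real.sqrt d := by
      calc (Real.sqrt (4 * k / J) * Real.sqrt (Real.log J) + 1 / J) * S2
          ≤ (Real.sqrt (4 * k) / Real.sqrt J * Real.log J + Real.log J / Real.sqrt J) *
            (c * Real.log J) := by
            apply mul_le_mul _ h4 hS2n (by positivity)
            rw [h6]
            apply add_le_add _ h9
            exact mul_le_mul_of_nonneg_left h8 (by positivity)
        _ = B * (Real.log J ^ 2 / Real.sqrt J) := by
            rw [hB]
            ring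
        _ ≤ B * (1 / (B * Real.sqrt d)) := mul_le_mul_of_nonneg_left hJ1.le hB0.le
        _ = 1 / Real.sqrt d := by
            field_simp
    refine h1.trans ((sum_le_sum h2).trans ?_)
    rw [h5]
    have h11 : Real.sqrt (4 * k / J) * Real.sqrt 24 * S1 +
          (Real.sqrt (4 * k / J) * Real.sqrt (Real.log J) + 1 / J) * S2 ≤
        (Real.sqrt (4 * k) * Real.sqrt 24 * K + 1) / Real.sqrt d := by
      rw [add_div]
      exact add_le_add h7 h10
    calc C0 * 2 ^ J * (Real.sqrt (4 * k / J) * Real.sqrt 24 * S1 +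
          (Real.sqrt (4 * k / J) * Real.sqrt (Real.log J) + 1 / J) * S2)
        ≤ C0 * 2 ^ J * ((Real.sqrt (4 * k) * Real.sqrt 24 * K + 1) / Real.sqrt d) :=
          mul_le_mul_of_nonneg_left h11 (by positivity)
      _ = A / Real.sqrt d * 2 ^ J := by
          rw [hA]
          ring
      _ ≤ (Real.sqrt (32 * k) + A) / Real.sqrt d * 2 ^ J := by
          apply mul_le_mul_of_nonneg_right _ (by positivity)
          apply div_le_div_of_nonneg_right _ hsd.le
          have := Real.sqrt_nonneg (32 * (k : ℝ))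
          linarith

end Pool.Agent.H12.FO.Sml
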