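import Pool.Agent.H80.FP.FR
import Pool.Agent.H88.FP.BR

/-!
FO Tsr: the rate for the primes `q ∣ n² + n + 1` (helper80, helper88).
-/

set_option autoImplicit false

namespace Pool.Agent.H12.FO

theorem tst_rate : ∃ C : ℝ, 0 < C ∧ ∀ x : ℕ, 16 ≤ x → ∀ S : Finset ℕ,
    (∀ n ∈ S, 1 ≤ n ∧ n ≤ x ∧ Pool.Agent.H80.FP.Tst n) →
    (S.card : ℝ) ≤ C * x * Real.log (Real.log x) / Real.log x ^ (1 / 4 : ℝ) :=
  Pool.Agent.H80.FP.tst_rate_of Pool.Agent.H80.FP.bw_rate Pool.Agent.H80.FP.bu_rate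

end Pool.Agent.H12.FO
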